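import Pool.Agent.Lib.MP_8bcb2e_ag.Main

/-!
# The main theorem for smooth proper schemes, from the pieces
-/

set_option autoImplicit false

universe u

namespace Pool.Agent.Lib.MP_8bcb2e_ag

open KaehlerDifferential AlgebraicGeometry CategoryTheory

theorem isSmoothModel_of_scheme (hJ1 : SchemeCoord.{u}) (hJ2 : SchemeComplete.{u})
    (hJ3 : SchemeFin.{u}) {k : Type u} [Field k] (X : Scheme.{u}) [IsIntegral X] (n : ℕ)
    (f : X ⟶ Spec (.of k)) [IsProper f] [SmoothOfRelativeDimension n f] :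
    letI := functionFieldAlgebra f
    IsSmoothModel k n (localRings X) := by
  have hs : Smooth f := SmoothOfRelativeDimension.smooth n f
  letI := functionFieldAlgebra f
  have h3 := (hJ3 k X f).2
  refine ⟨?_, ?_, ?_, ?_⟩
  · rintro _ ⟨x, rfl⟩ c
    exact (h3 x).1 c
  · rintro _ ⟨x, rfl⟩ a ha
    exact (h3 x).2 a ha
  · rintro _ ⟨x, rfl⟩
    exact hJ1 k X n f x
  · intro V hV
    obtain ⟨x, hx⟩ := hJ2 k X f V hV
    exact ⟨_, ⟨x, rfl⟩, hx⟩

theorem main_scheme (hPB : PBasis.{u}) (hTM : TraceMonomial.{u}) (hTop : TopMem.{u})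
    (hC : SepExists.{u}) (hD1 : DerivBound.{u}) (hD2 : IntegralOfHeightOne.{u})
    (hD3 : InftyChart.{u}) (hD4 : TwoCharts.{u}) (hE : IntegralSections.{u}) (hF : WSection.{u})
    (hG : Spread.{u}) (hI : TraceExists.{u}) (hJ1 : SchemeCoord.{u}) (hJ2 : SchemeComplete.{u})
    (hJ3 : SchemeFin.{u}) {k : Type u} [Field k] [PerfectField k] (p : ℕ) [Fact p.Prime] [CharP k p]
    {X : Scheme.{u}} [IsIntegral X] {n : ℕ} (hn : 1 ≤ n)
    (f : X ⟶ Spec (.of k)) [IsProper f] [SmoothOfRelativeDimension n f] :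
    letI := functionFieldAlgebra f
    ∀ Ψ : Ω[X.functionField⁄k] [⋀^Fin n]→ₗ[X.functionField] X.functionField, Ψ ≠ 0 →
      ∃ T : X.functionField → X.functionField, IsFrobTrace k Ψ p T ∧
        (∀ T', IsFrobTrace k Ψ p T' → T' = T) ∧
        ∀ r : ℕ, GenericallyFinite k (sections k Ψ (localRings X) r) → ∀ j : ℕ, n + 2 ≤ j →
          Birational k (S0 k Ψ p T (localRings X) (1 + j * r)) := by
  have hs : Smooth f := SmoothOfRelativeDimension.smooth n f
  letI := functionFieldAlgebra f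
  have hess := (hJ3 k X f).1
  have h𝒪 := isSmoothModel_of_scheme hJ1 hJ2 hJ3 X n f
  intro Ψ hΨ
  obtain ⟨x, hx⟩ := exists_diffBasis h𝒪
  obtain ⟨T, hT, huniq⟩ := hI hPB hTM k X.functionField p n x hn hx Ψ hΨ
  exact ⟨T, hT, huniq, fun r hr j hj =>
    main_model hPB hTM hTop hC hD1 hD2 hD3 hD4 hE hF hG hn hΨ h𝒪 hT hr hj⟩

end Pool.Agent.Lib.MP_8bcb2e_ag
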