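import Pool.Agent.Lib.MP_8bcb2e_ag.Spec

/-!
# The derivations of a separating transcendence basis have bounded denominators
-/

set_option autoImplicit false

universe u

namespace Pool.Agent.Lib.MP_8bcb2e_ag

open KaehlerDifferential

/-- an element of all valuation subrings over a subring is integral -/
theorem isIntegral_of_forall_valuationSubring {K : Type u} [Field K] (R : Subring K) (x : K)
    (h : ∀ V : ValuationSubring K, R ≤ V.toSubring → x ∈ V) : IsIntegral R x := by
  have h1 := iInf_valuationSubring_superset (s := (R : Set K))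
  have h2 : x ∈ (⨅ V : {V : ValuationSubring K // (R : Set K) ⊆ V.toSubring}, V.1.toSubring) := by
    rw [Subring.mem_iInf]
    rintro ⟨V, hV⟩
    exact h V hV
  rw [h1, Subring.closure_eq] at h2
  exact h2

/-- a valuation subring is integrally closed -/
theorem mem_valuationSubring_of_isIntegral {K : Type u} [Field K] (R : Subring K)
    (V : ValuationSubring K) (hV : R ≤ V.toSubring) (x : K) (hx : IsIntegral R x) : x ∈ V := by
  have h1 : IsIntegral V x := by
    obtain ⟨p, hp, hpx⟩ := hx
    refine ⟨p.map (Subring.inclusion hV), hp.map _, ?_⟩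
    rw [Polynomial.eval₂_map]
    exact hpx
  obtain ⟨y, hy⟩ := IsIntegrallyClosed.isIntegral_iff.1 h1
  rw [← hy]
  exact y.2

/-- The partial sums `u` of an equation of `z`: `u` and `z u` are integral. -/
theorem isIntegral_partial {A K : Type u} [CommRing A] [Field K] (R : Subring K) (φ : A →+* K)
    (hφ : ∀ a, φ a ∈ R) (z : K) (g : Polynomial A) (hg : g.eval₂ φ z = 0) (r m : ℕ)
    (hm : g.natDegree < r + m) :
    IsIntegral R (∑ j ∈ Finset.range m, φ (g.coeff (r + j)) * z ^ j) ∧
      IsIntegral R (z * ∑ j ∈ Finset.range m, φ (g.coeff (r + j)) * z ^ j) := by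
  set u := ∑ j ∈ Finset.range m, φ (g.coeff (r + j)) * z ^ j with hu
  have h0 : ∑ j ∈ Finset.range r, φ (g.coeff j) * z ^ j + z ^ r * u = 0 := by
    rw [Polynomial.eval₂_eq_sum_range' φ hm, Finset.sum_range_add] at hg
    rw [← hg, hu, Finset.mul_sum]
    congr 1
    refine Finset.sum_congr rfl fun j _ => ?_
    rw [pow_add]
    ring
  have key : ∀ V : ValuationSubring K, R ≤ V.toSubring → u ∈ V ∧ z * u ∈ V := by
    intro V hV
    have hφV : ∀ a, φ a ∈ V := fun a => hV (hφ a)
    rcases V.mem_or_inv_mem z with hz | hz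
    · have h1 : u ∈ V := by
        rw [hu]
        exact sum_mem fun j _ => mul_mem (hφV _) (pow_mem hz _)
      exact ⟨h1, mul_mem hz h1⟩
    · by_cases hz0 : z = 0
      · have h1 : u ∈ V := by
          rw [hu]
          exact sum_mem fun j _ => mul_mem (hφV _) (pow_mem (by rw [hz0]; exact zero_mem V) _)
        exact ⟨h1, by rw [hz0, zero_mul]; exact zero_mem V⟩
      · have hzz : ∀ a b : ℕ, z ^ (a + b) * (z⁻¹) ^ b = z ^ a := by
          intro a b
          rw [pow_add, mul_assoc, ← mul_pow, mul_inv_cancel₀ hz0, one_pow, mul_one]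
        have h1 : u = - ∑ j ∈ Finset.range r, φ (g.coeff j) * (z⁻¹) ^ (r - j) := by
          have h2 : z ^ r * u = z ^ r * - ∑ j ∈ Finset.range r, φ (g.coeff j) * (z⁻¹) ^ (r - j) := by
            have h3 : z ^ r * ∑ j ∈ Finset.range r, φ (g.coeff j) * (z⁻¹) ^ (r - j) =
                ∑ j ∈ Finset.range r, φ (g.coeff j) * z ^ j := by
              rw [Finset.mul_sum]
              refine Finset.sum_congr rfl fun j hj => ?_
              have hj' : j + (r - j) = r := by
                have := Finset.mem_range.1 hj
                omega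
              have h4 := hzz j (r - j)
              rw [hj'] at h4
              rw [← h4]
              ring
            rw [mul_neg, h3]
            linear_combination h0
          exact mul_left_cancel₀ (pow_ne_zero r hz0) h2
        have h2 : z * u = - ∑ j ∈ Finset.range r, φ (g.coeff j) * (z⁻¹) ^ (r - j - 1) := by
          rw [h1, mul_neg, Finset.mul_sum]
          congr 1
          refine Finset.sum_congr rfl fun j hj => ?_
          have hj' : r - j = (r - j - 1) + 1 := by
            have := Finset.mem_range.1 hj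
            omega
          conv_lhs => rw [hj', pow_succ]
          field_simp
        refine ⟨?_, ?_⟩
        · rw [h1]
          exact neg_mem (sum_mem fun j _ => mul_mem (hφV _) (pow_mem hz _))
        · rw [h2]
          exact neg_mem (sum_mem fun j _ => mul_mem (hφV _) (pow_mem hz _))
  exact ⟨isIntegral_of_forall_valuationSubring R u fun V hV => (key V hV).1,
    isIntegral_of_forall_valuationSubring R _ fun V hV => (key V hV).2⟩

/-- An element of a valuation subring `V` of height one is a quotient of integral elements with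
the denominator a unit of `V`. -/
theorem exists_frac {k K : Type u} [Field k] [Field K] [Algebra k K] {n : ℕ} {t : Fin n → K}
    (hind : AlgebraicIndependent k t)
    (halg : Algebra.IsAlgebraic (Algebra.adjoin k (Set.range t)) K)
    {V : ValuationSubring K} (hV : HeightOne k t V) (z : K) (hz : z ∈ V) :
    ∃ w v : K, IsIntegral (Algebra.adjoin k (Set.range t)) w ∧
      IsIntegral (Algebra.adjoin k (Set.range t)) v ∧ v ≠ 0 ∧ v⁻¹ ∈ V ∧ z = w / v := by
  obtain ⟨hk, ht, π, hπ, hq⟩ := hV
  set φ : MvPolynomial (Fin n) k →+* K := (MvPolynomial.aeval t : _ →ₐ[k] K).toRingHom with hφ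
  have hinj : Function.Injective φ := hind
  have hφR : ∀ a, φ a ∈ (Algebra.adjoin k (Set.range t)).toSubring := by
    intro a
    change MvPolynomial.aeval t a ∈ Algebra.adjoin k (Set.range t)
    rw [Algebra.adjoin_range_eq_range_aeval]
    exact ⟨a, rfl⟩
  have hφV : ∀ a, φ a ∈ V := by
    intro a
    have h1 : Algebra.adjoin k (Set.range t) ≤
        { V.toSubring with algebraMap_mem' := hk : Subalgebra k K } := by
      rw [Algebra.adjoin_le_iff]
      rintro _ ⟨i, rfl⟩
      exact ht i
    exact h1 (hφR a)
  -- an equation of `z`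
  obtain ⟨p, hp0, hp⟩ := halg.isAlgebraic z
  set e := hind.aevalEquiv with he
  set g₀ : Polynomial (MvPolynomial (Fin n) k) :=
    p.map (e.symm : Algebra.adjoin k (Set.range t) →+* MvPolynomial (Fin n) k) with hg₀
  have hφe : φ.comp (e.symm : Algebra.adjoin k (Set.range t) →+* MvPolynomial (Fin n) k) =
      algebraMap (Algebra.adjoin k (Set.range t)) K := by
    ext a
    obtain ⟨q, rfl⟩ := e.surjective a
    simp [hφ, he]
  have hg₀0 : g₀ ≠ 0 := by
    intro h
    apply hp0
    have hi : Function.Injective
        (e.symm : Algebra.adjoin k (Set.range t) →+* MvPolynomial (Fin n) k) := e.symm.injective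
    exact (Polynomial.map_eq_zero_iff hi).1 h
  have hg₀z : g₀.eval₂ φ z = 0 := by
    rw [hg₀, Polynomial.eval₂_map, hφe]
    exact hp
  have hnu : ¬ IsUnit (Polynomial.C π) := by
    rw [Polynomial.isUnit_C]
    exact hπ.not_isUnit
  obtain ⟨l, g, hg, hgg⟩ := WfDvdMonoid.max_power_factor' hg₀0 hnu
  have hπ0 : φ π ≠ 0 := by
    rw [Ne, map_eq_zero_iff φ hinj]
    exact hπ.ne_zero
  have hgz : g.eval₂ φ z = 0 := by
    rw [hgg, Polynomial.eval₂_mul, Polynomial.eval₂_pow, Polynomial.eval₂_C] at hg₀z
    exact (mul_eq_zero.1 hg₀z).resolve_left (pow_ne_zero _ hπ0)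
  rw [Polynomial.C_dvd_iff_dvd_coeff] at hg
  push Not at hg
  obtain ⟨i₀, hi₀⟩ := hg
  have hi₀' : i₀ ≤ g.natDegree := by
    by_contra h
    rw [Polynomial.coeff_eq_zero_of_natDegree_lt (not_le.1 h)] at hi₀
    exact hi₀ (dvd_zero _)
  classical
  set r := Nat.findGreatest (fun i => ¬ π ∣ g.coeff i) g.natDegree with hr
  have hr1 : ¬ π ∣ g.coeff r := Nat.findGreatest_spec (P := fun i => ¬ π ∣ g.coeff i) hi₀' hi₀
  have hr2 : ∀ i, r < i → π ∣ g.coeff i := by
    intro i hi
    by_cases h : i ≤ g.natDegree
    · have := Nat.findGreatest_is_greatest (P := fun i => ¬ π ∣ g.coeff i) hi h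
      simpa using this
    · rw [Polynomial.coeff_eq_zero_of_natDegree_lt (not_le.1 h)]
      exact dvd_zero _
  obtain ⟨m, hm⟩ : ∃ m, g.natDegree < r + (m + 1) := ⟨g.natDegree, by omega⟩
  obtain ⟨h1, h2⟩ := isIntegral_partial (Algebra.adjoin k (Set.range t)).toSubring φ hφR z g hgz r
    (m + 1) hm
  set u := ∑ j ∈ Finset.range (m + 1), φ (g.coeff (r + j)) * z ^ j with hu
  have hvπ : V.valuation (φ π) < 1 := by
    have h3 : (φ π)⁻¹ ∉ V := by
      intro h
      exact (hq π hπ.ne_zero).1 h dvd_rfl
    rw [← V.valuation_le_one_iff, map_inv₀, not_le] at h3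
    exact (one_lt_inv₀ (by rw [zero_lt_iff]; exact (Valuation.ne_zero_iff _).2 hπ0)).1 h3
  have hc0 : g.coeff r ≠ 0 := fun h => hr1 (h ▸ dvd_zero _)
  have hva : V.valuation (φ (g.coeff r)) = 1 := by
    apply le_antisymm
    · rw [V.valuation_le_one_iff]
      exact hφV _
    · have h3 : (φ (g.coeff r))⁻¹ ∈ V := (hq _ hc0).2 hr1
      rw [← V.valuation_le_one_iff, map_inv₀] at h3
      exact (inv_le_one₀ (by
        rw [zero_lt_iff, Valuation.ne_zero_iff, Ne, map_eq_zero_iff φ hinj]
        exact hc0)).1 h3
  have hvu : V.valuation u = 1 := by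
    rw [hu, Finset.sum_range_succ']
    have h3 : V.valuation (∑ j ∈ Finset.range m, φ (g.coeff (r + (j + 1))) * z ^ (j + 1)) < 1 := by
      refine Valuation.map_sum_lt _ one_ne_zero fun j _ => ?_
      obtain ⟨c, hc⟩ := hr2 (r + (j + 1)) (by omega)
      rw [hc, map_mul φ, mul_assoc, map_mul]
      have h4 : V.valuation (φ c * z ^ (j + 1)) ≤ 1 := by
        rw [V.valuation_le_one_iff]
        exact mul_mem (hφV c) (pow_mem hz _)
      exact mul_lt_one_of_lt_of_le hvπ h4
    rw [pow_zero, mul_one, add_zero]
    rw [Valuation.map_add_eq_of_lt_right _ (by rw [hva]; exact h3), hva]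
  have hu0 : u ≠ 0 := by
    intro h
    rw [h, map_zero] at hvu
    exact zero_ne_one hvu
  refine ⟨z * u, u, h2, h1, hu0, ?_, ?_⟩
  · rw [← V.valuation_le_one_iff, map_inv₀, hvu, inv_one]
  · rw [mul_div_assoc, div_self hu0, mul_one]

open scoped IntermediateField.algebraAdjoinAdjoin in
theorem derivBound_of : DerivBound.{u} := by
  intro k K _ _ _ n t ht
  obtain ⟨hind, hsep, hfin, b, hb⟩ := ht
  have : IsIntegrallyClosed (Algebra.adjoin k (Set.range t)) :=
    IsIntegrallyClosed.of_equiv hind.aevalEquiv.toRingEquiv
  have halg : Algebra.IsAlgebraic (Algebra.adjoin k (Set.range t)) K :=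
    Algebra.IsAlgebraic.trans _ (IntermediateField.adjoin k (Set.range t)) K
  -- the derivations
  set del : Fin n → Derivation k K K := fun i => (b.coord i).compDer (D k K) with hdel
  have hdel' : ∀ i a, del i a = b.coord i (D k K a) := fun i a => rfl
  -- they preserve the ring `k[t]`
  have hdelA : ∀ a ∈ Algebra.adjoin k (Set.range t), ∀ i,
      del i a ∈ Algebra.adjoin k (Set.range t) := by
    intro a ha i
    induction ha using Algebra.adjoin_induction with
    | mem x hx =>
      obtain ⟨j, rfl⟩ := hx
      rw [hdel', ← hb j, Module.Basis.coord_apply, Module.Basis.repr_self, Finsupp.single_apply]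
      split
      · exact one_mem _
      · exact zero_mem _
    | algebraMap c => rw [Derivation.map_algebraMap]; exact zero_mem _
    | add x y _ _ hx hy => rw [map_add]; exact add_mem hx hy
    | mul x y hx' hy' hx hy =>
      rw [Derivation.leibniz, smul_eq_mul, smul_eq_mul]
      exact add_mem (mul_mem hx' hy) (mul_mem hy' hx)
  classical
  obtain ⟨s, b', hb'⟩ := FiniteDimensional.exists_is_basis_integral
    (Algebra.adjoin k (Set.range t)) (IntermediateField.adjoin k (Set.range t)) K
  have hspan := integralClosure_le_span_dualBasis b' hb'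
  set w := (Algebra.traceForm (IntermediateField.adjoin k (Set.range t)) K).dualBasis
    (traceForm_nondegenerate (IntermediateField.adjoin k (Set.range t)) K) b' with hw
  obtain ⟨y, hy0, hy⟩ := exists_integral_multiples (Algebra.adjoin k (Set.range t))
    (IntermediateField.adjoin k (Set.range t))
    ((Finset.univ.image w) ∪ (Finset.univ.image fun ij : Fin n × s => del ij.1 (w ij.2)))
  have hyw : ∀ j, IsIntegral (Algebra.adjoin k (Set.range t)) (y • w j) := fun j =>
    hy _ (Finset.mem_union_left _ (Finset.mem_image_of_mem _ (Finset.mem_univ j)))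
  have hydw : ∀ i j, IsIntegral (Algebra.adjoin k (Set.range t)) (y • del i (w j)) := fun i j =>
    hy _ (Finset.mem_union_right _ (Finset.mem_image.2 ⟨(i, j), Finset.mem_univ _, rfl⟩))
  have key : ∀ z : K, IsIntegral (Algebra.adjoin k (Set.range t)) z → ∀ i,
      IsIntegral (Algebra.adjoin k (Set.range t)) (y • del i z) := by
    intro z hz
    have h1 := hspan hz
    clear hz
    have h2 : (∀ i, IsIntegral (Algebra.adjoin k (Set.range t)) (y • del i z)) ∧
        IsIntegral (Algebra.adjoin k (Set.range t)) (y • z) := by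
      induction h1 using Submodule.span_induction with
      | mem x hx =>
        obtain ⟨j, rfl⟩ := hx
        exact ⟨fun i => hydw i j, hyw j⟩
      | zero =>
        refine ⟨fun i => ?_, ?_⟩
        · rw [map_zero, smul_zero]; exact isIntegral_zero
        · rw [smul_zero]; exact isIntegral_zero
      | add x x' _ _ hx hx' =>
        refine ⟨fun i => ?_, ?_⟩
        · rw [map_add, smul_add]; exact (hx.1 i).add (hx'.1 i)
        · rw [smul_add]; exact hx.2.add hx'.2
      | smul a x _ hx =>
        refine ⟨fun i => ?_, ?_⟩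
        · have h3 : y • del i (a • x) = a • (y • del i x) +
              (⟨del i a, hdelA a a.2 i⟩ : Algebra.adjoin k (Set.range t)) • (y • x) := by
            have h4 : del i (a • x) = (a : K) * del i x + x * del i (a : K) := by
              rw [Subalgebra.smul_def, smul_eq_mul, Derivation.leibniz, smul_eq_mul, smul_eq_mul]
            rw [h4]
            simp only [Subalgebra.smul_def, smul_eq_mul]
            ring
          rw [h3]
          exact ((hx.1 i).smul a).add (hx.2.smul _)
        · rw [smul_comm]
          exact hx.2.smul a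
    exact h2.1
  refine ⟨y, ?_, ?_⟩
  · simpa using hy0
  · intro V hV a ha c hc i
    have hci : c i = del i a := by
      rw [hdel', hc, map_sum]
      simp [← hb, Finsupp.single_apply]
    have hAV : (Algebra.adjoin k (Set.range t)).toSubring ≤ V.toSubring := by
      have h1 : Algebra.adjoin k (Set.range t) ≤
          { V.toSubring with algebraMap_mem' := hV.1 : Subalgebra k K } := by
        rw [Algebra.adjoin_le_iff]
        rintro _ ⟨i, rfl⟩
        exact hV.2.1 i
      exact h1
    have hint : ∀ z : K, IsIntegral (Algebra.adjoin k (Set.range t)) z → z ∈ V := fun z hz =>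
      mem_valuationSubring_of_isIntegral (Algebra.adjoin k (Set.range t)).toSubring V hAV z hz
    obtain ⟨w', v, hw', hv, hv0, hvV, rfl⟩ := exists_frac hind halg hV a ha
    have h1 : (y : K) * del i (w' / v) =
        v⁻¹ * v⁻¹ * (v * ((y : K) * del i w') - w' * ((y : K) * del i v)) := by
      rw [Derivation.leibniz_div]
      simp only [smul_eq_mul]
      field_simp
    rw [hci, h1]
    refine mul_mem (mul_mem hvV hvV) (sub_mem (mul_mem (hint _ hv) (hint _ (key _ hw' i)))
      (mul_mem (hint _ hw') (hint _ (key _ hv i))))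

end Pool.Agent.Lib.MP_8bcb2e_ag
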