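import Pool.Agent.Lib.MP_8bcb2e_ag.TwoCharts

/-!
# The chart at infinity is a separating transcendence basis
-/

set_option autoImplicit false

universe u

namespace Pool.Agent.Lib.MP_8bcb2e_ag

open KaehlerDifferential

theorem isDiffBasis_of_span {k K : Type u} [Field k] [Field K] [Algebra k K] {n : ℕ}
    {x y : Fin n → K} (hx : IsDiffBasis k x)
    (h : ∀ i, D k K (x i) ∈ Submodule.span K (Set.range fun j => D k K (y j))) :
    IsDiffBasis k y := by
  obtain ⟨b, hb⟩ := hx
  have hfin : FiniteDimensional K Ω[K⁄k] := Module.Finite.of_basis b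
  have hcard : Fintype.card (Fin n) = Module.finrank K Ω[K⁄k] := by
    rw [Module.finrank_eq_card_basis b]
  have htop : ⊤ ≤ Submodule.span K (Set.range fun j => D k K (y j)) := by
    rw [← b.span_eq, Submodule.span_le]
    rintro _ ⟨i, rfl⟩
    rw [hb]
    exact h i
  exact ⟨basisOfTopLeSpanOfCardEqFinrank (fun j => D k K (y j)) htop hcard, fun i => by
    rw [coe_basisOfTopLeSpanOfCardEqFinrank]⟩

theorem inftyChart_of : InftyChart.{u} := by
  intro k K _ _ _ n t ht
  have h0 : t 0 ≠ 0 := ht.algInd.ne_zero 0
  have hEE := adjoin_inftyChart (k := k) h0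
  refine ⟨algInd_inftyChart ht, ?_, ?_, ?_⟩
  · rw [hEE]
    exact ht.sep
  · rw [hEE]
    exact ht.fin
  · apply isDiffBasis_of_span ht.diff
    have hs : ∀ j, D k K (inftyChart t j) ∈
        Submodule.span K (Set.range fun j => D k K (inftyChart t j)) := fun j =>
      Submodule.subset_span ⟨j, rfl⟩
    have h1 : D k K (t 0) ∈ Submodule.span K (Set.range fun j => D k K (inftyChart t j)) := by
      have h2 : D k K (t 0) = - (t 0) ^ 2 • D k K (inftyChart t 0) := by
        rw [inftyChart_zero, Derivation.leibniz_inv, smul_smul]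
        have : -t 0 ^ 2 * -(t 0)⁻¹ ^ 2 = 1 := by
          field_simp
        rw [this, one_smul]
      rw [h2]
      exact Submodule.smul_mem _ _ (hs 0)
    intro i
    refine Fin.cases h1 (fun i => ?_) i
    have h3 : D k K (t i.succ) = t 0 • D k K (inftyChart t i.succ) +
        (inftyChart t i.succ) • D k K (t 0) := by
      have h4 : t i.succ = t 0 * inftyChart t i.succ := by
        rw [inftyChart_succ, mul_div_cancel₀ _ h0]
      conv_lhs => rw [h4]
      rw [Derivation.leibniz]
    rw [h3]
    exact Submodule.add_mem _ (Submodule.smul_mem _ _ (hs _)) (Submodule.smul_mem _ _ h1)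

end Pool.Agent.Lib.MP_8bcb2e_ag
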