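import Pool.Agent.Lib.MP_8bcb2e_ag.TwoCharts

/-!
# Elements in all valuation rings of height one are integral
-/

set_option autoImplicit false

universe u

namespace Pool.Agent.Lib.MP_8bcb2e_ag

open Polynomial nonZeroDivisors

section

/-- Multiplicity decomposition. -/
theorem exists_pow_mul {A : Type*} [CommRing A] [IsDomain A] [UniqueFactorizationMonoid A] {ϖ : A} (hϖ : Irreducible ϖ) {a : A} (ha : a ≠ 0) :
    ∃ (m : ℕ) (b : A), ¬ ϖ ∣ b ∧ a = ϖ ^ m * b := by
  have hfin : FiniteMultiplicity ϖ a := FiniteMultiplicity.of_not_isUnit hϖ.not_isUnit ha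
  obtain ⟨b, h1, h2⟩ := hfin.exists_eq_pow_mul_and_not_dvd
  exact ⟨_, b, h2, h1⟩

theorem isIntegral_of_surjective {R T L : Type*} [CommRing R] [CommRing T] [CommRing L]
    [Algebra R L] [Algebra T L] (ψ : R →+* T) (hψ : Function.Surjective ψ)
    (h : (algebraMap T L).comp ψ = algebraMap R L) {x : L} (hx : IsIntegral T x) :
    IsIntegral R x := by
  obtain ⟨p, hp, hpx⟩ := hx
  have h1 : p ∈ Polynomial.lifts ψ := by
    rw [Polynomial.lifts_iff_coeff_lifts]
    intro n
    exact hψ _
  rcases subsingleton_or_nontrivial T with hT | hT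
  · have hL : Subsingleton L := (algebraMap T L).codomain_trivial
    exact ⟨1, monic_one, Subsingleton.elim _ _⟩
  obtain ⟨q, h2, h3, h4⟩ := Polynomial.lifts_and_natDegree_eq_and_monic h1 hp
  refine ⟨q, h4, ?_⟩
  rw [← h, ← eval₂_map, h2]
  exact hpx

theorem isIntegral_of_heightOne {A E K : Type*} [CommRing A] [IsDomain A]
    [UniqueFactorizationMonoid A] [Field E] [Algebra A E] [IsFractionRing A E] [Field K]
    [Algebra E K] [Algebra A K] [IsScalarTower A E K] [Algebra.IsAlgebraic E K] (F : K) (h : ∀ V : ValuationSubring K,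
    (∀ a : A, algebraMap A K a ∈ V) → ∀ ϖ : A, Irreducible ϖ →
      (∀ a : A, a ≠ 0 → ((algebraMap A K a)⁻¹ ∈ V ↔ ¬ ϖ ∣ a)) → F ∈ V) : IsIntegral A F := by
  classical
  have hinjAK : Function.Injective (algebraMap A K) := by
    rw [IsScalarTower.algebraMap_eq A E K]
    exact (algebraMap E K).injective.comp (IsFractionRing.injective A E)
  -- the localizations
  have key : ∀ ϖ : A, Irreducible ϖ → ∀ i, ∃ a s : A, ¬ ϖ ∣ s ∧
      (minpoly E F).coeff i = algebraMap A E a * (algebraMap A E s)⁻¹ := by
    intro ϖ hϖ
    have hprime : Prime ϖ := hϖ.prime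
    have hI : (Ideal.span {ϖ}).IsPrime := (Ideal.span_singleton_prime hϖ.ne_zero).mpr hprime
    let S : Submonoid A := (Ideal.span {ϖ}).primeCompl
    have hmem : ∀ a : A, a ∈ S ↔ ¬ ϖ ∣ a := by
      intro a
      change a ∉ Ideal.span {ϖ} ↔ _
      rw [Ideal.mem_span_singleton]
    have hS : S ≤ A⁰ := Ideal.primeCompl_le_nonZeroDivisors _
    let R : Subalgebra A E := Localization.subalgebra.ofField E S hS
    have hR : ∀ x : E, x ∈ R ↔ ∃ (a s : A) (_ : s ∈ S), x = algebraMap A E a * (algebraMap A E s)⁻¹ :=
      fun x => Iff.rfl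
    have hloc : IsLocalization S R := Localization.subalgebra.isLocalization_ofField E S hS
    have hfr : IsFractionRing R E := IsFractionRing.isFractionRing_of_isLocalization S _ _ hS
    have hic : IsIntegrallyClosed R := isIntegrallyClosed_of_isLocalization R S hS
    have hRK : ∀ r : R, algebraMap R K r = algebraMap E K (r : E) := fun r => rfl
    have hAR : ∀ a : A, algebraMap A K a ∈ Set.range (algebraMap R K) := by
      intro a
      refine ⟨algebraMap A R a, ?_⟩
      rw [hRK, IsScalarTower.algebraMap_apply A E K]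
      rfl
    have hint : IsIntegral R F := by
      have hcl : Subring.closure (Set.range (algebraMap R K)) = (algebraMap R K).range := by
        rw [← RingHom.coe_range, Subring.closure_eq]
      have h1 : F ∈ (⨅ V : {V : ValuationSubring K // Set.range (algebraMap R K) ⊆ V.toSubring},
          V.1.toSubring) := by
        rw [Subring.mem_iInf]
        rintro ⟨V, hV⟩
        change F ∈ V
        have hAV : ∀ a : A, algebraMap A K a ∈ V := fun a => hV (hAR a)
        have hinv : ∀ s : A, ¬ ϖ ∣ s → (algebraMap A K s)⁻¹ ∈ V := by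
          intro s hs
          apply hV
          refine ⟨⟨(algebraMap A E s)⁻¹, 1, s, (hmem s).mpr hs, by rw [map_one, one_mul]⟩, ?_⟩
          rw [hRK, IsScalarTower.algebraMap_apply A E K, map_inv₀]
        by_cases hπ : (algebraMap A K ϖ)⁻¹ ∈ V
        · -- `V` is everything
          have hE : ∀ x : E, algebraMap E K x ∈ V := by
            intro x
            obtain ⟨a, b, hb, rfl⟩ := IsFractionRing.div_surjective (A := A) x
            have hb0 : b ≠ 0 := nonZeroDivisors.ne_zero hb
            obtain ⟨m, c, hc, rfl⟩ := exists_pow_mul hϖ hb0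
            rw [map_div₀, ← IsScalarTower.algebraMap_apply, ← IsScalarTower.algebraMap_apply,
              div_eq_mul_inv, map_mul, map_pow, mul_inv, ← inv_pow]
            exact V.mul_mem _ _ (hAV a) (V.mul_mem _ _ (pow_mem hπ m) (hinv c hc))
          have hFE : IsIntegral E F := Algebra.IsIntegral.isIntegral F
          have hFV : IsIntegral V F := by
            let φ : E →+* V := (algebraMap E K).codRestrict V hE
            obtain ⟨p, hp, hpx⟩ := hFE
            refine ⟨p.map φ, hp.map φ, ?_⟩
            rw [eval₂_map]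
            exact hpx
          obtain ⟨y, hy⟩ := IsIntegrallyClosed.isIntegral_iff.mp hFV
          rw [← hy]
          exact y.2
        · apply h V hAV ϖ hϖ
          intro a ha
          constructor
          · rintro h2 ⟨b, rfl⟩
            apply hπ
            have hb0 : b ≠ 0 := right_ne_zero_of_mul ha
            have h3 : (algebraMap A K ϖ)⁻¹ = (algebraMap A K (ϖ * b))⁻¹ * algebraMap A K b := by
              have hbK : algebraMap A K b ≠ 0 := by
                rw [Ne, map_eq_zero_iff _ hinjAK]
                exact hb0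
              rw [map_mul, mul_inv, mul_assoc, inv_mul_cancel₀ hbK, mul_one]
            rw [h3]
            exact V.mul_mem _ _ h2 (hAV b)
          · exact hinv a
      rw [iInf_valuationSubring_superset] at h1
      have h2 : IsIntegral (Subring.closure (Set.range (algebraMap R K))) F := h1
      have h3 : ∀ r : R, algebraMap R K r ∈ Subring.closure (Set.range (algebraMap R K)) :=
        fun r => Subring.subset_closure ⟨r, rfl⟩
      refine isIntegral_of_surjective
        ((algebraMap R K).codRestrict (Subring.closure (Set.range (algebraMap R K))) h3) ?_ ?_ h2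
      · rintro ⟨x, hx⟩
        rw [hcl] at hx
        obtain ⟨r, hr⟩ := hx
        exact ⟨r, Subtype.ext hr⟩
      · ext r
        rfl
    intro i
    have h5 : minpoly E F = (minpoly R F).map (algebraMap R E) :=
      minpoly.isIntegrallyClosed_eq_field_fractions E K hint
    rw [h5, coeff_map]
    obtain ⟨a, s, hs, h6⟩ := ((minpoly R F).coeff i).2
    exact ⟨a, s, (hmem s).mp hs, h6⟩
  -- the coefficients are in `A`
  have hcoeff : ∀ i, (minpoly E F).coeff i ∈ Set.range (algebraMap A E) := by
    intro i
    obtain ⟨a, b, hrel, hab⟩ := IsFractionRing.exists_reduced_fraction (A := A)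
      ((minpoly E F).coeff i)
    have hb0 : (b : A) ≠ 0 := nonZeroDivisors.ne_zero b.2
    have hbE : algebraMap A E b ≠ 0 := by
      rw [Ne, map_eq_zero_iff _ (IsFractionRing.injective A E)]
      exact hb0
    have hunit : IsUnit (b : A) := by
      by_contra hnu
      obtain ⟨ϖ, hϖ, hdvd⟩ := WfDvdMonoid.exists_irreducible_factor hnu hb0
      obtain ⟨a', s, hs, h6⟩ := key ϖ hϖ i
      have hs0 : s ≠ 0 := by
        rintro rfl
        exact hs (dvd_zero ϖ)
      have hsE : algebraMap A E s ≠ 0 := by
        rw [Ne, map_eq_zero_iff _ (IsFractionRing.injective A E)]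
        exact hs0
      rw [← hab, IsFractionRing.mk'_eq_div, div_eq_mul_inv] at h6
      have h7 : a * s = a' * b := by
        apply IsFractionRing.injective A E
        rw [map_mul, map_mul]
        field_simp at h6
        rw [h6]
        ring
      have h8 : ϖ ∣ a * s := by
        rw [h7]
        exact hdvd.mul_left a'
      rcases hϖ.prime.dvd_or_dvd h8 with h9 | h9
      · exact hϖ.not_isUnit (hrel h9 hdvd)
      · exact hs h9
    obtain ⟨u, hu⟩ := hunit
    refine ⟨a * (u⁻¹ : Aˣ), ?_⟩
    rw [← hab, IsFractionRing.mk'_eq_div, eq_div_iff hbE, ← map_mul, mul_assoc, ← hu,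
      Units.inv_mul, mul_one]
  have hlift : minpoly E F ∈ Polynomial.lifts (algebraMap A E) := by
    rw [Polynomial.lifts_iff_coeff_lifts]
    exact hcoeff
  obtain ⟨q, h2, h3, h4⟩ := Polynomial.lifts_and_natDegree_eq_and_monic hlift
    (minpoly.monic (Algebra.IsIntegral.isIntegral F))
  refine ⟨q, h4, ?_⟩
  rw [IsScalarTower.algebraMap_eq A E K, ← eval₂_map, h2]
  exact minpoly.aeval E F

end

open IntermediateField.algebraAdjoinAdjoin

theorem integralOfHeightOne_of : IntegralOfHeightOne.{u} := by
  intro k K _ _ _ n t ht F hF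
  have hfin := ht.fin
  let e : MvPolynomial (Fin n) k ≃ₐ[k] Algebra.adjoin k (Set.range t) := ht.algInd.aevalEquiv
  have he : ∀ q, ((e q : Algebra.adjoin k (Set.range t)) : K) = MvPolynomial.aeval t q := by
    intro q
    exact ht.algInd.algebraMap_aevalEquiv q
  have hufd : UniqueFactorizationMonoid (Algebra.adjoin k (Set.range t)) :=
    MulEquiv.uniqueFactorizationMonoid e.toMulEquiv inferInstance
  apply isIntegral_of_heightOne (A := Algebra.adjoin k (Set.range t))
    (E := IntermediateField.adjoin k (Set.range t))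
  intro V hV ϖ hϖ h
  apply hF
  refine ⟨fun c => hV (algebraMap k _ c), fun i => hV ⟨t i, Algebra.subset_adjoin ⟨i, rfl⟩⟩,
    e.symm ϖ, ?_, ?_⟩
  · exact (MulEquiv.irreducible_iff e.symm.toMulEquiv).mpr hϖ
  · intro q hq
    have h1 := h (e q) ((map_ne_zero_iff e e.injective).mpr hq)
    have h2 : algebraMap (Algebra.adjoin k (Set.range t)) K (e q) = MvPolynomial.aeval t q := he q
    rw [h2] at h1
    rw [h1]
    have h3 : ϖ ∣ e q ↔ e.symm ϖ ∣ q := by
      rw [← map_dvd_iff e.symm.toMulEquiv]
      change e.symm ϖ ∣ e.symm (e q) ↔ _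
      rw [e.symm_apply_apply]
    rw [h3]

end Pool.Agent.Lib.MP_8bcb2e_ag
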