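import Pool.Agent.Lib.MP_8bcb2e_ag.Spec

/-!
# `K = K^p[x]` for a differential basis `x`
-/

set_option autoImplicit false

universe u

namespace Pool.Agent.Lib.MP_8bcb2e_ag

open KaehlerDifferential

/-- The differentials over an intermediate field containing a differential basis vanish. -/
theorem pb_subsingleton {k K : Type u} [Field k] [Field K] [Algebra k K] {n : ℕ} {x : Fin n → K}
    (hx : IsDiffBasis k x) (E : IntermediateField k K) (hE : ∀ i, x i ∈ E) :
    Subsingleton (Ω[K⁄E]) := by
  obtain ⟨b, hb⟩ := hx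
  have h0 : ∀ ω : Ω[K⁄k], KaehlerDifferential.map k E K K ω = 0 := by
    intro ω
    rw [← b.sum_repr ω, map_sum]
    refine Finset.sum_eq_zero fun i _ => ?_
    rw [map_smul, hb i, KaehlerDifferential.map_D]
    have : algebraMap K K (x i) = algebraMap E K ⟨x i, hE i⟩ := rfl
    rw [this, Derivation.map_algebraMap, smul_zero]
  refine ⟨fun a c => ?_⟩
  obtain ⟨a', rfl⟩ := KaehlerDifferential.map_surjective k E K a
  obtain ⟨c', rfl⟩ := KaehlerDifferential.map_surjective k E K c
  rw [h0, h0]

/-- An intermediate field that contains a differential basis and all `p`-th powers is `K`. -/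
theorem pb_mem {k K : Type u} [Field k] [Field K] [Algebra k K] (p : ℕ)
    [Fact p.Prime] [CharP k p] [Algebra.EssFiniteType k K] {n : ℕ} {x : Fin n → K}
    (hx : IsDiffBasis k x) (E : IntermediateField k K) (hE : ∀ i, x i ∈ E)
    (hp : ∀ a : K, a ^ p ∈ E) (a : K) : a ∈ E := by
  have h1 : Algebra.FormallyUnramified E K := by
    rw [Algebra.formallyUnramified_iff]
    exact pb_subsingleton hx E hE
  have h2 : Algebra.EssFiniteType E K := Algebra.EssFiniteType.of_comp k E K
  have h3 : Algebra.IsSeparable E K := Algebra.FormallyUnramified.isSeparable E K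
  have : CharP E p := charP_of_injective_algebraMap (algebraMap k E).injective p
  have : ExpChar E p := ExpChar.prime (Fact.out)
  have h4 : IsPurelyInseparable E K := by
    rw [isPurelyInseparable_iff_pow_mem E p]
    intro a
    refine ⟨1, ⟨⟨a ^ p, hp a⟩, ?_⟩⟩
    rw [pow_one]
    rfl
  obtain ⟨y, hy⟩ := IsPurelyInseparable.surjective_algebraMap_of_isSeparable E K a
  rw [← hy]
  exact y.2

theorem pBasis_of : PBasis.{u} := by
  intro k K _ _ _ _ p _ _ _ n x hx a
  have hp : p.Prime := Fact.out
  have hKp : CharP K p := charP_of_injective_algebraMap (algebraMap k K).injective p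
  have : ExpChar k p := ExpChar.prime hp
  have : PerfectRing k p := PerfectField.toPerfectRing p
  let F : Subring K := (frobenius K p).range
  let v : (Fin n → Fin p) → K := fun α => ∏ i, x i ^ (α i : ℕ)
  let M : Submodule F K := Submodule.span F (Set.range v)
  have hsm : ∀ (b m : K), m ∈ M → b ^ p * m ∈ M := by
    intro b m hm
    have : b ^ p * m = (⟨b ^ p, ⟨b, rfl⟩⟩ : F) • m := rfl
    rw [this]
    exact M.smul_mem _ hm
  have hmon : ∀ f : Fin n → ℕ, ∏ i, x i ^ f i ∈ M := by
    intro f
    have h1 : ∏ i, x i ^ f i = (∏ i, x i ^ (f i / p)) ^ p * ∏ i, x i ^ (f i % p) := by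
      rw [← Finset.prod_pow, ← Finset.prod_mul_distrib]
      refine Finset.prod_congr rfl fun i _ => ?_
      rw [← pow_mul, ← pow_add, Nat.div_add_mod']
    rw [h1]
    apply hsm
    exact Submodule.subset_span ⟨fun i => ⟨f i % p, Nat.mod_lt _ hp.pos⟩, rfl⟩
  have hone : (1 : K) ∈ M := by
    have := hmon 0
    simpa using this
  have hmul : ∀ a b : K, a ∈ M → b ∈ M → a * b ∈ M := by
    intro a b ha hb
    have h1 : a * b ∈ M * M := Submodule.mul_mem_mul ha hb
    have h2 : M * M ≤ M := by
      change Submodule.span F (Set.range v) * Submodule.span F (Set.range v) ≤ M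
      rw [Submodule.span_mul_span, Submodule.span_le]
      rintro _ ⟨_, ⟨α, rfl⟩, _, ⟨β, rfl⟩, rfl⟩
      have := hmon (fun i => (α i : ℕ) + (β i : ℕ))
      simp only [pow_add, Finset.prod_mul_distrib] at this
      exact this
    exact h2 h1
  have hpow : ∀ a : K, a ∈ M → ∀ N : ℕ, a ^ N ∈ M := by
    intro a ha N
    induction N with
    | zero => simpa using hone
    | succ N ih => rw [pow_succ]; exact hmul _ _ ih ha
  have hpp : ∀ b : K, b ^ p ∈ M := fun b => by
    have := hsm b 1 hone
    rwa [mul_one] at this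
  have key : ∀ b ∈ IntermediateField.adjoin k (Set.range (fun b : K => b ^ p) ∪ Set.range x),
      b ∈ M := by
    intro b hb
    induction hb using IntermediateField.adjoin_induction with
    | mem b hb =>
      rcases hb with ⟨c, rfl⟩ | ⟨i, rfl⟩
      · exact hpp c
      · have := hmon (Pi.single i 1)
        rw [Finset.prod_eq_single i] at this
        · simpa using this
        · intro j _ hj
          rw [Pi.single_eq_of_ne hj, pow_zero]
        · intro h
          exact absurd (Finset.mem_univ _) h
    | algebraMap c =>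
      obtain ⟨d, rfl⟩ := surjective_frobenius k p c
      rw [frobenius_def, map_pow]
      exact hpp _
    | add a b _ _ ha hb => exact M.add_mem ha hb
    | inv a _ ha =>
      rcases eq_or_ne a 0 with rfl | h0
      · rw [inv_zero]
        exact M.zero_mem
      · have : a⁻¹ = a⁻¹ ^ p * a ^ (p - 1) := by
          obtain ⟨q, rfl⟩ : ∃ q, p = q + 1 := ⟨p - 1, (Nat.sub_add_cancel hp.pos).symm⟩
          rw [Nat.add_sub_cancel, pow_succ, inv_pow, mul_assoc, mul_comm (a⁻¹) (a ^ q), ← mul_assoc,
            inv_mul_cancel₀ (pow_ne_zero q h0), one_mul]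
        rw [this]
        exact hsm _ _ (hpow a ha _)
    | mul a b _ _ ha hb => exact hmul a b ha hb
  have haM : a ∈ M := by
    apply key
    apply pb_mem p hx
    · intro i
      exact IntermediateField.subset_adjoin _ _ (Or.inr ⟨i, rfl⟩)
    · intro b
      exact IntermediateField.subset_adjoin _ _ (Or.inl ⟨b, rfl⟩)
  obtain ⟨c, hc⟩ := (Submodule.mem_span_range_iff_exists_fun F).1 haM
  have hc' : ∀ α, ∃ d : K, d ^ p = (c α : K) := fun α => (c α).2
  choose d hd using hc'
  refine ⟨d, ?_⟩
  rw [← hc]
  refine Finset.sum_congr rfl fun α _ => ?_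
  rw [hd α]
  rfl

end Pool.Agent.Lib.MP_8bcb2e_ag
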