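import Pool.Agent.Lib.MP_8bcb2e_ag.Spec

set_option autoImplicit false

universe u v

namespace Pool.Agent.Lib.MP_8bcb2e_ag

open KaehlerDifferential

/-- The differentials of a separating transcendence basis form a basis of the differentials. -/
theorem exists_basis_of_separating {k : Type u} {K : Type v} [Field k] [Field K] [Algebra k K]
    {ι : Type*} (t : ι → K) (ht : AlgebraicIndependent k t)
    (hs : Algebra.IsSeparable (IntermediateField.adjoin k (Set.range t)) K) :
    ∃ b : Module.Basis ι K Ω[K⁄k], ∀ i, b i = D k K (t i) := by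
  have hinj : Function.Injective (MvPolynomial.aeval (R := k) t) :=
    algebraicIndependent_iff_injective_aeval.1 ht
  -- `K` as an algebra over the polynomial ring
  let _ : Algebra (MvPolynomial ι k) K := (MvPolynomial.aeval (R := k) t).toRingHom.toAlgebra
  have hsc : IsScalarTower k (MvPolynomial ι k) K :=
    IsScalarTower.of_algebraMap_eq fun a => ((MvPolynomial.aeval (R := k) t).commutes a).symm
  -- `k(t)` as an algebra over the polynomial ring
  let E := IntermediateField.adjoin k (Set.range t)
  let g : MvPolynomial ι k →ₐ[k] E := MvPolynomial.aeval (R := k) fun i =>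
    (⟨t i, IntermediateField.subset_adjoin _ _ (Set.mem_range_self i)⟩ : E)
  have hg : ∀ q : MvPolynomial ι k, ((g q : E) : K) = MvPolynomial.aeval t q := by
    intro q
    have h1 : (E.val.comp g) = MvPolynomial.aeval t := by
      apply MvPolynomial.algHom_ext
      intro i
      simp [g]
    exact DFunLike.congr_fun h1 q
  let _ : Algebra (MvPolynomial ι k) E := g.toRingHom.toAlgebra
  have hsc2 : IsScalarTower (MvPolynomial ι k) E K :=
    IsScalarTower.of_algebraMap_eq fun q => (hg q).symm
  have hfr : IsFractionRing (MvPolynomial ι k) E := by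
    have hf : FaithfulSMul (MvPolynomial ι k) E := by
      rw [faithfulSMul_iff_algebraMap_injective]
      intro a b hab
      apply hinj
      rw [← hg, ← hg]
      exact congrArg _ hab
    refine IsFractionRing.of_field _ _ ?_
    intro z
    obtain ⟨r, s, hz⟩ := (IntermediateField.mem_adjoin_range_iff k t (z : K)).1 z.2
    refine ⟨r, s, ?_⟩
    apply Subtype.ext
    change (z : K) = ((g r : E) : K) / ((g s : E) : K)
    rw [hg, hg, hz]
  have h1 : Algebra.FormallyEtale (MvPolynomial ι k) E :=
    Algebra.FormallyEtale.of_isLocalization (nonZeroDivisors (MvPolynomial ι k))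
  have h2 : Algebra.FormallyEtale E K := Algebra.FormallyEtale.of_isSeparable E K
  have h3 : Algebra.FormallyEtale (MvPolynomial ι k) K :=
    Algebra.FormallyEtale.comp (MvPolynomial ι k) E K
  let e := KaehlerDifferential.tensorKaehlerEquivOfFormallyEtale k (MvPolynomial ι k) K
  let b : Module.Basis ι K Ω[K⁄k] :=
    ((KaehlerDifferential.mvPolynomialBasis k ι).baseChange K).map e
  refine ⟨b, fun i => ?_⟩
  rw [Module.Basis.map_apply, Module.Basis.baseChange_apply, mvPolynomialBasis_apply,
    ← KaehlerDifferential.tensorKaehlerEquivOfFormallyEtale_symm_D_algebraMap,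
    LinearEquiv.apply_symm_apply]
  congr 1
  change MvPolynomial.aeval t (MvPolynomial.X i) = t i
  rw [MvPolynomial.aeval_X]

theorem sepExists_of : SepExists.{u} := by
  intro k K _ _ _ _ _ n x hx
  obtain ⟨s, hs1, hs2⟩ := exists_isTranscendenceBasis_and_isSeparable_of_perfectField k K
  have hr : Set.range ((↑) : s → K) = (s : Set K) := Subtype.range_coe
  have hs3 : Algebra.IsSeparable (IntermediateField.adjoin k (Set.range ((↑) : s → K))) K := by
    rw [hr]
    exact hs2
  obtain ⟨b, hb⟩ := exists_basis_of_separating ((↑) : s → K) hs1.1 hs3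
  obtain ⟨b', hb'⟩ := hx
  let σ : Fin n ≃ s := b'.indexEquiv b
  have hr2 : Set.range (fun i => ((σ i : s) : K)) = Set.range ((↑) : s → K) := by
    ext z
    constructor
    · rintro ⟨i, rfl⟩
      exact ⟨σ i, rfl⟩
    · rintro ⟨i, rfl⟩
      exact ⟨σ.symm i, by simp⟩
  have hs4 : Algebra.IsSeparable
      (IntermediateField.adjoin k (Set.range (fun i => ((σ i : s) : K)))) K := by
    rw [hr2]
    exact hs3
  refine ⟨fun i => (σ i : K), ⟨hs1.1.comp σ σ.injective, hs4, ?_, b.reindex σ.symm, ?_⟩⟩
  · have h1 : Algebra.EssFiniteType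
        (IntermediateField.adjoin k (Set.range (fun i => ((σ i : s) : K)))) K :=
      Algebra.EssFiniteType.of_comp k _ K
    have h2 : Algebra.FormallyUnramified
        (IntermediateField.adjoin k (Set.range (fun i => ((σ i : s) : K)))) K :=
      Algebra.FormallyUnramified.of_isSeparable _ _
    exact Algebra.FormallyUnramified.finite_of_free _ _
  · intro i
    rw [Module.Basis.reindex_apply, hb]
    rfl

end Pool.Agent.Lib.MP_8bcb2e_ag
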