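import Pool.Agent.Lib.MP_8bcb2e_ag.Spec

set_option autoImplicit false

universe u

namespace Pool.Agent.Lib.MP_8bcb2e_ag

theorem iterate_add {K : Type u} [Field K] (T : K → K) (h : ∀ a b, T (a + b) = T a + T b) (e : ℕ)
    (a b : K) : T^[e] (a + b) = T^[e] a + T^[e] b := by
  induction e generalizing a b with
  | zero => rfl
  | succ e ih => rw [Function.iterate_succ_apply, h, ih]; rfl

theorem iterate_pow_mul {K : Type u} [Field K] (p : ℕ) (T : K → K)
    (h : ∀ a b, T (a ^ p * b) = a * T b) (e : ℕ) (a b : K) :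
    T^[e] (a ^ p ^ e * b) = a * T^[e] b := by
  induction e generalizing b with
  | zero => rw [pow_zero, pow_one]; rfl
  | succ e ih =>
    rw [Function.iterate_succ_apply, pow_succ, pow_mul, h, ih]
    rfl

theorem spread_of : Spread.{u} := by
  intro k K _ _ _ _ p _ _ n t hfin M T hadd hpow hne hM hMt hsp
  have hp : p.Prime := Fact.out
  -- `T` is surjective
  have hsurj : Function.Surjective T := by
    intro y
    obtain ⟨b, hb⟩ := hne
    refine ⟨(y / T b) ^ p * b, ?_⟩
    rw [hpow, div_mul_cancel₀ _ hb]
  have hT0 : ∀ e : ℕ, T^[e] 0 = 0 := by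
    intro e
    have h1 := iterate_add T hadd e 0 0
    rw [add_zero] at h1
    exact left_eq_add.mp h1
  -- `M` is increasing
  have hmono : Monotone M := monotone_nat_of_le_succ hM
  have hmon : ∀ (α : Fin n → ℕ) (N : ℕ) (a : K), a ∈ M N →
      (∏ i, t i ^ α i) * a ∈ M (N + ∑ i, α i) := by
    have h1 : ∀ (i : Fin n) (j N : ℕ) (a : K), a ∈ M N → t i ^ j * a ∈ M (N + j) := by
      intro i j
      induction j with
      | zero => intro N a ha; rw [pow_zero, one_mul]; exact ha
      | succ j ih =>
        intro N a ha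
        rw [pow_succ', mul_assoc]
        exact hMt _ i _ (ih N a ha)
    intro α
    have h2 : ∀ (s : Finset (Fin n)) (N : ℕ) (a : K), a ∈ M N →
        (∏ i ∈ s, t i ^ α i) * a ∈ M (N + ∑ i ∈ s, α i) := by
      intro s
      induction s using Finset.induction_on with
      | empty => intro N a ha; rw [Finset.prod_empty, one_mul]; exact ha
      | insert i s his ih =>
        intro N a ha
        rw [Finset.prod_insert his, Finset.sum_insert his, mul_assoc]
        have h3 := h1 i (α i) _ _ (ih N a ha)
        rwa [add_assoc, add_comm (∑ i ∈ s, α i)] at h3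
    exact h2 Finset.univ
  -- some `M a` spans
  obtain ⟨a, ha⟩ : ∃ a, Submodule.span (IntermediateField.adjoin k (Set.range t)) (M a) = ⊤ := by
    let b := Module.finBasis (IntermediateField.adjoin k (Set.range t)) K
    choose N hN using fun i => hsp (b i)
    refine ⟨∑ i, N i, ?_⟩
    rw [eq_top_iff, ← b.span_eq, Submodule.span_le]
    rintro _ ⟨i, rfl⟩
    exact Submodule.span_mono (hmono (Finset.single_le_sum (fun _ _ => Nat.zero_le _)
      (Finset.mem_univ i))) (hN i)
  refine ⟨a, fun e he => ?_⟩
  let W := Submodule.span (IntermediateField.adjoin k (Set.range t))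
    (T^[e] '' M (p ^ e * (n + 1)))
  have hq : a ≤ p ^ e := he.trans (Nat.lt_pow_self hp.one_lt).le
  have hq0 : 0 < p ^ e := pow_pos hp.pos e
  -- monomials of small exponents
  have hW1 : ∀ (α : Fin n → ℕ), (∀ i, α i < p ^ e) → ∀ θ ∈ M a,
      T^[e] ((∏ i, t i ^ α i) * θ) ∈ W := by
    intro α hα θ hθ
    refine Submodule.subset_span ⟨_, ?_, rfl⟩
    refine hmono ?_ (hmon α a θ hθ)
    have h1 : ∑ i, α i ≤ ∑ _i : Fin n, p ^ e := Finset.sum_le_sum fun i _ => (hα i).le
    rw [Finset.sum_const, Finset.card_univ, Fintype.card_fin, smul_eq_mul] at h1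
    nlinarith
  -- polynomials
  have hW2 : ∀ (f : MvPolynomial (Fin n) k) (c : K),
      c ∈ IntermediateField.adjoin k (Set.range t) → ∀ θ ∈ M a,
      T^[e] (c ^ p ^ e * (MvPolynomial.aeval t f * θ)) ∈ W := by
    intro f
    induction f using MvPolynomial.induction_on' with
    | monomial β u =>
      intro c hc θ hθ
      obtain ⟨u', hu'⟩ : ∃ u' : k, u' ^ p ^ e = u := by
        have h1 : Function.Surjective (iterateFrobenius k p e) :=
          (bijective_iterateFrobenius k p e).2
        obtain ⟨u', h2⟩ := h1 u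
        exact ⟨u', by rw [← h2, iterateFrobenius_def]⟩
      have h1 : c ^ p ^ e * (MvPolynomial.aeval t (MvPolynomial.monomial β u) * θ) =
          (c * (algebraMap k K u' * ∏ i, t i ^ (β i / p ^ e))) ^ p ^ e *
            ((∏ i, t i ^ (β i % p ^ e)) * θ) := by
        have h2 : (∏ i, t i ^ β i) =
            (∏ i, t i ^ (β i / p ^ e)) ^ p ^ e * ∏ i, t i ^ (β i % p ^ e) := by
          rw [← Finset.prod_pow, ← Finset.prod_mul_distrib]
          refine Finset.prod_congr rfl fun i _ => ?_
          rw [← pow_mul, ← pow_add, mul_comm (β i / p ^ e), Nat.div_add_mod]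
        rw [MvPolynomial.aeval_monomial, Finsupp.prod_fintype _ _ (fun i => pow_zero _), h2,
          ← hu', map_pow, mul_pow, mul_pow]
        ring
      rw [h1, iterate_pow_mul p T hpow]
      have h3 : c * (algebraMap k K u' * ∏ i, t i ^ (β i / p ^ e)) ∈
          IntermediateField.adjoin k (Set.range t) := by
        refine mul_mem hc (mul_mem (IntermediateField.algebraMap_mem _ _)
          (prod_mem fun i _ => pow_mem (IntermediateField.subset_adjoin _ _ (Set.mem_range_self i)) _))
      exact W.smul_mem (⟨_, h3⟩ : IntermediateField.adjoin k (Set.range t))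
        (hW1 _ (fun i => Nat.mod_lt _ hq0) θ hθ)
    | add f g hf hg =>
      intro c hc θ hθ
      rw [map_add, add_mul, mul_add, iterate_add T hadd]
      exact W.add_mem (hf c hc θ hθ) (hg c hc θ hθ)
  -- elements of the field
  have hW3 : ∀ ε : K, ε ∈ IntermediateField.adjoin k (Set.range t) → ∀ θ ∈ M a,
      T^[e] (ε * θ) ∈ W := by
    intro ε hε θ hθ
    obtain ⟨r, s, rfl⟩ := (IntermediateField.mem_adjoin_range_iff k t ε).1 hε
    by_cases hs : MvPolynomial.aeval t s = 0
    · rw [hs, div_zero, zero_mul, hT0]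
      exact W.zero_mem
    · have h1 : MvPolynomial.aeval t r / MvPolynomial.aeval t s * θ =
          ((MvPolynomial.aeval t s)⁻¹) ^ p ^ e *
            (MvPolynomial.aeval t (r * s ^ (p ^ e - 1)) * θ) := by
        obtain ⟨m, hm⟩ : ∃ m, p ^ e = m + 1 := ⟨p ^ e - 1, by omega⟩
        rw [hm, Nat.add_sub_cancel, map_mul, map_pow, inv_pow, pow_succ]
        field_simp
      rw [h1]
      refine hW2 _ _ (inv_mem ?_) θ hθ
      have h2 : ∀ f : MvPolynomial (Fin n) k, MvPolynomial.aeval t f ∈
          IntermediateField.adjoin k (Set.range t) := by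
        intro f
        have h3 := (IntermediateField.mem_adjoin_range_iff k t (MvPolynomial.aeval t f)).2
          ⟨f, 1, by rw [map_one, div_one]⟩
        exact h3
      exact h2 s
  have hW4 : ∀ y : K, ∀ ε : K, ε ∈ IntermediateField.adjoin k (Set.range t) →
      T^[e] (ε * y) ∈ W := by
    intro y
    have hy : y ∈ Submodule.span (IntermediateField.adjoin k (Set.range t)) (M a) := by
      rw [ha]
      exact Submodule.mem_top
    induction hy using Submodule.span_induction with
    | mem θ hθ => exact fun ε hε => hW3 ε hε θ hθ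
    | zero =>
      intro ε _
      rw [mul_zero, hT0]
      exact W.zero_mem
    | add y z _ _ hy hz =>
      intro ε hε
      rw [mul_add, iterate_add T hadd]
      exact W.add_mem (hy ε hε) (hz ε hε)
    | smul c y _ hy =>
      intro ε hε
      have h1 : ε * c • y = (ε * (c : K)) * y := by
        rw [Algebra.smul_def, mul_assoc]
        rfl
      rw [h1]
      exact hy _ (mul_mem hε c.2)
  rw [eq_top_iff]
  intro z _
  obtain ⟨y, rfl⟩ := (hsurj.iterate e) z
  have h1 := hW4 y 1 (one_mem _)
  rwa [one_mul] at h1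

end Pool.Agent.Lib.MP_8bcb2e_ag
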