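import Pool.Agent.Lib.MP_8bcb2e_ag.Spec

/-!
# The top coefficient of a regular element is regular
-/

set_option autoImplicit false

universe u

namespace Pool.Agent.Lib.MP_8bcb2e_ag

open KaehlerDifferential

namespace TopMemAux

variable {k K : Type u} [Field k] [Field K] [Algebra k K]

/-- iterates of a derivation on a power of a coordinate -/
theorem iterate_apply (d : Derivation k K K) (y u : K) (hy : d y = 1) (hu : d u = 0) (m a : ℕ) :
    d^[m] (u * y ^ a) = u * ((a.descFactorial m : ℕ) : K) * y ^ (a - m) := by
  induction m with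
  | zero => simp
  | succ m ih =>
    rw [Function.iterate_succ_apply', ih]
    have h1 : u * ((a.descFactorial m : ℕ) : K) * y ^ (a - m) =
        (a.descFactorial m : ℕ) • (u * y ^ (a - m)) := by
      rw [nsmul_eq_mul]; ring
    rw [h1, map_nsmul, Derivation.leibniz, hu, smul_zero, add_zero, Derivation.leibniz_pow, hy,
      Nat.descFactorial_succ]
    have h2 : a - (m + 1) = a - m - 1 := by omega
    rw [h2]
    simp only [nsmul_eq_mul, smul_eq_mul, Nat.cast_mul]
    ring

theorem der_prod_eq_zero {n : ℕ} (d : Derivation k K K) (x : Fin n → K) (s : Finset (Fin n))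
    (h : ∀ i ∈ s, d (x i) = 0) (a : Fin n → ℕ) : d (∏ i ∈ s, x i ^ a i) = 0 := by
  classical
  induction s using Finset.induction_on with
  | empty => simp
  | insert j s hj ih =>
    rw [Finset.prod_insert hj, Derivation.leibniz, Derivation.leibniz_pow,
      h j (Finset.mem_insert_self _ _), ih fun i hi => h i (Finset.mem_insert_of_mem hi)]
    simp

theorem cast_factorial (p : ℕ) [Fact p.Prime] [CharP K p] :
    (((p - 1).factorial : ℕ) : K) = -1 := by
  have h := ZMod.wilsons_lemma p
  have h2 := congrArg (ZMod.castHom (dvd_refl p) K) h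
  rw [map_natCast, map_neg, map_one] at h2
  exact h2

end TopMemAux

open TopMemAux

theorem topMem_of : TopMem.{u} := by
  intro k K _ _ _ p _ _ n O x hx hO c hc α₀ hα₀
  classical
  have hp : p.Prime := Fact.out
  have : CharP K p := charP_of_injective_algebraMap (algebraMap k K).injective p
  obtain ⟨b, hb⟩ := hx.basis
  let d : Fin n → Derivation k K K := fun j => (b.coord j).compDer (D k K)
  have hd : ∀ j a, d j a = b.coord j (D k K a) := fun _ _ => rfl
  have hdx : ∀ i j, d j (x i) = if i = j then 1 else 0 := by
    intro i j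
    rw [hd, ← hb i]
    simp [Finsupp.single_apply]
  have hdp : ∀ j (a : K), d j (a ^ p) = 0 := by
    intro j a
    rw [Derivation.leibniz_pow, ← Nat.cast_smul_eq_nsmul K, CharP.cast_eq_zero, zero_smul]
  have hdO : ∀ j, ∀ a ∈ O, d j a ∈ O := by
    intro j a ha
    obtain ⟨e, he, h⟩ := hx.gen a ha
    have : d j a = e j := by
      rw [hd, h]
      simp only [← hb, map_sum, map_smul, smul_eq_mul]
      simp [Finsupp.single_apply]
    rw [this]
    exact he j
  have hiter : ∀ j m, ∀ a ∈ O, (d j)^[m] a ∈ O := by
    intro j m
    induction m with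
    | zero => intro a ha; exact ha
    | succ m ih => intro a ha; rw [Function.iterate_succ_apply']; exact hdO j _ (ih a ha)
  have hiter_sum : ∀ j m (f : (Fin n → Fin p) → K),
      (d j)^[m] (∑ α, f α) = ∑ α, (d j)^[m] (f α) := by
    intro j m
    induction m with
    | zero => intro f; rfl
    | succ m ih =>
      intro f
      rw [Function.iterate_succ_apply', ih, map_sum]
      exact Finset.sum_congr rfl fun α _ => (Function.iterate_succ_apply' _ _ _).symm
  -- the induction
  have key : ∀ s : Finset (Fin n),
      ∑ α : Fin n → Fin p, (if ∀ i ∈ s, (α i : ℕ) + 1 = p then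
        c α ^ p * (-1) ^ s.card * ∏ i ∈ sᶜ, x i ^ (α i : ℕ) else 0) ∈ O := by
    intro s
    induction s using Finset.induction_on with
    | empty => simpa using hc
    | insert j s hj ih =>
      have h1 := hiter j (p - 1) _ ih
      rw [hiter_sum] at h1
      have h2 : ∀ α : Fin n → Fin p, (d j)^[p - 1] (if ∀ i ∈ s, (α i : ℕ) + 1 = p then
          c α ^ p * (-1) ^ s.card * ∏ i ∈ sᶜ, x i ^ (α i : ℕ) else 0) =
          (if ∀ i ∈ insert j s, (α i : ℕ) + 1 = p then
            c α ^ p * (-1) ^ (insert j s).card * ∏ i ∈ (insert j s)ᶜ, x i ^ (α i : ℕ) else 0) := by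
        intro α
        have hzero : (d j)^[p - 1] 0 = 0 := by simp
        by_cases hs : ∀ i ∈ s, (α i : ℕ) + 1 = p
        · rw [if_pos hs]
          have hj' : j ∈ sᶜ := by simpa using hj
          have hcompl : (insert j s)ᶜ = sᶜ.erase j := by
            ext i; simp
          have e1 : c α ^ p * (-1) ^ s.card * ∏ i ∈ sᶜ, x i ^ (α i : ℕ) =
              (c α ^ p * (-1) ^ s.card * ∏ i ∈ (insert j s)ᶜ, x i ^ (α i : ℕ)) *
                x j ^ (α j : ℕ) := by
            rw [← Finset.mul_prod_erase sᶜ _ hj', hcompl]; ring
          have hu : d j (c α ^ p * (-1) ^ s.card * ∏ i ∈ (insert j s)ᶜ, x i ^ (α i : ℕ)) = 0 := by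
            rw [Derivation.leibniz, Derivation.leibniz, hdp,
              der_prod_eq_zero (d j) x _ (fun i hi => by
                rw [hdx, if_neg]; rintro rfl; simp at hi) (fun i => (α i : ℕ)),
              Derivation.leibniz_pow]
            have : d j (-1) = 0 := by
              rw [map_neg, Derivation.map_one_eq_zero, neg_zero]
            rw [this]
            simp
          rw [e1, iterate_apply (d j) (x j) _ (by rw [hdx]; simp) hu]
          by_cases hα : (α j : ℕ) + 1 = p
          · have e2 : (α j : ℕ) = p - 1 := by omega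
            have hall : ∀ i ∈ insert j s, (α i : ℕ) + 1 = p := by
              intro i hi
              rcases Finset.mem_insert.1 hi with rfl | hi
              · exact hα
              · exact hs i hi
            rw [if_pos hall, e2, Nat.descFactorial_self, cast_factorial, Nat.sub_self, pow_zero,
              mul_one, Finset.card_insert_of_notMem hj, pow_succ]
            ring
          · have hall : ¬ ∀ i ∈ insert j s, (α i : ℕ) + 1 = p :=
              fun h => hα (h j (Finset.mem_insert_self _ _))
            have hlt : (α j : ℕ) < p - 1 := by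
              have := (α j).2
              omega
            rw [if_neg hall, Nat.descFactorial_eq_zero_iff_lt.2 hlt]
            simp
        · have hall : ¬ ∀ i ∈ insert j s, (α i : ℕ) + 1 = p :=
            fun h => hs fun i hi => h i (Finset.mem_insert_of_mem hi)
          rw [if_neg hs, if_neg hall, hzero]
      rw [Finset.sum_congr rfl fun α _ => h2 α] at h1
      exact h1
  have h1 := key Finset.univ
  have h2 : ∑ α : Fin n → Fin p, (if ∀ i ∈ (Finset.univ : Finset (Fin n)), (α i : ℕ) + 1 = p then
        c α ^ p * (-1) ^ (Finset.univ : Finset (Fin n)).card *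
          ∏ i ∈ (Finset.univ : Finset (Fin n))ᶜ, x i ^ (α i : ℕ) else 0) =
      c α₀ ^ p * (-1) ^ n := by
    rw [Finset.sum_eq_single α₀]
    · rw [if_pos fun i _ => hα₀ i]; simp
    · intro α _ hα
      rw [if_neg]
      intro h
      apply hα
      funext i
      apply Fin.ext
      have := h i (Finset.mem_univ i)
      have := hα₀ i
      omega
    · intro h; exact absurd (Finset.mem_univ _) h
  rw [h2] at h1
  have h3 : c α₀ ^ p ∈ O := by
    have h4 : c α₀ ^ p = c α₀ ^ p * (-1) ^ n * (-1) ^ n := by
      rw [mul_assoc, ← mul_pow]; simp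
    rw [h4]
    exact mul_mem h1 (pow_mem (neg_mem (one_mem O)) n)
  refine hO _ (IsIntegral.of_pow hp.pos ?_)
  exact isIntegral_algebraMap (R := O) (x := ⟨_, h3⟩)

end Pool.Agent.Lib.MP_8bcb2e_ag
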