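import Pool.Agent.Lib.MP_8bcb2e_ag.Spec

/-!
# Values of the Frobenius trace on monomial forms
-/

set_option autoImplicit false

universe u

namespace Pool.Agent.Lib.MP_8bcb2e_ag

open KaehlerDifferential

namespace TraceMonomialAux

variable {k K : Type u} [Field k] [Field K] [Algebra k K] {n : ℕ}

theorem D_prod_mem (x : Fin n → K) (a : Fin n → ℕ) (s : Finset (Fin n)) :
    D k K (∏ i ∈ s, x i ^ a i) ∈ Submodule.span K ((fun i => D k K (x i)) '' (s : Set (Fin n))) := by
  classical
  induction s using Finset.induction_on with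
  | empty => simp
  | insert j s hj ih =>
    rw [Finset.prod_insert hj, Derivation.leibniz, Derivation.leibniz_pow]
    refine Submodule.add_mem _ (Submodule.smul_mem _ _ ?_) (Submodule.smul_mem _ _ ?_)
    · exact Submodule.span_mono (Set.image_mono (by simp)) ih
    · refine Submodule.smul_of_tower_mem _ _ (Submodule.smul_mem _ _ (Submodule.subset_span ?_))
      exact ⟨j, by simp, rfl⟩

theorem psi_update_of_mem (Ψ : Ω[K⁄k] [⋀^Fin n]→ₗ[K] K) (v : Fin n → Ω[K⁄k]) (j : Fin n)
    (θ : Ω[K⁄k]) (h : θ ∈ Submodule.span K (v '' {i | i ≠ j})) :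
    Ψ (Function.update v j θ) = 0 := by
  induction h using Submodule.span_induction with
  | mem y hy =>
    obtain ⟨i, hi, rfl⟩ := hy
    exact Ψ.map_update_self v (Ne.symm hi)
  | zero => simp
  | add y y' _ _ h h' => rw [Ψ.map_update_add, h, h', add_zero]
  | smul r y _ h => rw [Ψ.map_update_smul, h, smul_zero]

end TraceMonomialAux

open TraceMonomialAux

theorem traceMonomial_of : TraceMonomial.{u} := by
  intro k K _ _ _ p _ _ n Ψ T hT x α
  constructor
  · intro h
    have h1 : ∏ i, x i ^ (α i : ℕ) = (∏ i, x i) ^ (p - 1) := by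
      rw [← Finset.prod_pow]
      refine Finset.prod_congr rfl fun i _ => ?_
      congr 1
      have := h i
      omega
    rw [h1]
    exact hT.map_log x
  · rintro ⟨j, hj⟩
    -- the constant `(α j + 1)⁻¹`
    have hp : p.Prime := Fact.out
    have hne : (((α j : ℕ) + 1 : ℕ) : k) ≠ 0 := by
      rw [Ne, CharP.cast_eq_zero_iff k p]
      intro hd
      have := Nat.le_of_dvd (by omega) hd
      have := (α j).2
      omega
    set c : k := (((α j : ℕ) + 1 : ℕ) : k)⁻¹ with hc
    have key : (∏ i, x i ^ (α i : ℕ)) * Ψ (fun i => D k K (x i)) =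
        Ψ (fun i => D k K (Function.update x j (c • (x j * ∏ i, x i ^ (α i : ℕ))) i)) := by
      have e1 : (fun i => D k K (Function.update x j (c • (x j * ∏ i, x i ^ (α i : ℕ))) i)) =
          Function.update (fun i => D k K (x i)) j
            (D k K (c • (x j * ∏ i, x i ^ (α i : ℕ)))) := by
        funext i
        by_cases hi : i = j
        · subst hi; simp
        · simp [hi]
      have e2 : x j * ∏ i, x i ^ (α i : ℕ) =
          x j ^ ((α j : ℕ) + 1) * ∏ i ∈ Finset.univ.erase j, x i ^ (α i : ℕ) := by
        rw [← Finset.mul_prod_erase Finset.univ _ (Finset.mem_univ j), pow_succ]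
        ring
      have e3 : D k K (c • (x j * ∏ i, x i ^ (α i : ℕ))) =
          (∏ i, x i ^ (α i : ℕ)) • D k K (x j) +
          (algebraMap k K c * x j ^ ((α j : ℕ) + 1)) •
            D k K (∏ i ∈ Finset.univ.erase j, x i ^ (α i : ℕ)) := by
        rw [Derivation.map_smul, e2, Derivation.leibniz, Derivation.leibniz_pow, smul_add, add_comm,
          ← Finset.mul_prod_erase Finset.univ _ (Finset.mem_univ j)]
        congr 1
        · rw [← algebraMap_smul K c, ← Nat.cast_smul_eq_nsmul K, smul_smul, smul_smul, smul_smul]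
          congr 1
          have : (algebraMap k K c) * (((α j : ℕ) + 1 : ℕ) : K) = 1 := by
            rw [← map_natCast (algebraMap k K), ← map_mul, hc, inv_mul_cancel₀ hne, map_one]
          simp only [Nat.add_sub_cancel]
          linear_combination
            (∏ i ∈ Finset.univ.erase j, x i ^ (α i : ℕ)) * x j ^ (α j : ℕ) * this
        · rw [← algebraMap_smul K c, smul_smul]
      rw [e1, e3, Ψ.map_update_add, Ψ.map_update_smul, Ψ.map_update_smul,
        psi_update_of_mem Ψ _ j _ (Submodule.span_mono (Set.image_mono (by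
          intro i hi; simpa using hi)) (D_prod_mem x (fun i => (α i : ℕ)) (Finset.univ.erase j))),
        smul_zero, add_zero, smul_eq_mul, Function.update_eq_self]
    rw [key]
    exact hT.map_exact _

end Pool.Agent.Lib.MP_8bcb2e_ag
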