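import Pool.Agent.Lib.MP_8bcb2e_ag.Spec

/-!
# Functions with bounded poles in two charts
-/

set_option autoImplicit false

universe u

namespace Pool.Agent.Lib.MP_8bcb2e_ag

open IntermediateField.algebraAdjoinAdjoin

section

variable {k K : Type u} [Field k] [Field K] [Algebra k K]

theorem isIntegrallyClosed_adjoin {m : ℕ} {t : Fin m → K} (ht : AlgebraicIndependent k t) :
    IsIntegrallyClosed (Algebra.adjoin k (Set.range t)) :=
  IsIntegrallyClosed.of_equiv ht.aevalEquiv.toRingEquiv

theorem trace_mem_adjoin {m : ℕ} {t : Fin m → K} (ht : AlgebraicIndependent k t)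
    (hfin : FiniteDimensional (IntermediateField.adjoin k (Set.range t)) K) {x : K}
    (hx : IsIntegral (Algebra.adjoin k (Set.range t)) x) :
    ((Algebra.trace (IntermediateField.adjoin k (Set.range t)) K x :
      IntermediateField.adjoin k (Set.range t)) : K) ∈ Algebra.adjoin k (Set.range t) := by
  have hic := isIntegrallyClosed_adjoin ht
  have h1 : IsIntegral (Algebra.adjoin k (Set.range t))
      (Algebra.trace (IntermediateField.adjoin k (Set.range t)) K x) :=
    Algebra.isIntegral_trace hx
  obtain ⟨y, hy⟩ := IsIntegrallyClosed.isIntegral_iff.mp h1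
  rw [← hy]
  exact y.2

theorem trace_congr {E E' : IntermediateField k K} (h : E = E') (x : K) :
    ((Algebra.trace E K x : E) : K) = ((Algebra.trace E' K x : E') : K) := by
  subst h
  rfl

variable {n : ℕ} {t : Fin (n + 1) → K}

theorem inftyChart_zero : inftyChart t 0 = (t 0)⁻¹ := rfl

theorem inftyChart_succ (i : Fin n) : inftyChart t i.succ = t i.succ / t 0 := rfl

theorem adjoin_inftyChart (h0 : t 0 ≠ 0) :
    IntermediateField.adjoin k (Set.range (inftyChart t)) =
      IntermediateField.adjoin k (Set.range t) := by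
  apply le_antisymm
  · rw [IntermediateField.adjoin_le_iff]
    rintro _ ⟨i, rfl⟩
    have h1 : ∀ i, t i ∈ IntermediateField.adjoin k (Set.range t) := fun i =>
      IntermediateField.subset_adjoin k _ ⟨i, rfl⟩
    refine Fin.cases ?_ (fun i => ?_) i
    · exact inv_mem (h1 0)
    · exact div_mem (h1 _) (h1 0)
  · rw [IntermediateField.adjoin_le_iff]
    have h1 : ∀ i, inftyChart t i ∈ IntermediateField.adjoin k (Set.range (inftyChart t)) :=
      fun i => IntermediateField.subset_adjoin k _ ⟨i, rfl⟩
    have h2 : t 0 ∈ IntermediateField.adjoin k (Set.range (inftyChart t)) := by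
      have := inv_mem (h1 0)
      rwa [inftyChart_zero, inv_inv] at this
    rintro _ ⟨i, rfl⟩
    refine Fin.cases h2 (fun i => ?_) i
    have h3 := mul_mem (h1 i.succ) h2
    rwa [inftyChart_succ, div_mul_cancel₀ _ h0] at h3

theorem isAlgebraic_inftyChart (ht : SepBasis k t) :
    Algebra.IsAlgebraic (Algebra.adjoin k (Set.range (inftyChart t))) K := by
  have h0 : t 0 ≠ 0 := ht.algInd.ne_zero 0
  have h1 : Algebra.IsAlgebraic (IntermediateField.adjoin k (Set.range (inftyChart t))) K := by
    rw [adjoin_inftyChart h0]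
    have := ht.fin
    infer_instance
  exact Algebra.IsAlgebraic.trans _ (IntermediateField.adjoin k (Set.range (inftyChart t))) _

theorem isAlgebraic_adjoin (ht : SepBasis k t) :
    Algebra.IsAlgebraic (Algebra.adjoin k (Set.range t)) K := by
  have := ht.fin
  have h1 : Algebra.IsAlgebraic (IntermediateField.adjoin k (Set.range t)) K := inferInstance
  exact Algebra.IsAlgebraic.trans _ (IntermediateField.adjoin k (Set.range t)) _

theorem algInd_inftyChart (ht : SepBasis k t) : AlgebraicIndependent k (inftyChart t) := by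
  have h1 := isAlgebraic_inftyChart ht
  have h2 := isAlgebraic_adjoin ht
  have h3 : IsTranscendenceBasis k t :=
    (ht.algInd.isTranscendenceBasis_iff_isAlgebraic).mpr h2
  have h4 := h3.lift_cardinalMk_eq_trdeg
  exact (Algebra.IsAlgebraic.isTranscendenceBasis_of_lift_le_trdeg_of_finite k (inftyChart t)
    h4.le).1

/-- Elements of the coordinate ring of the chart at infinity are quotients of polynomials by a power
of `t 0`. -/
theorem exists_homog (h0 : t 0 ≠ 0) {a : K}
    (ha : a ∈ Algebra.adjoin k (Set.range (inftyChart t))) :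
    ∃ (N : ℕ) (q : MvPolynomial (Fin (n + 1)) k), q.totalDegree ≤ N ∧
      a * t 0 ^ N = MvPolynomial.aeval t q := by
  induction ha using Algebra.adjoin_induction with
  | mem x hx =>
    obtain ⟨i, rfl⟩ := hx
    refine Fin.cases ?_ (fun i => ?_) i
    · refine ⟨1, 1, by simp, ?_⟩
      rw [inftyChart_zero, pow_one, inv_mul_cancel₀ h0, map_one]
    · refine ⟨1, MvPolynomial.X i.succ, by rw [MvPolynomial.totalDegree_X], ?_⟩
      rw [inftyChart_succ, pow_one, div_mul_cancel₀ _ h0, MvPolynomial.aeval_X]
  | algebraMap r =>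
    refine ⟨0, MvPolynomial.C r, by rw [MvPolynomial.totalDegree_C], ?_⟩
    rw [pow_zero, mul_one, MvPolynomial.aeval_C]
  | add x y _ _ hx hy =>
    obtain ⟨N, q, h1, h2⟩ := hx
    obtain ⟨M, r, h3, h4⟩ := hy
    refine ⟨N + M, q * MvPolynomial.X 0 ^ M + r * MvPolynomial.X 0 ^ N, ?_, ?_⟩
    · refine (MvPolynomial.totalDegree_add _ _).trans (max_le ?_ ?_)
      · refine (MvPolynomial.totalDegree_mul _ _).trans ?_
        rw [MvPolynomial.totalDegree_X_pow]
        omega
      · refine (MvPolynomial.totalDegree_mul _ _).trans ?_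
        rw [MvPolynomial.totalDegree_X_pow]
        omega
    · rw [map_add, map_mul, map_mul, map_pow, map_pow, MvPolynomial.aeval_X, ← h2, ← h4]
      ring
  | mul x y _ _ hx hy =>
    obtain ⟨N, q, h1, h2⟩ := hx
    obtain ⟨M, r, h3, h4⟩ := hy
    refine ⟨N + M, q * r, ?_, ?_⟩
    · refine (MvPolynomial.totalDegree_mul _ _).trans ?_
      omega
    · rw [map_mul, ← h2, ← h4]
      ring

theorem exists_bound (ht : SepBasis k t) {g : K}
    (hg : g ∈ Algebra.adjoin k (Set.range (inftyChart t))) (hg0 : g ≠ 0) :
    ∃ N₀ : ℕ, ∀ G : MvPolynomial (Fin (n + 1)) k,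
      g * MvPolynomial.aeval t G ∈ Algebra.adjoin k (Set.range (inftyChart t)) →
        G.totalDegree ≤ N₀ := by
  have h0 : t 0 ≠ 0 := ht.algInd.ne_zero 0
  obtain ⟨N₀, γ, h1, h2⟩ := exists_homog h0 hg
  have hγ : γ ≠ 0 := by
    rintro rfl
    rw [map_zero] at h2
    exact mul_ne_zero hg0 (pow_ne_zero _ h0) h2
  refine ⟨N₀, fun G hG => ?_⟩
  rcases eq_or_ne G 0 with rfl | hG0
  · rw [MvPolynomial.totalDegree_zero]
    exact Nat.zero_le _
  obtain ⟨N, α, h3, h4⟩ := exists_homog h0 hG
  have h5 : MvPolynomial.X 0 ^ N * (γ * G) = α * MvPolynomial.X 0 ^ N₀ := by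
    have hinj : Function.Injective (MvPolynomial.aeval t : MvPolynomial (Fin (n + 1)) k →ₐ[k] K) :=
      ht.algInd
    apply hinj
    rw [map_mul, map_mul, map_mul, map_pow, map_pow, MvPolynomial.aeval_X, ← h2, ← h4]
    ring
  have hX : ∀ M : ℕ, (MvPolynomial.X 0 : MvPolynomial (Fin (n + 1)) k) ^ M ≠ 0 := fun M =>
    pow_ne_zero _ (MvPolynomial.X_ne_zero 0)
  have h6 := congrArg MvPolynomial.totalDegree h5
  rw [MvPolynomial.totalDegree_mul_of_isDomain (hX N) (mul_ne_zero hγ hG0),
    MvPolynomial.totalDegree_mul_of_isDomain hγ hG0, MvPolynomial.totalDegree_X_pow] at h6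
  have h7 := MvPolynomial.totalDegree_mul α (MvPolynomial.X 0 ^ N₀)
  rw [MvPolynomial.totalDegree_X_pow] at h7
  omega

end

theorem twoCharts_of : TwoCharts.{u} := by
  classical
  intro k K _ _ _ n t ht c c' hc hc'
  have h0 : t 0 ≠ 0 := ht.algInd.ne_zero 0
  have hfin := ht.fin
  have hsep := ht.sep
  have hEE := adjoin_inftyChart (k := k) h0
  have hfin' : FiniteDimensional (IntermediateField.adjoin k (Set.range (inftyChart t))) K := by
    rw [hEE]
    exact hfin
  have halg := isAlgebraic_adjoin ht
  have halg' := isAlgebraic_inftyChart ht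
  let v := Module.finBasis (IntermediateField.adjoin k (Set.range t)) K
  obtain ⟨y, hy0, hy⟩ := Algebra.IsAlgebraic.exists_integral_multiples
    (Algebra.adjoin k (Set.range t)) (Finset.univ.image v)
  have hy' : ∀ j, IsIntegral (Algebra.adjoin k (Set.range t)) ((y : K) * v j) := by
    intro j
    exact hy (v j) (Finset.mem_image_of_mem _ (Finset.mem_univ j))
  have hyK : (y : K) ≠ 0 := fun h => hy0 (Subtype.ext h)
  obtain ⟨g, hg0, hg⟩ := Algebra.IsAlgebraic.exists_integral_multiples
    (Algebra.adjoin k (Set.range (inftyChart t)))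
    (Finset.univ.image (fun j => c * c'⁻¹ * ((y : K) * v j)))
  have hg' : ∀ j, IsIntegral (Algebra.adjoin k (Set.range (inftyChart t)))
      ((g : K) * (c * c'⁻¹ * ((y : K) * v j))) := by
    intro j
    exact hg _ (Finset.mem_image_of_mem _ (Finset.mem_univ j))
  have hgK : (g : K) ≠ 0 := fun h => hg0 (Subtype.ext h)
  obtain ⟨N₀, hN₀⟩ := exists_bound ht g.2 hgK
  -- the linear map
  let d := Module.finrank (IntermediateField.adjoin k (Set.range t)) K
  let Φ : K →ₗ[k] (Fin d → K) := LinearMap.pi fun j =>
    ((IntermediateField.adjoin k (Set.range t)).val.toLinearMap ∘ₗ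
      ((Algebra.trace (IntermediateField.adjoin k (Set.range t)) K).restrictScalars k)) ∘ₗ
        (LinearMap.mulRight k (c * ((y : K) * v j)))
  have hΦ : ∀ F j, Φ F j = ((Algebra.trace (IntermediateField.adjoin k (Set.range t)) K
      (F * (c * ((y : K) * v j))) : IntermediateField.adjoin k (Set.range t)) : K) :=
    fun F j => rfl
  have hinj : Function.Injective Φ := by
    rw [← LinearMap.ker_eq_bot, LinearMap.ker_eq_bot']
    intro F hF
    have h1 : F * c * (y : K) = 0 := by
      have hnd := (traceForm_nondegenerate (IntermediateField.adjoin k (Set.range t)) K).1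
      apply hnd
      intro z
      have h2 : ∀ j, Algebra.traceForm (IntermediateField.adjoin k (Set.range t)) K
          (F * c * (y : K)) (v j) = 0 := by
        intro j
        rw [Algebra.traceForm_apply]
        have h3 := congrFun hF j
        rw [hΦ] at h3
        have h4 : F * c * (y : K) * v j = F * (c * ((y : K) * v j)) := by ring
        rw [h4]
        exact Subtype.ext h3
      have h5 : Algebra.traceForm (IntermediateField.adjoin k (Set.range t)) K
          (F * c * (y : K)) = 0 := v.ext h2
      rw [h5]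
      rfl
    rcases mul_eq_zero.mp h1 with h2 | h2
    · rcases mul_eq_zero.mp h2 with h3 | h3
      · exact h3
      · exact absurd h3 hc
    · exact absurd h2 hyK
  let Q : (Fin d → MvPolynomial.restrictTotalDegree (Fin (n + 1)) k N₀) →ₗ[k] (Fin d → K) :=
    LinearMap.pi fun j => ((MvPolynomial.aeval t).toLinearMap ∘ₗ
      (MvPolynomial.restrictTotalDegree (Fin (n + 1)) k N₀).subtype) ∘ₗ LinearMap.proj j
  refine ⟨(LinearMap.range Q).comap Φ, ?_, ?_⟩
  · let ψ : ((LinearMap.range Q).comap Φ) →ₗ[k] LinearMap.range Q :=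
      Φ.restrict (fun x hx => hx)
    apply FiniteDimensional.of_injective ψ
    intro a b hab
    apply Subtype.ext
    apply hinj
    exact congrArg Subtype.val hab
  · intro F hF hF'
    have key : ∀ j, ∃ q : MvPolynomial.restrictTotalDegree (Fin (n + 1)) k N₀,
        Φ F j = MvPolynomial.aeval t (q : MvPolynomial (Fin (n + 1)) k) := by
      intro j
      have h1 : Φ F j ∈ Algebra.adjoin k (Set.range t) := by
        rw [hΦ]
        apply trace_mem_adjoin ht.algInd hfin
        have : F * (c * ((y : K) * v j)) = c * F * ((y : K) * v j) := by ring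
        rw [this]
        exact hF.mul (hy' j)
      rw [Algebra.adjoin_range_eq_range_aeval] at h1
      obtain ⟨q, hq⟩ := h1
      have hq' : MvPolynomial.aeval t q = Φ F j := hq
      refine ⟨⟨q, ?_⟩, hq'.symm⟩
      rw [MvPolynomial.mem_restrictTotalDegree]
      apply hN₀
      rw [hq', hΦ, trace_congr hEE.symm]
      have h2 := trace_mem_adjoin (algInd_inftyChart ht) hfin'
        (x := (g : K) * (c * c'⁻¹ * ((y : K) * v j)) * (c' * F)) ((hg' j).mul hF')
      have h3 : (g : K) * (c * c'⁻¹ * ((y : K) * v j)) * (c' * F) =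
          (algebraMap (Algebra.adjoin k (Set.range (inftyChart t)))
            (IntermediateField.adjoin k (Set.range (inftyChart t))) g) •
            (F * (c * ((y : K) * v j))) := by
        rw [Algebra.smul_def]
        change _ = (g : K) * _
        field_simp
      rw [h3, map_smul] at h2
      exact h2
    choose q hq using key
    refine ⟨q, ?_⟩
    funext j
    exact (hq j).symm

end Pool.Agent.Lib.MP_8bcb2e_ag
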