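import Pool.Agent.Lib.MP_8bcb2e_ag.Spec

set_option autoImplicit false

universe u

namespace Pool.Agent.Lib.MP_8bcb2e_ag

open KaehlerDifferential

theorem det_mem_of_mem' {K : Type u} [Field K] {ι : Type*} [Fintype ι] [DecidableEq ι]
    (O : Subring K) (M : Matrix ι ι K) (h : ∀ i j, M i j ∈ O) : M.det ∈ O := by
  rw [Matrix.det_apply]
  refine sum_mem fun σ _ => ?_
  rw [Units.smul_def, zsmul_eq_mul]
  exact mul_mem (intCast_mem O _) (prod_mem fun i _ => h _ _)

/-- `g ^ (n + 1) det ((g c_ij - g_i c_j) / g ^ 2)` is a determinant of size `n + 1`. -/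
theorem wronskian_mem {K : Type u} [Field K] {n : ℕ} (O : Subring K) (g : K) (hg : g ≠ 0)
    (hgO : g ∈ O) (a : Fin n → K) (ha : ∀ i, a i ∈ O) (c : Fin n → K) (hc : ∀ i, c i ∈ O)
    (d : Fin n → Fin n → K) (hd : ∀ i j, d i j ∈ O) :
    g ^ (n + 1) * (Matrix.of fun i j => (g ^ 2)⁻¹ * (g * d i j - a i * c j)).det ∈ O := by
  have h1 : (Matrix.fromBlocks (Matrix.of fun _ _ : Unit => g) (Matrix.of fun (_ : Unit) j => c j)
      (Matrix.of fun i (_ : Unit) => a i) (Matrix.of d)).det =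
      g ^ (n + 1) * (Matrix.of fun i j => (g ^ 2)⁻¹ * (g * d i j - a i * c j)).det := by
    let _ : Invertible (Matrix.of fun _ _ : Unit => g) :=
      ⟨Matrix.of fun _ _ : Unit => g⁻¹, by ext; simp [Matrix.mul_apply, hg], by
        ext; simp [Matrix.mul_apply, hg]⟩
    have h2 : Matrix.of d - (Matrix.of fun i (_ : Unit) => a i) * ⅟(Matrix.of fun _ _ : Unit => g) *
        (Matrix.of fun (_ : Unit) j => c j) =
        g • (Matrix.of fun i j => (g ^ 2)⁻¹ * (g * d i j - a i * c j)) := by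
      ext i j
      change d i j - ((Matrix.of fun i (_ : Unit) => a i) * (Matrix.of fun _ _ : Unit => g⁻¹) *
        (Matrix.of fun (_ : Unit) j => c j)) i j = g * ((g ^ 2)⁻¹ * (g * d i j - a i * c j))
      simp only [Matrix.mul_apply, Finset.univ_unique, Finset.sum_singleton, Matrix.of_apply]
      field_simp
    rw [Matrix.det_fromBlocks₁₁, h2, Matrix.det_smul, Matrix.det_unique, Fintype.card_fin,
      Matrix.of_apply]
    ring
  rw [← h1]
  apply det_mem_of_mem'
  rintro (i | i) (j | j)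
  · exact hgO
  · exact hc j
  · exact ha i
  · exact hd i j

theorem wSection_of : WSection.{u} := by
  intro k K _ _ _ n Ψ 𝒪 hΨ h𝒪 s y₀ y hy0 hy hyi O hO
  obtain ⟨x, hx⟩ := h𝒪.coord O hO
  have hJ : (Ψ fun i => D k K (x i)) ≠ 0 := psi_ne_zero Ψ hx.basis hΨ
  set J : K := Ψ fun i => D k K (x i) with hJd
  obtain ⟨g, hg, hgy⟩ := (regularAt_iff Ψ hx s y₀).1 (hy O hO)
  choose a ha hay using fun i => (regularAt_iff Ψ hx s (y i)).1 (hyi i O hO)
  obtain ⟨c, hc, hcg⟩ := hx.gen g hg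
  choose d hd hdg using fun i => hx.gen (a i) (ha i)
  rw [← hJd] at hgy hay
  have hg0 : g ≠ 0 := by
    rintro rfl
    exact hy0 (by rw [hgy, zero_mul])
  have h1 : ∀ i, y i / y₀ = a i / g := by
    intro i
    rw [hay i, hgy, mul_div_mul_right _ _ (pow_ne_zero s hJ)]
  have h2 : ∀ i, D k K (y i / y₀) =
      ∑ j, ((g ^ 2)⁻¹ * (g * d i j - a i * c j)) • D k K (x j) := by
    intro i
    rw [h1, Derivation.leibniz_div, hdg, hcg, Finset.smul_sum, Finset.smul_sum,
      ← Finset.sum_sub_distrib, Finset.smul_sum]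
    refine Finset.sum_congr rfl fun j _ => ?_
    rw [smul_smul, smul_smul, ← sub_smul, smul_smul, inv_pow]
  rw [regularAt_iff Ψ hx]
  refine ⟨_, wronskian_mem O g hg0 hg a ha c hc d hd, ?_⟩
  rw [psi_eq_det Ψ hx.basis _ (fun i j => (g ^ 2)⁻¹ * (g * d i j - a i * c j)) h2, ← hJd, hgy]
  ring

end Pool.Agent.Lib.MP_8bcb2e_ag
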