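import Pool.Agent.Lib.MP_8bcb2e_ag.Spec

/-!
# The trace of the Frobenius on global sections
-/

set_option autoImplicit false

universe u

namespace Pool.Agent.Lib.MP_8bcb2e_ag

open KaehlerDifferential

section trace

variable {k K : Type u} [Field k] [Field K] [Algebra k K] {n : ℕ}
  {Ψ : Ω[K⁄k] [⋀^Fin n]→ₗ[K] K} {p : ℕ} {T : K → K}

theorem IsFrobTrace.map_zero (hT : IsFrobTrace k Ψ p T) : T 0 = 0 := by
  have := hT.map_add 0 0
  rw [add_zero] at this
  exact left_eq_add.mp this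

theorem IsFrobTrace.map_sum (hT : IsFrobTrace k Ψ p T) {ι : Type*} (s : Finset ι) (f : ι → K) :
    T (∑ i ∈ s, f i) = ∑ i ∈ s, T (f i) :=
  _root_.map_sum (⟨⟨T, hT.map_zero⟩, hT.map_add⟩ : K →+ K) f s

theorem IsFrobTrace.iter_add (hT : IsFrobTrace k Ψ p T) (e : ℕ) (a b : K) :
    T^[e] (a + b) = T^[e] a + T^[e] b := by
  induction e generalizing a b with
  | zero => rfl
  | succ e ih => rw [Function.iterate_succ_apply, Function.iterate_succ_apply,
      Function.iterate_succ_apply, hT.map_add, ih]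

theorem IsFrobTrace.iter_mul (hT : IsFrobTrace k Ψ p T) (e : ℕ) (a b : K) :
    T^[e] (a ^ p ^ e * b) = a * T^[e] b := by
  induction e generalizing a b with
  | zero => simp
  | succ e ih => rw [Function.iterate_succ_apply, Function.iterate_succ_apply, pow_succ, pow_mul,
      hT.map_pow_mul, ih]

theorem IsFrobTrace.iter_zero (hT : IsFrobTrace k Ψ p T) (e : ℕ) : T^[e] 0 = 0 := by
  induction e with
  | zero => rfl
  | succ e ih => rw [Function.iterate_succ_apply, hT.map_zero, ih]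

theorem trace_sections (hPB : PBasis.{u}) (hTM : TraceMonomial.{u}) (hTop : TopMem.{u})
    [PerfectField k] [Fact p.Prime] [CharP k p] [Algebra.EssFiniteType k K]
    (hT : IsFrobTrace k Ψ p T) {𝒪 : Set (Subring K)} (h𝒪 : IsSmoothModel k n 𝒪) {s : ℕ} {F : K}
    (hF : F ∈ sections k Ψ 𝒪 (1 + p * s)) : T F ∈ sections k Ψ 𝒪 (1 + s) := by
  intro O hO
  obtain ⟨x, hx⟩ := h𝒪.coord O hO
  obtain ⟨G, hG, hFG⟩ := (regularAt_iff Ψ hx _ F).1 (hF O hO)
  obtain ⟨c, hc⟩ := hPB k K p n x hx.basis G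
  set J := Ψ fun i => D k K (x i) with hJ
  have hp : 0 < p := (Fact.out : p.Prime).pos
  let top : Fin n → Fin p := fun _ => ⟨p - 1, by omega⟩
  have htop : ∀ i, (top i : ℕ) + 1 = p := fun i => by simp [top]; omega
  have hTc := hTop k K p n O x hx (h𝒪.normal O hO) c (by rw [← hc]; exact hG) top htop
  refine (regularAt_iff Ψ hx _ _).2 ⟨c top, hTc, ?_⟩
  have h1 : F = (J ^ s) ^ p * ∑ α, c α ^ p * ((∏ i, x i ^ (α i : ℕ)) * J) := by
    rw [hFG, hc, Finset.sum_mul, Finset.mul_sum]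
    refine Finset.sum_congr rfl fun α _ => ?_
    rw [pow_add, pow_one, mul_comm p s, pow_mul]
    ring
  rw [h1, hT.map_pow_mul, hT.map_sum, Finset.sum_eq_single top]
  · rw [hT.map_pow_mul, (hTM k K p n Ψ T hT x top).1 htop]
    rw [← hJ]
    ring
  · intro α _ hα
    rw [hT.map_pow_mul, (hTM k K p n Ψ T hT x α).2, mul_zero]
    by_contra! hcon
    apply hα
    ext i
    have := hcon i
    simp [top]
    omega
  · intro h
    exact absurd (Finset.mem_univ _) h

theorem trace_iter_sections (hPB : PBasis.{u}) (hTM : TraceMonomial.{u}) (hTop : TopMem.{u})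
    [PerfectField k] [Fact p.Prime] [CharP k p] [Algebra.EssFiniteType k K]
    (hT : IsFrobTrace k Ψ p T) {𝒪 : Set (Subring K)} (h𝒪 : IsSmoothModel k n 𝒪) (e : ℕ) {s : ℕ}
    {F : K} (hF : F ∈ sections k Ψ 𝒪 (1 + p ^ e * s)) : T^[e] F ∈ sections k Ψ 𝒪 (1 + s) := by
  induction e generalizing F with
  | zero => simpa using hF
  | succ e ih =>
    rw [Function.iterate_succ_apply]
    apply ih
    apply trace_sections hPB hTM hTop hT h𝒪
    rwa [← mul_assoc, ← pow_succ']

end trace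

end Pool.Agent.Lib.MP_8bcb2e_ag
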