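import Pool.Agent.Lib.MP_8bcb2e_ag.Spec

/-!
# The spaces of pluricanonical forms are finite dimensional
-/

set_option autoImplicit false

universe u

namespace Pool.Agent.Lib.MP_8bcb2e_ag

open KaehlerDifferential

theorem exists_diffBasis {k K : Type u} [Field k] [Field K] [Algebra k K] {n : ℕ}
    {𝒪 : Set (Subring K)} (h𝒪 : IsSmoothModel k n 𝒪) : ∃ x : Fin n → K, IsDiffBasis k x := by
  obtain ⟨O, hO, -⟩ := h𝒪.complete ⊤ (fun c => ValuationSubring.mem_top _)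
  obtain ⟨x, hx⟩ := h𝒪.coord O hO
  exact ⟨x, hx.basis⟩

theorem exists_sections_bound (hD1 : DerivBound.{u}) (hD2 : IntegralOfHeightOne.{u})
    {k K : Type u} [Field k] [Field K] [Algebra k K] {n : ℕ} (Ψ : Ω[K⁄k] [⋀^Fin n]→ₗ[K] K)
    (hΨ : Ψ ≠ 0) {𝒪 : Set (Subring K)} (h𝒪 : IsSmoothModel k n 𝒪) (m : ℕ) {t : Fin n → K}
    (ht : SepBasis k t) :
    ∃ c : K, c ≠ 0 ∧ ∀ F ∈ sections k Ψ 𝒪 m, IsIntegral (Algebra.adjoin k (Set.range t)) (c * F) := by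
  obtain ⟨h, hh0, hh⟩ := hD1 k K n t ht
  have hJ0 := psi_ne_zero Ψ ht.diff hΨ
  refine ⟨(h ^ n / Ψ fun i => D k K (t i)) ^ m, pow_ne_zero _ (div_ne_zero (pow_ne_zero _ hh0) hJ0),
    fun F hF => hD2 k K n t ht _ fun V hV => ?_⟩
  obtain ⟨O, hO, hOV⟩ := h𝒪.complete V hV.1
  obtain ⟨x, hx⟩ := h𝒪.coord O hO
  obtain ⟨G, hG, hFG⟩ := (regularAt_iff Ψ hx m F).1 (hF O hO)
  obtain ⟨b, hb⟩ := ht.diff
  have hc : ∀ i, D k K (x i) = ∑ j, b.repr (D k K (x i)) j • D k K (t j) := by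
    intro i
    conv_lhs => rw [← b.sum_repr (D k K (x i))]
    exact Finset.sum_congr rfl fun j _ => by rw [hb]
  have hmem : ∀ i j, h * b.repr (D k K (x i)) j ∈ V.toSubring := fun i j =>
    hh V hV (x i) (hOV (hx.mem i)) _ (hc i) j
  have hdet := det_mem_of_mem V.toSubring (h • Matrix.of fun i j => b.repr (D k K (x i)) j)
    (fun i j => by simpa using hmem i j)
  rw [Matrix.det_smul, Fintype.card_fin] at hdet
  have hpsi := psi_eq_det Ψ ht.diff (fun i => D k K (x i)) (fun i j => b.repr (D k K (x i)) j) hc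
  have hfin : (h ^ n / Ψ fun i => D k K (t i)) ^ m * F =
      G * (h ^ n * (Matrix.of fun i j => b.repr (D k K (x i)) j).det) ^ m := by
    rw [hFG, hpsi, div_pow, mul_pow, mul_pow]
    have := pow_ne_zero m hJ0
    field_simp
  rw [hfin]
  exact mul_mem (hOV hG) (pow_mem hdet m)

/-- The space of `m`-canonical forms on a complete nonsingular variety is finite dimensional. -/
theorem finDim (hC : SepExists.{u}) (hD1 : DerivBound.{u}) (hD2 : IntegralOfHeightOne.{u})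
    (hD3 : InftyChart.{u}) (hD4 : TwoCharts.{u})
    {k K : Type u} [Field k] [Field K] [Algebra k K] [PerfectField k] [Algebra.EssFiniteType k K]
    {n : ℕ} (hn : 1 ≤ n) (Ψ : Ω[K⁄k] [⋀^Fin n]→ₗ[K] K)
    (hΨ : Ψ ≠ 0) {𝒪 : Set (Subring K)} (h𝒪 : IsSmoothModel k n 𝒪) (m : ℕ) :
    ∃ W : Submodule k K, FiniteDimensional k W ∧ ∀ F ∈ sections k Ψ 𝒪 m, F ∈ W := by
  obtain ⟨x, hx⟩ := exists_diffBasis h𝒪
  obtain ⟨t, ht⟩ := hC k K n x hx
  obtain ⟨n, rfl⟩ : ∃ n', n = n' + 1 := ⟨n - 1, by omega⟩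
  obtain ⟨c, hc0, hc⟩ := exists_sections_bound hD1 hD2 Ψ hΨ h𝒪 m ht
  obtain ⟨c', hc'0, hc'⟩ := exists_sections_bound hD1 hD2 Ψ hΨ h𝒪 m (hD3 k K n t ht)
  obtain ⟨W, hW, hW'⟩ := hD4 k K n t ht c c' hc0 hc'0
  exact ⟨W, hW, fun F hF => hW' F (hc F hF) (hc' F hF)⟩

end Pool.Agent.Lib.MP_8bcb2e_ag
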