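import Pool.Agent.Lib.MP_8bcb2e_ag.Bounded
import Pool.Agent.Lib.MP_8bcb2e_ag.FinDim

/-!
# Generic finiteness of `|rK_X|` implies birationality of `S⁰((1 + jr)K_X)`, `j ≥ n + 2`
-/

set_option autoImplicit false

universe u

namespace Pool.Agent.Lib.MP_8bcb2e_ag

open KaehlerDifferential

section

variable {k K : Type u} [Field k] [Field K] [Algebra k K] {n : ℕ}
  {Ψ : Ω[K⁄k] [⋀^Fin n]→ₗ[K] K} {𝒪 : Set (Subring K)}

/-- the number of elements of a transcendence basis -/
theorem card_transcendenceBasis (hC : SepExists.{u}) [PerfectField k] [Algebra.EssFiniteType k K]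
    {x : Fin n → K} (hx : IsDiffBasis k x) {s : Set K}
    (hs : IsTranscendenceBasis k ((↑) : s → K)) : Cardinal.mk s = n := by
  obtain ⟨t, ht⟩ := hC k K n x hx
  have hsep := ht.sep
  have htb : IsTranscendenceBasis k t := by
    have halg : Algebra.IsAlgebraic (IntermediateField.adjoin k (Set.range t)) K := inferInstance
    refine ht.algInd.isTranscendenceBasis_iff_isAlgebraic.2 ?_
    rwa [← IntermediateField.isAlgebraic_adjoin_iff_top]
  have := hs.lift_cardinalMk_eq htb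
  simpa using this

theorem ratioField_le {V : Set K} {S : K} (hS0 : S ≠ 0) (hS : S ∈ V) :
    ratioField k V = IntermediateField.adjoin k {c | ∃ a ∈ V, c = a / S} := by
  apply le_antisymm
  · rw [ratioField, IntermediateField.adjoin_le_iff]
    rintro _ ⟨a, ha, b, hb, rfl⟩
    have h1 : a / b = (a / S) / (b / S) := by
      by_cases hb0 : b = 0
      · simp [hb0]
      · field_simp
    rw [h1]
    exact div_mem (IntermediateField.subset_adjoin k _ ⟨a, ha, rfl⟩)
      (IntermediateField.subset_adjoin k _ ⟨b, hb, rfl⟩)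
  · rw [ratioField, IntermediateField.adjoin_le_iff]
    rintro _ ⟨a, ha, rfl⟩
    exact IntermediateField.subset_adjoin k _ ⟨a, ha, S, hS, rfl⟩

/-- sections defining a generically finite map -/
theorem exists_sections (hC : SepExists.{u}) [PerfectField k] [Algebra.EssFiniteType k K]
    (hn : 1 ≤ n) {x : Fin n → K} (hx : IsDiffBasis k x) {V : Set K} (hV : GenericallyFinite k V) :
    ∃ (S : K) (t : Fin n → K), S ≠ 0 ∧ S ∈ V ∧ (∀ i, t i * S ∈ V) ∧
      Algebra.IsAlgebraic (IntermediateField.adjoin k (Set.range t)) K := by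
  have hS : ∃ S ∈ V, S ≠ 0 := by
    by_contra! hcon
    have hbot : ratioField k V = ⊥ := by
      rw [ratioField, eq_bot_iff, IntermediateField.adjoin_le_iff]
      rintro _ ⟨a, ha, b, hb, rfl⟩
      rw [hcon a ha, zero_div]
      exact zero_mem _
    rw [GenericallyFinite, hbot, ← IntermediateField.adjoin_empty k K] at hV
    have halg : Algebra.IsAlgebraic (Algebra.adjoin k (∅ : Set K)) K := by
      rwa [← IntermediateField.isAlgebraic_adjoin_iff_top]
    obtain ⟨s, hs0, hs⟩ := exists_isTranscendenceBasis_subset (R := k) (∅ : Set K)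
    have h2 := card_transcendenceBasis hC hx hs
    rw [Set.subset_empty_iff.1 hs0, Cardinal.mk_eq_zero] at h2
    have h3 : (0 : ℕ) = n := by exact_mod_cast h2
    omega
  obtain ⟨S, hSV, hS0⟩ := hS
  rw [GenericallyFinite, ratioField_le hS0 hSV] at hV
  have halg : Algebra.IsAlgebraic (Algebra.adjoin k {c : K | ∃ a ∈ V, c = a / S}) K := by
    rwa [← IntermediateField.isAlgebraic_adjoin_iff_top]
  obtain ⟨s, hsV, hs⟩ := exists_isTranscendenceBasis_subset (R := k) {c : K | ∃ a ∈ V, c = a / S}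
  have hcard := card_transcendenceBasis hC hx hs
  have hfin : Fintype s := by
    have : Cardinal.mk s < Cardinal.aleph0 := by rw [hcard]; exact Cardinal.natCast_lt_aleph0
    exact (Cardinal.lt_aleph0_iff_fintype.1 this).some
  have hcard' : Fintype.card s = n := by
    have : (Fintype.card s : Cardinal) = n := by rw [← Cardinal.mk_fintype, hcard]
    exact_mod_cast this
  let eqv : Fin n ≃ s := (Fintype.equivFinOfCardEq hcard').symm
  refine ⟨S, fun i => (eqv i : K), hS0, hSV, fun i => ?_, ?_⟩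
  · obtain ⟨a, ha, h⟩ := hsV (eqv i).2
    change (eqv i : K) * S ∈ V
    rw [h, div_mul_cancel₀ _ hS0]
    exact ha
  · have hr : Set.range (fun i => (eqv i : K)) = s := by
      ext z
      constructor
      · rintro ⟨i, rfl⟩
        exact (eqv i).2
      · intro hz
        exact ⟨eqv.symm ⟨z, hz⟩, by simp⟩
    rw [hr]
    have := hs.isAlgebraic_field
    rwa [Subtype.range_coe] at this

/-- the image of the `e`-th iterate of the trace, a subspace over `k` -/
def imageTrace {p : ℕ} {T : K → K} (hT : IsFrobTrace k Ψ p T) (h𝒪 : IsSmoothModel k n 𝒪) (s e : ℕ) :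
    Submodule k K where
  carrier := T^[e] '' sections k Ψ 𝒪 (1 + p ^ e * s)
  add_mem' := by
    rintro _ _ ⟨a, ha, rfl⟩ ⟨b, hb, rfl⟩
    exact ⟨a + b, sections_add h𝒪 ha hb, hT.iter_add e a b⟩
  zero_mem' := ⟨0, sections_zero h𝒪 _, hT.iter_zero e⟩
  smul_mem' := by
    rintro c _ ⟨a, ha, rfl⟩
    refine ⟨algebraMap k K (c ^ p ^ e) * a, sections_smul h𝒪 _ ha, ?_⟩
    rw [map_pow, hT.iter_mul, Algebra.smul_def]

section stable

variable {p : ℕ} {T : K → K} (hPB : PBasis.{u}) (hTM : TraceMonomial.{u}) (hTop : TopMem.{u})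
  [PerfectField k] [Fact p.Prime] [CharP k p] [Algebra.EssFiniteType k K]
  (hT : IsFrobTrace k Ψ p T) (h𝒪 : IsSmoothModel k n 𝒪)

include hPB hTM hTop in
theorem imageTrace_succ_le (s e : ℕ) : imageTrace hT h𝒪 s (e + 1) ≤ imageTrace hT h𝒪 s e := by
  rintro _ ⟨a, ha, rfl⟩
  refine ⟨T a, ?_, by rw [Function.iterate_succ_apply]⟩
  apply trace_sections hPB hTM hTop hT h𝒪
  rwa [← mul_assoc, ← pow_succ']

include hPB hTM hTop in
theorem imageTrace_antitone (s : ℕ) : Antitone (imageTrace hT h𝒪 s) :=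
  antitone_nat_of_succ_le (imageTrace_succ_le hPB hTM hTop hT h𝒪 s)

include hPB hTM hTop in
theorem imageTrace_stable (s : ℕ)
    (hW : ∃ W : Submodule k K, FiniteDimensional k W ∧ ∀ F ∈ sections k Ψ 𝒪 (1 + s), F ∈ W) :
    ∃ e₁, ∀ e, e₁ ≤ e → imageTrace hT h𝒪 s e = imageTrace hT h𝒪 s e₁ := by
  obtain ⟨W, hWf, hW⟩ := hW
  have hle : ∀ e, imageTrace hT h𝒪 s e ≤ W := by
    rintro e _ ⟨a, ha, rfl⟩
    exact hW _ (trace_iter_sections hPB hTM hTop hT h𝒪 e ha)
  have hart : IsArtinian k W := inferInstance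
  let f : ℕ →o (Submodule k W)ᵒᵈ :=
    ⟨fun e => OrderDual.toDual ((imageTrace hT h𝒪 s e).comap W.subtype), fun a b hab =>
      Submodule.comap_mono (imageTrace_antitone hPB hTM hTop hT h𝒪 s hab)⟩
  obtain ⟨e₁, he₁⟩ := IsArtinian.monotone_stabilizes f
  refine ⟨e₁, fun e he => ?_⟩
  have h1 := he₁ e he
  have h2 : (imageTrace hT h𝒪 s e₁).comap W.subtype = (imageTrace hT h𝒪 s e).comap W.subtype := h1
  have h3 := congrArg (Submodule.map W.subtype) h2
  rw [Submodule.map_comap_subtype, Submodule.map_comap_subtype, inf_eq_right.2 (hle e₁),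
    inf_eq_right.2 (hle e)] at h3
  exact h3.symm

include hPB hTM hTop hT h𝒪 in
/-- `S⁰` is the image of a large iterate of the trace. -/
theorem exists_S0_eq (s : ℕ)
    (hW : ∃ W : Submodule k K, FiniteDimensional k W ∧ ∀ F ∈ sections k Ψ 𝒪 (1 + s), F ∈ W) :
    ∃ e₁, ∀ e, e₁ ≤ e → T^[e] '' sections k Ψ 𝒪 (1 + p ^ e * s) ⊆ S0 k Ψ p T 𝒪 (1 + s) := by
  obtain ⟨e₁, he₁⟩ := imageTrace_stable hPB hTM hTop hT h𝒪 s hW
  refine ⟨e₁, fun e he F hF => ?_⟩
  intro e' _
  have h1 : F ∈ imageTrace hT h𝒪 s e := hF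
  rw [he₁ e he] at h1
  have h2 : F ∈ imageTrace hT h𝒪 s e' := by
    rcases le_total e₁ e' with h | h
    · rw [he₁ e' h]; exact h1
    · exact imageTrace_antitone hPB hTM hTop hT h𝒪 s h h1
  obtain ⟨G, hG, hGF⟩ := h2
  exact ⟨G, by simpa using hG, hGF⟩

end stable

theorem S0_mul {p : ℕ} {T : K → K} (hT : IsFrobTrace k Ψ p T) (h𝒪 : IsSmoothModel k n 𝒪)
    {s r : ℕ} {w y : K} (hw : w ∈ S0 k Ψ p T 𝒪 (1 + s)) (hy : y ∈ sections k Ψ 𝒪 r) :
    w * y ∈ S0 k Ψ p T 𝒪 (1 + s + r) := by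
  intro e he
  obtain ⟨G, hG, rfl⟩ := hw e he
  refine ⟨y ^ p ^ e * G, ?_, by rw [hT.iter_mul]; ring⟩
  have h1 := sections_mul h𝒪 (sections_pow h𝒪 hy (p ^ e)) hG
  have h2 : p ^ e * r + (1 + p ^ e * (1 + s - 1)) = 1 + p ^ e * (1 + s + r - 1) := by
    have e1 : 1 + s - 1 = s := by omega
    have e2 : 1 + s + r - 1 = s + r := by omega
    rw [e1, e2]
    ring
  rwa [h2] at h1

/-- the field generated by quotients is everything if the elements span over `k(t)` -/
theorem ratioField_eq_top {V : Set K} {ν : ℕ} {t : Fin ν → K} {U : Set K} {a b : K} (ha : a ≠ 0)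
    (hb : b ≠ 0)
    (hspan : Submodule.span (IntermediateField.adjoin k (Set.range t)) U = ⊤)
    (hU : ∀ w ∈ U, w * a ∈ V) (hUt : ∀ w ∈ U, ∀ i, w * (t i * b) ∈ V) (hUb : ∀ w ∈ U, w * b ∈ V) :
    ratioField k V = ⊤ := by
  have hne : ∃ w ∈ U, w ≠ 0 := by
    by_contra! hcon
    have h1 : Submodule.span (IntermediateField.adjoin k (Set.range t)) U = ⊥ :=
      Submodule.span_eq_bot.2 hcon
    rw [h1] at hspan
    have : (1 : K) ∈ (⊥ : Submodule (IntermediateField.adjoin k (Set.range t)) K) := by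
      rw [hspan]; trivial
    exact one_ne_zero ((Submodule.mem_bot _).1 this)
  obtain ⟨w₀, hw₀, hw₀0⟩ := hne
  have hE : IntermediateField.adjoin k (Set.range t) ≤ ratioField k V := by
    rw [IntermediateField.adjoin_le_iff]
    rintro _ ⟨i, rfl⟩
    have : t i = w₀ * (t i * b) / (w₀ * b) := by field_simp
    rw [this]
    exact IntermediateField.subset_adjoin k _ ⟨_, hUt w₀ hw₀ i, _, hUb w₀ hw₀, rfl⟩
  have hquot : ∀ z : K, z / w₀ ∈ ratioField k V := by
    intro z
    have hz : z ∈ Submodule.span (IntermediateField.adjoin k (Set.range t)) U := by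
      rw [hspan]; trivial
    refine Submodule.span_induction ?_ ?_ ?_ ?_ hz
    · intro w hw
      have : w / w₀ = w * a / (w₀ * a) := by field_simp
      rw [this]
      exact IntermediateField.subset_adjoin k _ ⟨_, hU w hw, _, hU w₀ hw₀, rfl⟩
    · rw [zero_div]; exact zero_mem _
    · intro x y _ _ hx hy
      rw [add_div]; exact add_mem hx hy
    · intro c x _ hx
      rw [IntermediateField.smul_def, smul_eq_mul, mul_div_assoc]
      exact mul_mem (hE c.2) hx
  rw [eq_top_iff]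
  intro z _
  have h1 := hquot (z * w₀)
  rwa [mul_div_cancel_right₀ _ hw₀0] at h1

/-- **Main theorem** for complete nonsingular models. -/
theorem main_model (hPB : PBasis.{u}) (hTM : TraceMonomial.{u}) (hTop : TopMem.{u})
    (hC : SepExists.{u}) (hD1 : DerivBound.{u}) (hD2 : IntegralOfHeightOne.{u})
    (hD3 : InftyChart.{u}) (hD4 : TwoCharts.{u}) (hE : IntegralSections.{u}) (hF : WSection.{u})
    (hG : Spread.{u})
    [PerfectField k] {p : ℕ} [Fact p.Prime] [CharP k p] [Algebra.EssFiniteType k K]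
    (hn : 1 ≤ n) (hΨ : Ψ ≠ 0) (h𝒪 : IsSmoothModel k n 𝒪) {T : K → K} (hT : IsFrobTrace k Ψ p T)
    {r : ℕ} (hr : GenericallyFinite k (sections k Ψ 𝒪 r)) {j : ℕ} (hj : n + 2 ≤ j) :
    Birational k (S0 k Ψ p T 𝒪 (1 + j * r)) := by
  obtain ⟨x, hx⟩ := exists_diffBasis h𝒪
  obtain ⟨S, t, hS0, hS, ht, halg⟩ := exists_sections hC hn hx hr
  have hK : Algebra.EssFiniteType (IntermediateField.adjoin k (Set.range t)) K :=
    Algebra.EssFiniteType.of_comp k _ K
  have hfin : FiniteDimensional (IntermediateField.adjoin k (Set.range t)) K :=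
    Algebra.finite_of_essFiniteType_of_isAlgebraic
  have hTne : ∃ a, T a ≠ 0 := by
    refine ⟨(∏ i, x i) ^ (p - 1) * Ψ fun i => D k K (x i), ?_⟩
    rw [hT.map_log x]
    exact psi_ne_zero Ψ hx hΨ
  let M : ℕ → Set K := fun N => {F | F * S ^ N ∈ sections k Ψ 𝒪 (1 + N * r)}
  have hM1 : ∀ N, M N ⊆ M (N + 1) := fun N F hFM => mul_pow_mem_mono h𝒪 hS (Nat.le_succ N) hFM
  have hM2 : ∀ N i, ∀ a ∈ M N, t i * a ∈ M (N + 1) := by
    intro N i a ha
    have h1 := sections_mul h𝒪 ha (ht i)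
    have h2 : t i * a * S ^ (N + 1) = a * S ^ N * (t i * S) := by ring
    have h3 : 1 + (N + 1) * r = 1 + N * r + r := by ring
    change t i * a * S ^ (N + 1) ∈ sections k Ψ 𝒪 (1 + (N + 1) * r)
    rw [h2, h3]
    exact h1
  have hM3 : ∀ a : K, ∃ N, a ∈ Submodule.span (IntermediateField.adjoin k (Set.range t)) (M N) :=
    mem_span_bounded hF h𝒪 hΨ hS0 hS ht (hE k K n Ψ 𝒪 hΨ h𝒪 r n t S hS0 hS ht halg) hx
  obtain ⟨e₀, he₀⟩ := hG k K p n t hfin M T hT.map_add hT.map_pow_mul hTne hM1 hM2 hM3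
  obtain ⟨e₁, he₁⟩ := exists_S0_eq hPB hTM hTop hT h𝒪 ((n + 1) * r)
    (finDim hC hD1 hD2 hD3 hD4 hn Ψ hΨ h𝒪 _)
  have hspan := he₀ (max e₀ e₁) (le_max_left _ _)
  set e := max e₀ e₁ with he
  have hsub : ∀ w ∈ T^[e] '' M (p ^ e * (n + 1)), w * S ^ (n + 1) ∈
      S0 k Ψ p T 𝒪 (1 + (n + 1) * r) := by
    rintro _ ⟨F, hFM, rfl⟩
    apply he₁ e (le_max_right _ _)
    refine ⟨(S ^ (n + 1)) ^ p ^ e * F, ?_, by rw [hT.iter_mul]; ring⟩
    have h1 : F * S ^ (p ^ e * (n + 1)) ∈ sections k Ψ 𝒪 (1 + p ^ e * (n + 1) * r) := hFM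
    have h2 : (S ^ (n + 1)) ^ p ^ e * F = F * S ^ (p ^ e * (n + 1)) := by
      rw [← pow_mul, mul_comm (n + 1)]; ring
    rw [h2, ← mul_assoc]
    exact h1
  obtain ⟨i, rfl⟩ := Nat.exists_eq_add_of_le hj
  have hidx : 1 + (n + 2 + i) * r = 1 + (n + 1) * r + (1 + i) * r := by ring
  rw [Birational, hidx]
  have hSi : S ^ i * S ∈ sections k Ψ 𝒪 ((1 + i) * r) := by
    have := sections_mul h𝒪 (sections_pow h𝒪 hS i) hS
    have h4 : (1 + i) * r = i * r + r := by ring
    rwa [h4]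
  refine ratioField_eq_top (t := t) (U := T^[e] '' M (p ^ e * (n + 1)))
    (a := S ^ (n + 1) * (S ^ i * S)) (b := S ^ (n + 1) * (S ^ i * S)) ?_ ?_ hspan ?_ ?_ ?_
  · positivity
  · positivity
  · intro w hw
    rw [← mul_assoc]
    exact S0_mul hT h𝒪 (hsub w hw) hSi
  · intro w hw l
    have h5 : w * (t l * (S ^ (n + 1) * (S ^ i * S))) = w * S ^ (n + 1) * (S ^ i * (t l * S)) := by
      ring
    rw [h5]
    refine S0_mul hT h𝒪 (hsub w hw) ?_
    have := sections_mul h𝒪 (sections_pow h𝒪 hS i) (ht l)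
    have h4 : (1 + i) * r = i * r + r := by ring
    rwa [h4]
  · intro w hw
    rw [← mul_assoc]
    exact S0_mul hT h𝒪 (hsub w hw) hSi

end

end Pool.Agent.Lib.MP_8bcb2e_ag
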