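import Pool.Agent.Lib.MP_8bcb2e_ag.Defs

/-!
# Basic facts: forms in local coordinates
-/

set_option autoImplicit false

universe u

namespace Pool.Agent.Lib.MP_8bcb2e_ag

open KaehlerDifferential

theorem det_mem_of_mem {K : Type u} [Field K] {n : ℕ} (O : Subring K) (M : Matrix (Fin n) (Fin n) K)
    (h : ∀ i j, M i j ∈ O) : M.det ∈ O := by
  rw [Matrix.det_apply]
  refine sum_mem fun σ _ => ?_
  rw [Units.smul_def, zsmul_eq_mul]
  exact mul_mem (intCast_mem O _) (prod_mem fun i _ => h _ _)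

section

variable {k : Type u} {K : Type u} [Field k] [Field K] [Algebra k K] {n : ℕ}
  (Ψ : Ω[K⁄k] [⋀^Fin n]→ₗ[K] K)

/-- the value of a top form on combinations of the differentials of a differential basis -/
theorem psi_eq_det {x : Fin n → K} (hx : IsDiffBasis k x) (θ : Fin n → Ω[K⁄k])
    (c : Fin n → Fin n → K) (hc : ∀ i, θ i = ∑ j, c i j • D k K (x j)) :
    Ψ θ = (Matrix.of c).det * Ψ fun i => D k K (x i) := by
  obtain ⟨b, hb⟩ := hx
  have h1 : Ψ θ = Ψ b * b.det θ := by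
    conv_lhs => rw [Ψ.eq_smul_basis_det b]
    simp
  have h2 : b.det θ = (Matrix.of c).det := by
    rw [Module.Basis.det_apply, ← Matrix.det_transpose]
    congr 1
    ext i j
    rw [Matrix.transpose_apply, Module.Basis.toMatrix_apply, hc i]
    simp [← hb, Finsupp.single_apply]
  have h3 : (Ψ b) = Ψ fun i => D k K (x i) := by
    congr 1
    ext i
    exact hb i
  rw [h1, h2, h3, mul_comm]

theorem psi_ne_zero {x : Fin n → K} (hx : IsDiffBasis k x) (hΨ : Ψ ≠ 0) :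
    Ψ (fun i => D k K (x i)) ≠ 0 := by
  obtain ⟨b, hb⟩ := hx
  intro h
  apply hΨ
  have h3 : (Ψ b) = 0 := by
    rw [← h]
    congr 1
    ext i
    exact hb i
  rw [Ψ.eq_smul_basis_det b, h3, zero_smul]

theorem mem_regDiff_iff {O : Subring K} {x : Fin n → K} (hx : IsCoord k O x) (θ : Ω[K⁄k]) :
    θ ∈ regDiff k O ↔ ∃ c : Fin n → K, (∀ i, c i ∈ O) ∧ θ = ∑ i, c i • D k K (x i) := by
  constructor
  · intro h
    refine AddSubgroup.closure_induction ?_ ?_ ?_ ?_ h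
    · rintro _ ⟨a, ha, b, hb, rfl⟩
      obtain ⟨c, hc, h⟩ := hx.gen b hb
      refine ⟨fun i => a * c i, fun i => mul_mem ha (hc i), ?_⟩
      rw [h, Finset.smul_sum]
      exact Finset.sum_congr rfl fun i _ => by rw [mul_smul]
    · exact ⟨fun _ => 0, fun _ => zero_mem O, by simp⟩
    · rintro _ _ _ _ ⟨c, hc, rfl⟩ ⟨c', hc', rfl⟩
      refine ⟨fun i => c i + c' i, fun i => add_mem (hc i) (hc' i), ?_⟩
      rw [← Finset.sum_add_distrib]
      exact Finset.sum_congr rfl fun i _ => by rw [add_smul]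
    · rintro _ _ ⟨c, hc, rfl⟩
      refine ⟨fun i => - c i, fun i => neg_mem (hc i), ?_⟩
      rw [← Finset.sum_neg_distrib]
      exact Finset.sum_congr rfl fun i _ => by rw [neg_smul]
  · rintro ⟨c, hc, rfl⟩
    exact sum_mem fun i _ => AddSubgroup.subset_closure ⟨c i, hc i, x i, hx.mem i, rfl⟩

theorem regularAt_iff {O : Subring K} {x : Fin n → K} (hx : IsCoord k O x) (m : ℕ) (F : K) :
    RegularAt k Ψ m O F ↔ ∃ G ∈ O, F = G * (Ψ fun i => D k K (x i)) ^ m := by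
  constructor
  · rintro ⟨θ, G, hθ, hG, rfl⟩
    have h := fun i => (mem_regDiff_iff hx (θ i)).1 (hθ i)
    choose c hc hc' using h
    refine ⟨G * (Matrix.of c).det ^ m, mul_mem hG (pow_mem (det_mem_of_mem O _ fun i j => hc i j) m), ?_⟩
    rw [psi_eq_det Ψ hx.basis θ c hc']
    ring
  · rintro ⟨G, hG, rfl⟩
    refine ⟨fun i => D k K (x i), G, fun i => ?_, hG, rfl⟩
    exact AddSubgroup.subset_closure ⟨1, one_mem O, x i, hx.mem i, by simp⟩

variable {Ψ}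

theorem sections_add {𝒪 : Set (Subring K)} (h𝒪 : IsSmoothModel k n 𝒪) {m : ℕ} {F G : K}
    (hF : F ∈ sections k Ψ 𝒪 m) (hG : G ∈ sections k Ψ 𝒪 m) : F + G ∈ sections k Ψ 𝒪 m := by
  intro O hO
  obtain ⟨x, hx⟩ := h𝒪.coord O hO
  obtain ⟨a, ha, h1⟩ := (regularAt_iff Ψ hx m F).1 (hF O hO)
  obtain ⟨b, hb, h2⟩ := (regularAt_iff Ψ hx m G).1 (hG O hO)
  exact (regularAt_iff Ψ hx m _).2 ⟨a + b, add_mem ha hb, by rw [h1, h2]; ring⟩

theorem sections_smul {𝒪 : Set (Subring K)} (h𝒪 : IsSmoothModel k n 𝒪) {m : ℕ} {F : K} (c : k)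
    (hF : F ∈ sections k Ψ 𝒪 m) : algebraMap k K c * F ∈ sections k Ψ 𝒪 m := by
  intro O hO
  obtain ⟨x, hx⟩ := h𝒪.coord O hO
  obtain ⟨a, ha, h1⟩ := (regularAt_iff Ψ hx m F).1 (hF O hO)
  exact (regularAt_iff Ψ hx m _).2
    ⟨algebraMap k K c * a, mul_mem (h𝒪.base O hO c) ha, by rw [h1]; ring⟩

theorem sections_zero {𝒪 : Set (Subring K)} (h𝒪 : IsSmoothModel k n 𝒪) (m : ℕ) :
    (0 : K) ∈ sections k Ψ 𝒪 m := by
  intro O hO
  obtain ⟨x, hx⟩ := h𝒪.coord O hO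
  exact (regularAt_iff Ψ hx m _).2 ⟨0, zero_mem O, by ring⟩

theorem sections_mul {𝒪 : Set (Subring K)} (h𝒪 : IsSmoothModel k n 𝒪) {m m' : ℕ} {F G : K}
    (hF : F ∈ sections k Ψ 𝒪 m) (hG : G ∈ sections k Ψ 𝒪 m') :
    F * G ∈ sections k Ψ 𝒪 (m + m') := by
  intro O hO
  obtain ⟨x, hx⟩ := h𝒪.coord O hO
  obtain ⟨a, ha, h1⟩ := (regularAt_iff Ψ hx m F).1 (hF O hO)
  obtain ⟨b, hb, h2⟩ := (regularAt_iff Ψ hx m' G).1 (hG O hO)
  exact (regularAt_iff Ψ hx _ _).2 ⟨a * b, mul_mem ha hb, by rw [h1, h2, pow_add]; ring⟩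

theorem sections_pow {𝒪 : Set (Subring K)} (h𝒪 : IsSmoothModel k n 𝒪) {m : ℕ} {F : K}
    (hF : F ∈ sections k Ψ 𝒪 m) (N : ℕ) : F ^ N ∈ sections k Ψ 𝒪 (N * m) := by
  intro O hO
  obtain ⟨x, hx⟩ := h𝒪.coord O hO
  obtain ⟨a, ha, h1⟩ := (regularAt_iff Ψ hx m F).1 (hF O hO)
  exact (regularAt_iff Ψ hx _ _).2 ⟨a ^ N, pow_mem ha N, by rw [h1, mul_pow, ← pow_mul, mul_comm m N]⟩

end

end Pool.Agent.Lib.MP_8bcb2e_ag
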