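import Pool.Agent.Lib.MP_8bcb2e_ag.Spec

/-!
# Existence and uniqueness of the trace of the Frobenius
-/

set_option autoImplicit false

universe u

namespace Pool.Agent.Lib.MP_8bcb2e_ag

open KaehlerDifferential

namespace TE

section general

variable {k : Type u} {K : Type u} [Field k] [Field K] [Algebra k K]

/-- iterating a derivation on `B * y ^ b` -/
theorem iter_deriv (d : Derivation k K K) {y B : K} (hy : d y = 1) (hB : d B = 0) (b m : ℕ) :
    ((d : K →ₗ[k] K) ^ m) (B * y ^ b) = ((b.descFactorial m : ℕ) : K) * (B * y ^ (b - m)) := by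
  induction m with
  | zero => simp
  | succ m ih =>
    rw [pow_succ', Module.End.mul_apply, ih]
    simp only [Derivation.coeFn_coe]
    rw [Derivation.leibniz, Derivation.leibniz, Derivation.leibniz_pow, hy, hB,
      Derivation.map_natCast, Nat.descFactorial_succ]
    simp only [smul_eq_mul, nsmul_eq_mul, mul_one, mul_zero, add_zero, Nat.cast_mul]
    rw [Nat.sub_add_eq]
    ring

theorem D_pow_char (p : ℕ) [CharP K p] (c : K) :
    D k K (c ^ p) = 0 := by
  rw [Derivation.leibniz_pow, ← Nat.cast_smul_eq_nsmul K, CharP.cast_eq_zero, zero_smul]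

theorem deriv_pow_char (d : Derivation k K K) (p : ℕ) [CharP K p] (c : K) :
    d (c ^ p) = 0 := by
  rw [Derivation.leibniz_pow, ← Nat.cast_smul_eq_nsmul K, CharP.cast_eq_zero, zero_smul]

/-- the derivative of a monomial -/
theorem D_monomial {n : ℕ} (x : Fin n → K) (hx : ∀ i, x i ≠ 0) (α : Fin n → ℕ) (s : Finset (Fin n)) :
    D k K (∏ i ∈ s, x i ^ α i) =
      ∑ j ∈ s, (((α j : ℕ) : K) * ((∏ i ∈ s, x i ^ α i) * (x j)⁻¹)) • D k K (x j) := by
  induction s using Finset.induction_on with
  | empty => simp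
  | insert a s ha ih =>
    rw [Finset.prod_insert ha, Derivation.leibniz, ih, Finset.sum_insert ha,
      Derivation.leibniz_pow, ← Nat.cast_smul_eq_nsmul K, smul_smul, smul_smul, Finset.smul_sum,
      add_comm]
    congr 1
    · congr 1
      rcases Nat.eq_zero_or_pos (α a) with h | h
      · simp [h]
      · have : x a ^ α a = x a ^ (α a - 1) * x a := by
          rw [← pow_succ, Nat.sub_add_cancel h]
        rw [this]
        field_simp [hx a]
    · refine Finset.sum_congr rfl fun j _ => ?_
      rw [smul_smul]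
      congr 1
      ring

/-- one step of the top coefficient: `∂_j ^ (p-1)` on a monomial -/
theorem step_deriv {n : ℕ} (p : ℕ) [Fact p.Prime] [CharP K p] (x : Fin n → K)
    (d : Derivation k K K) (j : Fin n) (hj : d (x j) = 1) (hd : ∀ i, i ≠ j → d (x i) = 0) (C : K)
    (hC : d C = 0) (β : Fin n → ℕ) (hβ : β j < p) :
    ((d : K →ₗ[k] K) ^ (p - 1)) (C * ∏ i, x i ^ β i) =
      if β j = p - 1 then (((p - 1).factorial : ℕ) : K) * (C * ∏ i, x i ^ (if i = j then 0 else β i))
      else 0 := by
  have h0 : d (∏ i ∈ Finset.univ.erase j, x i ^ β i) = 0 := by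
    have : ∀ s : Finset (Fin n), j ∉ s → d (∏ i ∈ s, x i ^ β i) = 0 := by
      intro s
      induction s using Finset.induction_on with
      | empty => intro _; simp
      | insert a s ha ih =>
        intro hjs
        rw [Finset.prod_insert ha, Derivation.leibniz, ih (fun h => hjs (Finset.mem_insert_of_mem h)),
          Derivation.leibniz_pow, hd a (by rintro rfl; exact hjs (Finset.mem_insert_self _ _))]
        simp
    exact this _ (Finset.notMem_erase _ _)
  have h1 : C * ∏ i, x i ^ β i = (C * ∏ i ∈ Finset.univ.erase j, x i ^ β i) * x j ^ β j := by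
    rw [← Finset.mul_prod_erase Finset.univ _ (Finset.mem_univ j)]
    ring
  have h2 : ∏ i, x i ^ (if i = j then 0 else β i) = ∏ i ∈ Finset.univ.erase j, x i ^ β i := by
    rw [← Finset.mul_prod_erase Finset.univ _ (Finset.mem_univ j)]
    simp only [if_true, pow_zero, one_mul]
    refine Finset.prod_congr rfl fun i hi => ?_
    rw [if_neg (Finset.ne_of_mem_erase hi)]
  rw [h1, iter_deriv d hj (by rw [Derivation.leibniz, h0, hC]; simp), h2]
  split_ifs with h
  · rw [h, Nat.descFactorial_self, Nat.sub_self, pow_zero, mul_one]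
  · rw [Nat.descFactorial_eq_zero_iff_lt.2 (by omega)]
    simp

theorem list_deriv {n : ℕ} (p : ℕ) [Fact p.Prime] [CharP K p] (x : Fin n → K)
    (d : Fin n → Derivation k K K) (hd : ∀ i j, d i (x j) = if i = j then 1 else 0) (c : K)
    (α : Fin n → ℕ) (hα : ∀ i, α i < p) (l : List (Fin n)) (hl : l.Nodup) :
    (l.map fun j => (d j : K →ₗ[k] K) ^ (p - 1)).prod (c ^ p * ∏ i, x i ^ α i) =
      if ∀ j ∈ l, α j = p - 1 then
        (((p - 1).factorial : ℕ) : K) ^ l.length * (c ^ p * ∏ i, x i ^ (if i ∈ l then 0 else α i))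
      else 0 := by
  induction l with
  | nil => simp
  | cons j l ih =>
    rw [List.nodup_cons] at hl
    rw [List.map_cons, List.prod_cons, Module.End.mul_apply, ih hl.2]
    by_cases h : ∀ i ∈ l, α i = p - 1
    · rw [if_pos h, ← mul_assoc]
      have h3 := step_deriv p x (d j) j (by rw [hd]; simp) (fun i hi => by
        rw [hd, if_neg (fun h => hi h.symm)]) ((((p - 1).factorial : ℕ) : K) ^ l.length * c ^ p)
        (by
          rw [Derivation.leibniz, deriv_pow_char (d j) p c, Derivation.leibniz_pow,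
            Derivation.map_natCast]
          simp) (fun i => if i ∈ l then 0 else α i) (by simp only [if_neg hl.1]; exact hα j)
      rw [h3]
      simp only [if_neg hl.1]
      by_cases h4 : α j = p - 1
      · rw [if_pos h4, if_pos (by
          intro i hi
          rcases List.mem_cons.1 hi with rfl | hi
          · exact h4
          · exact h i hi)]
        have h5 : ∀ i, (if i = j then 0 else if i ∈ l then 0 else α i) =
            if i ∈ j :: l then 0 else α i := by
          intro i
          by_cases hij : i = j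
          · simp [hij]
          · by_cases hil : i ∈ l <;> simp [hij, hil]
        simp only [h5, List.length_cons, pow_succ]
        ring
      · rw [if_neg h4, if_neg (fun h5 => h4 (h5 j (List.mem_cons_self)))]
    · rw [if_neg h, if_neg (fun h5 => h fun i hi => h5 i (List.mem_cons_of_mem _ hi)), map_zero]

/-- the additive map which is a constant times the `p`-th power of the top coefficient -/
theorem exists_top {n : ℕ} (p : ℕ) [Fact p.Prime] [CharP K p] (x : Fin n → K)
    (hx : IsDiffBasis k x) : ∃ E : K →ₗ[k] K, ∃ u : K, u ≠ 0 ∧ ∀ c : (Fin n → Fin p) → K,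
      E (∑ α, c α ^ p * ∏ i, x i ^ (α i : ℕ)) =
        u * (c fun _ => ⟨p - 1, Nat.sub_lt (Fact.out : p.Prime).pos one_pos⟩) ^ p := by
  obtain ⟨b, hb⟩ := hx
  have hp : p.Prime := Fact.out
  set d : Fin n → Derivation k K K := fun i => (b.coord i).compDer (D k K) with hd
  have hd' : ∀ i j, d i (x j) = if i = j then 1 else 0 := by
    intro i j
    have : d i (x j) = b.coord i (D k K (x j)) := rfl
    rw [this, ← hb j, Module.Basis.coord_apply, Module.Basis.repr_self, Finsupp.single_apply]
    simp [eq_comm]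
  refine ⟨((List.finRange n).map fun j => (d j : K →ₗ[k] K) ^ (p - 1)).prod,
    (((p - 1).factorial : ℕ) : K) ^ n, ?_, fun c => ?_⟩
  · refine pow_ne_zero _ fun h => ?_
    rw [CharP.cast_eq_zero_iff K p, hp.dvd_factorial] at h
    have := hp.pos
    omega
  · rw [map_sum, Finset.sum_eq_single (fun _ => ⟨p - 1, Nat.sub_lt hp.pos one_pos⟩)]
    · rw [list_deriv p x d hd' _ _ (fun i => by simpa using Nat.sub_lt hp.pos one_pos) _
        (List.nodup_finRange n), if_pos (by simp)]
      simp
    · intro α _ hα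
      rw [list_deriv p x d hd' _ _ (fun i => (α i).2) _ (List.nodup_finRange n), if_neg]
      intro h
      apply hα
      ext i
      simpa using h i (List.mem_finRange i)
    · intro h
      exact absurd (Finset.mem_univ _) h

end general

section key

/-- the key identity `(a+b)^{p-1} d(a+b) = a^{p-1} da + b^{p-1} db + dφ` -/
theorem key_identity {k : Type u} {K : Type u} [Field k] [Field K] [Algebra k K] (p : ℕ)
    [Fact p.Prime] [CharP K p] (a b : K) :
    ∃ φ : K, (a + b) ^ (p - 1) • D k K (a + b) =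
      a ^ (p - 1) • D k K a + b ^ (p - 1) • D k K b + D k K φ := by
  have hp : p.Prime := Fact.out
  obtain ⟨q, rfl⟩ : ∃ q, p = q + 1 := ⟨p - 1, (Nat.succ_pred_eq_of_pos hp.pos).symm⟩
  simp only [Nat.add_sub_cancel]
  have hw : ∀ m < q, ∃ w : ℕ, (m + 1) * w = q.choose m ∧ (q - m) * w = q.choose (m + 1) := by
    intro m hm
    obtain ⟨w, hw⟩ := hp.dvd_choose_self (k := m + 1) (by omega) (by omega)
    refine ⟨w, ?_, ?_⟩
    · have h1 := Nat.add_one_mul_choose_eq q m
      have h2 : (q + 1) * ((m + 1) * w) = (q + 1) * q.choose m := by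
        rw [h1, hw]; ring
      exact Nat.eq_of_mul_eq_mul_left (Nat.succ_pos q) h2
    · have h1 := Nat.choose_mul_succ_eq q (m + 1)
      have h2 : (q + 1) * ((q - m) * w) = (q + 1) * q.choose (m + 1) := by
        rw [mul_comm (q + 1) (q.choose (m + 1)), h1, hw]
        have : q + 1 - (m + 1) = q - m := by omega
        rw [this]
        ring
      exact Nat.eq_of_mul_eq_mul_left (Nat.succ_pos q) h2
  choose! w hw1 hw2 using hw
  refine ⟨∑ m ∈ Finset.range q, (w m : K) * (a ^ (m + 1) * b ^ (q - m)), ?_⟩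
  have hD : D k K (∑ m ∈ Finset.range q, (w m : K) * (a ^ (m + 1) * b ^ (q - m))) =
      (∑ m ∈ Finset.range q, a ^ m * b ^ (q - m) * (q.choose m : K)) • D k K a +
      (∑ m ∈ Finset.range q, a ^ (m + 1) * b ^ (q - (m + 1)) * (q.choose (m + 1) : K)) •
        D k K b := by
    rw [map_sum, Finset.sum_smul, Finset.sum_smul, ← Finset.sum_add_distrib]
    refine Finset.sum_congr rfl fun m hm => ?_
    rw [Finset.mem_range] at hm
    rw [Derivation.leibniz, Derivation.map_natCast, smul_zero, add_zero, Derivation.leibniz,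
      Derivation.leibniz_pow, Derivation.leibniz_pow, ← hw1 m hm, ← hw2 m hm,
      ← Nat.cast_smul_eq_nsmul K, ← Nat.cast_smul_eq_nsmul K, smul_smul, smul_smul, smul_smul,
      smul_smul, smul_add, smul_smul, smul_smul, add_comm]
    congr 1
    · congr 1
      simp only [Nat.add_sub_cancel]
      push_cast
      ring
    · congr 1
      rw [Nat.sub_sub]
      push_cast
      ring
  have h1 : (a + b) ^ q = (∑ m ∈ Finset.range q, a ^ m * b ^ (q - m) * (q.choose m : K)) + a ^ q := by
    rw [add_pow, Finset.sum_range_succ]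
    simp
  have h2 : (a + b) ^ q =
      (∑ m ∈ Finset.range q, a ^ (m + 1) * b ^ (q - (m + 1)) * (q.choose (m + 1) : K)) + b ^ q := by
    rw [add_pow, Finset.sum_range_succ']
    simp
  rw [hD, map_add, smul_add]
  conv_lhs => rw [h1]
  nth_rewrite 2 [← h1]
  rw [h2, add_smul, add_smul]
  abel

end key

section principle

/-- induction principle: a property of tuples which holds for monomials and is additive and
`p`-semilinear in each entry holds for all tuples -/
theorem tuple_induction {K : Type u} [Field K] {n : ℕ} (p : ℕ) (hp : p ≠ 0) (x : Fin n → K)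
    (hspan : ∀ a : K, ∃ c : (Fin n → Fin p) → K, a = ∑ α, c α ^ p * ∏ i, x i ^ (α i : ℕ))
    (Q : (Fin n → K) → Prop)
    (mono : ∀ α : Fin n → Fin n → Fin p, Q fun i => ∏ j, x j ^ (α i j : ℕ))
    (add : ∀ (f : Fin n → K) (i : Fin n) (a b : K), Q (Function.update f i a) →
      Q (Function.update f i b) → Q (Function.update f i (a + b)))
    (smul : ∀ (f : Fin n → K) (i : Fin n) (c a : K), Q (Function.update f i a) →
      Q (Function.update f i (c ^ p * a))) (f : Fin n → K) : Q f := by
  have : ∀ s : Finset (Fin n), ∀ f : Fin n → K,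
      (∀ i, i ∉ s → ∃ α : Fin n → Fin p, f i = ∏ j, x j ^ (α j : ℕ)) → Q f := by
    intro s
    induction s using Finset.induction_on with
    | empty =>
      intro f hf
      choose α hα using fun i => hf i (Finset.notMem_empty i)
      rw [show f = fun i => ∏ j, x j ^ (α i j : ℕ) from funext hα]
      exact mono α
    | insert i s hi ih =>
      intro f hf
      obtain ⟨c, hc⟩ := hspan (f i)
      have hmono : ∀ α : Fin n → Fin p, Q (Function.update f i (∏ j, x j ^ (α j : ℕ))) := by
        intro α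
        refine ih _ fun j hj => ?_
        by_cases hji : j = i
        · subst hji
          exact ⟨α, by rw [Function.update_self]⟩
        · obtain ⟨β, hβ⟩ := hf j (by simp [hji, hj])
          exact ⟨β, by rw [Function.update_of_ne hji]; exact hβ⟩
      have hsum : ∀ t : Finset (Fin n → Fin p),
          Q (Function.update f i (∑ α ∈ t, c α ^ p * ∏ j, x j ^ (α j : ℕ))) := by
        intro t
        induction t using Finset.induction_on with
        | empty =>
          have h0 := smul f i 0 _ (hmono fun _ => ⟨0, Nat.pos_of_ne_zero hp⟩)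
          rw [zero_pow hp, zero_mul] at h0
          simpa using h0
        | insert α t hα iht =>
          rw [Finset.sum_insert hα]
          exact add f i _ _ (smul f i (c α) _ (hmono α)) iht
      have h := hsum Finset.univ
      rwa [← hc, Function.update_eq_self] at h
  exact this Finset.univ f fun i hi => absurd (Finset.mem_univ i) hi

end principle

section main

variable {k : Type u} {K : Type u} [Field k] [Field K] [Algebra k K] {n : ℕ}
  (Ψ : Ω[K⁄k] [⋀^Fin n]→ₗ[K] K)

/-- the value of the form on the differentials of a tuple -/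
noncomputable def W (f : Fin n → K) : K := Ψ fun i => D k K (f i)

theorem W_update (f : Fin n → K) (i : Fin n) (a : K) :
    W Ψ (Function.update f i a) = Ψ (Function.update (fun l => D k K (f l)) i (D k K a)) := by
  unfold W
  congr 1
  ext l
  by_cases h : l = i
  · subst h; simp
  · simp [Function.update_of_ne h]

theorem W_add (f : Fin n → K) (i : Fin n) (a b : K) :
    W Ψ (Function.update f i (a + b)) =
      W Ψ (Function.update f i a) + W Ψ (Function.update f i b) := by
  rw [W_update, W_update, W_update, map_add, Ψ.map_update_add]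

theorem W_smul (p : ℕ) [CharP K p] (f : Fin n → K) (i : Fin n) (c a : K) :
    W Ψ (Function.update f i (c ^ p * a)) = c ^ p * W Ψ (Function.update f i a) := by
  rw [W_update, W_update, Derivation.leibniz, D_pow_char p c, smul_zero, add_zero,
    Ψ.map_update_smul, smul_eq_mul]

theorem W_mono {x : Fin n → K} (hx : IsDiffBasis k x) (hx0 : ∀ i, x i ≠ 0)
    (α : Fin n → Fin n → ℕ) :
    W Ψ (fun i => ∏ j, x j ^ α i j) =
      (((Matrix.of fun i j => (α i j : ℤ)).det : ℤ) : K) *
        ((∏ i, ∏ j, x j ^ α i j) * (∏ j, x j)⁻¹) * Ψ fun i => D k K (x i) := by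
  unfold W
  rw [psi_eq_det Ψ hx _ (fun i j => ((α i j : ℕ) : K) * ((∏ l, x l ^ α i l) * (x j)⁻¹))
    (fun i => D_monomial x hx0 (α i) Finset.univ)]
  congr 1
  have h1 : (Matrix.of fun i j => ((α i j : ℕ) : K) * ((∏ l, x l ^ α i l) * (x j)⁻¹)) =
      Matrix.of fun i j => (∏ l, x l ^ α i l) *
        (Matrix.of fun i j => (x j)⁻¹ * (Matrix.of fun i j => ((α i j : ℕ) : K)) i j) i j := by
    ext i j
    simp only [Matrix.of_apply]
    ring
  rw [h1, Matrix.det_mul_column, Matrix.det_mul_row]
  have h2 : (Matrix.of fun i j => ((α i j : ℕ) : K)).det =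
      (((Matrix.of fun i j => (α i j : ℤ)).det : ℤ) : K) := by
    have := (Int.castRingHom K).map_det (Matrix.of fun i j => (α i j : ℤ))
    simp only [eq_intCast] at this
    rw [this]
    congr 1
    ext i j
    simp
  rw [h2, Finset.prod_inv_distrib]
  ring

/-- the properties which determine the trace -/
structure Pre (p : ℕ) (x : Fin n → K) (T : K → K) : Prop where
  add : ∀ a b, T (a + b) = T a + T b
  pow : ∀ a b, T (a ^ p * b) = a * T b
  top : ∀ α : Fin n → Fin p, (∀ i, (α i : ℕ) + 1 = p) →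
    T ((∏ i, x i ^ (α i : ℕ)) * Ψ fun i => D k K (x i)) = Ψ fun i => D k K (x i)
  low : ∀ α : Fin n → Fin p, (∃ i, (α i : ℕ) + 1 ≠ p) →
    T ((∏ i, x i ^ (α i : ℕ)) * Ψ fun i => D k K (x i)) = 0

variable {Ψ}

theorem Pre.zero {p : ℕ} {x : Fin n → K} {T : K → K} (h : Pre Ψ p x T) : T 0 = 0 := by
  have := h.add 0 0
  rw [add_zero] at this
  exact left_eq_add.1 this

theorem intCast_pow_char (p : ℕ) [Fact p.Prime] [CharP K p] (m : ℤ) : ((m : K)) ^ p = m := by
  have := map_intCast (frobenius K p) m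
  rwa [frobenius_def] at this

theorem mono_exact {p : ℕ} [Fact p.Prime] [CharP K p] {x : Fin n → K} (hn : 1 ≤ n)
    (hx : IsDiffBasis k x) (hx0 : ∀ i, x i ≠ 0) {T : K → K} (h : Pre Ψ p x T)
    (α : Fin n → Fin n → ℕ) : T (W Ψ fun i => ∏ j, x j ^ α i j) = 0 := by
  have hp : p.Prime := Fact.out
  rw [W_mono Ψ hx hx0]
  by_cases hdiv : ∀ j, p ∣ ∑ i, α i j
  · have h0 : (((Matrix.of fun i j => (α i j : ℤ)).det : ℤ) : K) = 0 := by
      have h1 := (Int.castRingHom K).map_det (Matrix.of fun i j => (α i j : ℤ))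
      simp only [eq_intCast] at h1
      rw [h1]
      refine Matrix.exists_vecMul_eq_zero_iff.1 ⟨fun _ => 1, ?_, ?_⟩
      · intro h2
        have := congrFun h2 ⟨0, hn⟩
        simp at this
      · ext j
        have h3 : ((∑ i, α i j : ℕ) : K) = 0 := (CharP.cast_eq_zero_iff K p _).2 (hdiv j)
        push_cast at h3
        simpa [Matrix.vecMul, dotProduct] using h3
    rw [h0]
    simp [h.zero]
  · push Not at hdiv
    obtain ⟨j₀, hj₀⟩ := hdiv
    set N : K := (((Matrix.of fun i j => (α i j : ℤ)).det : ℤ) : K) with hN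
    have hNp : N ^ p = N := intCast_pow_char p _
    have hX : (∏ j, x j) ≠ 0 := Finset.prod_ne_zero_iff.2 fun j _ => hx0 j
    have h1 : N * ((∏ i, ∏ j, x j ^ α i j) * (∏ j, x j)⁻¹) =
        (N * ((∏ j, x j)⁻¹ * ∏ j, x j ^ ((∑ i, α i j + (p - 1)) / p))) ^ p *
          ∏ j, x j ^ ((∑ i, α i j + (p - 1)) % p) := by
      have h2 : (∏ j, x j ^ ((∑ i, α i j + (p - 1)) / p)) ^ p *
          ∏ j, x j ^ ((∑ i, α i j + (p - 1)) % p) = (∏ i, ∏ j, x j ^ α i j) * (∏ j, x j) ^ (p - 1) := by
        rw [Finset.prod_comm, ← Finset.prod_pow, ← Finset.prod_pow, ← Finset.prod_mul_distrib,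
          ← Finset.prod_mul_distrib]
        refine Finset.prod_congr rfl fun j _ => ?_
        rw [← pow_mul, ← pow_add, Finset.prod_pow_eq_pow_sum, ← pow_add]
        congr 1
        exact Nat.div_add_mod' _ _
      rw [mul_pow, mul_pow, hNp, mul_assoc, mul_assoc, h2]
      congr 1
      have h3 : (∏ j, x j) ^ p = (∏ j, x j) ^ (p - 1) * (∏ j, x j) := by
        rw [← pow_succ, Nat.sub_add_cancel hp.pos]
      rw [inv_pow, h3]
      field_simp
    rw [h1, mul_assoc, h.pow]
    have h4 := h.low (fun j => ⟨(∑ i, α i j + (p - 1)) % p, Nat.mod_lt _ hp.pos⟩) ⟨j₀, ?_⟩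
    · rw [h4, mul_zero]
    · simp only
      intro h5
      apply hj₀
      have h6 := Nat.div_add_mod (∑ i, α i j₀ + (p - 1)) p
      have h7 := hp.pos
      refine ⟨(∑ i, α i j₀ + (p - 1)) / p, ?_⟩
      omega

theorem mono_log {p : ℕ} [Fact p.Prime] [CharP K p] {x : Fin n → K}
    (hx : IsDiffBasis k x) (hx0 : ∀ i, x i ≠ 0) {T : K → K} (h : Pre Ψ p x T)
    (α : Fin n → Fin n → ℕ) :
    T ((∏ i, ∏ j, x j ^ α i j) ^ (p - 1) * W Ψ fun i => ∏ j, x j ^ α i j) =
      W Ψ fun i => ∏ j, x j ^ α i j := by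
  have hp : p.Prime := Fact.out
  rw [W_mono Ψ hx hx0]
  set N : K := (((Matrix.of fun i j => (α i j : ℤ)).det : ℤ) : K) with hN
  have hNp : N ^ p = N := intCast_pow_char p _
  have hX : (∏ j, x j) ≠ 0 := Finset.prod_ne_zero_iff.2 fun j _ => hx0 j
  set F : K := ∏ i, ∏ j, x j ^ α i j with hF
  have h1 : F ^ (p - 1) * (N * (F * (∏ j, x j)⁻¹) * Ψ fun i => D k K (x i)) =
      (N * (F * (∏ j, x j)⁻¹)) ^ p *
        ((∏ i, x i ^ (p - 1)) * Ψ fun i => D k K (x i)) := by
    rw [Finset.prod_pow]
    have h3 : (∏ j, x j) ^ p = (∏ j, x j) ^ (p - 1) * (∏ j, x j) := by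
      rw [← pow_succ, Nat.sub_add_cancel hp.pos]
    have h4 : F ^ p = F ^ (p - 1) * F := by
      rw [← pow_succ, Nat.sub_add_cancel hp.pos]
    rw [mul_pow, mul_pow, inv_pow, h3, h4, hNp]
    field_simp
  have h5 := h.top (fun _ => ⟨p - 1, Nat.sub_lt hp.pos one_pos⟩)
    (fun _ => Nat.sub_add_cancel hp.pos)
  rw [h1, h.pow, h5]

theorem exact_of_pre {p : ℕ} [Fact p.Prime] [CharP K p] {x : Fin n → K} (hn : 1 ≤ n)
    (hx : IsDiffBasis k x) (hx0 : ∀ i, x i ≠ 0)
    (hspan : ∀ a : K, ∃ c : (Fin n → Fin p) → K, a = ∑ α, c α ^ p * ∏ i, x i ^ (α i : ℕ))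
    {T : K → K} (h : Pre Ψ p x T) (f : Fin n → K) : T (W Ψ f) = 0 := by
  have hp : p.Prime := Fact.out
  refine tuple_induction p hp.ne_zero x hspan (fun f => T (W Ψ f) = 0) ?_ ?_ ?_ f
  · intro α
    exact mono_exact hn hx hx0 h fun i j => (α i j : ℕ)
  · intro f i a b ha hb
    rw [W_add, h.add, ha, hb, add_zero]
  · intro f i c a ha
    rw [W_smul, h.pow, ha, mul_zero]

theorem log_of_pre {p : ℕ} [Fact p.Prime] [CharP K p] {x : Fin n → K} (hn : 1 ≤ n)
    (hx : IsDiffBasis k x) (hx0 : ∀ i, x i ≠ 0)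
    (hspan : ∀ a : K, ∃ c : (Fin n → Fin p) → K, a = ∑ α, c α ^ p * ∏ i, x i ^ (α i : ℕ))
    {T : K → K} (h : Pre Ψ p x T) (f : Fin n → K) : T ((∏ i, f i) ^ (p - 1) * W Ψ f) = W Ψ f := by
  have hp : p.Prime := Fact.out
  refine tuple_induction p hp.ne_zero x hspan
    (fun f => T ((∏ i, f i) ^ (p - 1) * W Ψ f) = W Ψ f) ?_ ?_ ?_ f
  · intro α
    exact mono_log hx hx0 h fun i j => (α i j : ℕ)
  · intro f i a b ha hb
    have hprod : ∀ c : K, ∏ l, Function.update f i c l = c * ∏ l ∈ Finset.univ \ {i}, f l :=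
      fun c => Finset.prod_update_of_mem (Finset.mem_univ i) f c
    set g : K := ∏ l ∈ Finset.univ \ {i}, f l with hg
    simp only [hprod] at ha hb ⊢
    obtain ⟨φ, hφ⟩ := key_identity (k := k) p a b
    -- `V ω` is the form with the `i`-th entry replaced
    set V : Ω[K⁄k] → K := fun ω => Ψ (Function.update (fun l => D k K (f l)) i ω) with hV
    have hVadd : ∀ ω ω', V (ω + ω') = V ω + V ω' := fun ω ω' => Ψ.map_update_add _ _ _ _
    have hVsmul : ∀ (c : K) ω, V (c • ω) = c * V ω := fun c ω => Ψ.map_update_smul _ _ _ _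
    have hVf : ∀ l, l ≠ i → V (D k K (f l)) = 0 := by
      intro l hl
      refine Ψ.map_eq_zero_of_eq _ (i := l) (j := i) ?_ hl
      rw [Function.update_self, Function.update_of_ne hl]
    have hVprod : ∀ s : Finset (Fin n), i ∉ s → V (D k K (∏ l ∈ s, f l)) = 0 := by
      intro s
      induction s using Finset.induction_on with
      | empty =>
        intro _
        have := hVsmul 0 0
        simpa using this
      | insert l s hl ih =>
        intro hi
        rw [Finset.prod_insert hl, Derivation.leibniz, hVadd, hVsmul, hVsmul,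
          ih (fun hh => hi (Finset.mem_insert_of_mem hh)),
          hVf l (by rintro rfl; exact hi (Finset.mem_insert_self _ _))]
        simp
    have hVg : V (D k K g) = 0 := hVprod _ (by simp)
    have hW : ∀ c, W Ψ (Function.update f i c) = V (D k K c) := fun c => W_update Ψ f i c
    have h1 : g ^ (p - 1) * V (D k K φ) = W Ψ (Function.update f i (g ^ (p - 1) * φ)) := by
      rw [hW, Derivation.leibniz, hVadd, hVsmul, hVsmul, Derivation.leibniz_pow,
        ← Nat.cast_smul_eq_nsmul K, hVsmul, hVsmul, hVg]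
      ring
    have h2 : ((a + b) * g) ^ (p - 1) * W Ψ (Function.update f i (a + b)) =
        (a * g) ^ (p - 1) * W Ψ (Function.update f i a) +
        ((b * g) ^ (p - 1) * W Ψ (Function.update f i b) +
          W Ψ (Function.update f i (g ^ (p - 1) * φ))) := by
      rw [← h1, hW, hW, hW]
      have h3 := congrArg V hφ
      rw [hVadd, hVadd, hVsmul, hVsmul, hVsmul] at h3
      rw [mul_pow, mul_pow, mul_pow]
      linear_combination (g ^ (p - 1)) * h3
    rw [h2, h.add, h.add, ha, hb, exact_of_pre hn hx hx0 hspan h, add_zero, W_add]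
  · intro f i c a ha
    have hprod : ∀ c : K, ∏ l, Function.update f i c l = c * ∏ l ∈ Finset.univ \ {i}, f l :=
      fun c => Finset.prod_update_of_mem (Finset.mem_univ i) f c
    simp only [hprod] at ha ⊢
    rw [W_smul]
    have h1 : (c ^ p * a * ∏ l ∈ Finset.univ \ {i}, f l) ^ (p - 1) *
        (c ^ p * W Ψ (Function.update f i a)) =
        (c ^ p) ^ p * ((a * ∏ l ∈ Finset.univ \ {i}, f l) ^ (p - 1) *
          W Ψ (Function.update f i a)) := by
      have h2 : (c ^ p) ^ p = (c ^ p) ^ (p - 1) * c ^ p := by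
        rw [← pow_succ, Nat.sub_add_cancel hp.pos]
      rw [h2, mul_assoc (c ^ p), mul_pow]
      ring
    rw [h1, h.pow, ha]

theorem isFrobTrace_of_pre {p : ℕ} [Fact p.Prime] [CharP K p] {x : Fin n → K} (hn : 1 ≤ n)
    (hx : IsDiffBasis k x) (hx0 : ∀ i, x i ≠ 0)
    (hspan : ∀ a : K, ∃ c : (Fin n → Fin p) → K, a = ∑ α, c α ^ p * ∏ i, x i ^ (α i : ℕ))
    {T : K → K} (h : Pre Ψ p x T) : IsFrobTrace k Ψ p T where
  map_add := h.add
  map_pow_mul := h.pow
  map_exact f := exact_of_pre hn hx hx0 hspan h f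
  map_log f := log_of_pre hn hx hx0 hspan h f

theorem exists_pre {p : ℕ} [Fact p.Prime] [CharP K p] {x : Fin n → K}
    (hx : IsDiffBasis k x) (hΨ : Ψ ≠ 0)
    (hspan : ∀ a : K, ∃ c : (Fin n → Fin p) → K, a = ∑ α, c α ^ p * ∏ i, x i ^ (α i : ℕ)) :
    ∃ T : K → K, Pre Ψ p x T := by
  have hp : p.Prime := Fact.out
  obtain ⟨E, u, hu, hE⟩ := exists_top (k := k) p x hx
  have hψ := psi_ne_zero Ψ hx hΨ
  set ψ : K := Ψ fun i => D k K (x i) with hψd
  -- the top coefficient
  choose C hC using hspan
  set top : Fin n → Fin p := fun _ => ⟨p - 1, Nat.sub_lt hp.pos one_pos⟩ with htop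
  set t : K → K := fun a => C a top with ht
  have htE : ∀ a, E a = u * t a ^ p := fun a => by
    conv_lhs => rw [hC a]
    exact hE (C a)
  have hinj : ∀ a b : K, u * a ^ p = u * b ^ p → a = b := by
    intro a b hab
    have := mul_left_cancel₀ hu hab
    exact frobenius_inj K p (by simpa [frobenius_def] using this)
  have htadd : ∀ a b, t (a + b) = t a + t b := by
    intro a b
    apply hinj
    rw [← htE, map_add, htE, htE, add_pow_char, mul_add]
  have htpow : ∀ a b, t (a ^ p * b) = a * t b := by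
    intro a b
    apply hinj
    rw [← htE]
    conv_lhs => rw [hC b, Finset.mul_sum]
    have : ∀ α, a ^ p * (C b α ^ p * ∏ i, x i ^ (α i : ℕ)) =
        (a * C b α) ^ p * ∏ i, x i ^ (α i : ℕ) := fun α => by rw [mul_pow]; ring
    simp only [this]
    rw [hE]
  have htmono : ∀ α : Fin n → Fin p, t (∏ i, x i ^ (α i : ℕ)) = if α = top then 1 else 0 := by
    intro α
    apply hinj
    rw [← htE]
    have h1 : ∏ i, x i ^ (α i : ℕ) =
        ∑ β, (if β = α then (1 : K) else 0) ^ p * ∏ i, x i ^ (β i : ℕ) := by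
      rw [Finset.sum_eq_single α]
      · simp
      · intro β _ hβ
        rw [if_neg hβ, zero_pow hp.ne_zero, zero_mul]
      · intro h; exact absurd (Finset.mem_univ _) h
    rw [h1, hE]
    congr 2
    by_cases h2 : α = top
    · rw [if_pos h2, if_pos h2.symm]
    · rw [if_neg h2, if_neg (fun h3 => h2 h3.symm)]
  refine ⟨fun F => t (F / ψ) * ψ, fun a b => ?_, fun a b => ?_, fun α hα => ?_, fun α hα => ?_⟩
  · rw [add_div, htadd, add_mul]
  · rw [mul_div_assoc, htpow, mul_assoc]
  · rw [mul_div_cancel_right₀ _ hψ, htmono, if_pos, one_mul]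
    ext i
    have := hα i
    simp only [htop]
    omega
  · rw [mul_div_cancel_right₀ _ hψ, htmono, if_neg, zero_mul]
    rintro rfl
    obtain ⟨i, hi⟩ := hα
    apply hi
    simp only [htop]
    exact Nat.sub_add_cancel hp.pos

end main

end TE

theorem traceExists_of : TraceExists.{u} := by
  intro hPB hTM k K _ _ _ _ p _ _ _ n x hn hx Ψ hΨ
  have hp : p.Prime := Fact.out
  have : CharP K p := charP_of_injective_algebraMap (algebraMap k K).injective p
  have hspan := hPB k K p n x hx
  have hx0 : ∀ i, x i ≠ 0 := by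
    intro i hi
    obtain ⟨b, hb⟩ := hx
    apply b.ne_zero i
    rw [hb i, hi, map_zero]
  obtain ⟨T, hT⟩ := TE.exists_pre hx hΨ hspan
  have hTr := TE.isFrobTrace_of_pre hn hx hx0 hspan hT
  refine ⟨T, hTr, fun T' hT' => ?_⟩
  have hψ := psi_ne_zero Ψ hx hΨ
  have hzero : ∀ S : K → K, IsFrobTrace k Ψ p S → S 0 = 0 := by
    intro S hS
    have := hS.map_add 0 0
    rw [add_zero] at this
    exact left_eq_add.1 this
  have hsum : ∀ S : K → K, IsFrobTrace k Ψ p S → ∀ (s : Finset (Fin n → Fin p))
      (g : (Fin n → Fin p) → K), S (∑ α ∈ s, g α) = ∑ α ∈ s, S (g α) := by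
    intro S hS s g
    induction s using Finset.induction_on with
    | empty => simpa using hzero S hS
    | insert a s ha ih => rw [Finset.sum_insert ha, hS.map_add, ih, Finset.sum_insert ha]
  funext F
  obtain ⟨c, hc⟩ := hspan (F / Ψ fun i => D k K (x i))
  have hF : F = ∑ α, c α ^ p * ((∏ i, x i ^ (α i : ℕ)) * Ψ fun i => D k K (x i)) := by
    have h1 : F = (F / Ψ fun i => D k K (x i)) * Ψ fun i => D k K (x i) :=
      (div_mul_cancel₀ _ hψ).symm
    rw [hc, Finset.sum_mul] at h1
    rw [h1]
    exact Finset.sum_congr rfl fun α _ => by rw [mul_assoc]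
  rw [hF, hsum T' hT', hsum T hTr]
  refine Finset.sum_congr rfl fun α _ => ?_
  rw [hT'.map_pow_mul, hTr.map_pow_mul]
  congr 1
  have h1 := hTM k K p n Ψ T' hT' x α
  have h2 := hTM k K p n Ψ T hTr x α
  by_cases h : ∀ i, (α i : ℕ) + 1 = p
  · rw [h1.1 h, h2.1 h]
  · push Not at h
    rw [h1.2 h, h2.2 h]

end Pool.Agent.Lib.MP_8bcb2e_ag
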