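import Pool.Agent.Lib.MP_8bcb2e_ag.TraceSections

/-!
# Functions and forms with poles bounded by a multiple of a divisor of `|rK_X|`
-/

set_option autoImplicit false

universe u

namespace Pool.Agent.Lib.MP_8bcb2e_ag

open KaehlerDifferential

section

variable {k K : Type u} [Field k] [Field K] [Algebra k K] {n : ℕ}
  {Ψ : Ω[K⁄k] [⋀^Fin n]→ₗ[K] K} {𝒪 : Set (Subring K)}

theorem algebraMap_mem_sections (h𝒪 : IsSmoothModel k n 𝒪) (c : k) :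
    algebraMap k K c ∈ sections k Ψ 𝒪 0 := by
  intro O hO
  obtain ⟨x, hx⟩ := h𝒪.coord O hO
  exact (regularAt_iff Ψ hx _ _).2 ⟨algebraMap k K c, h𝒪.base O hO c, by ring⟩

theorem mul_pow_mem_mono (h𝒪 : IsSmoothModel k n 𝒪) {r s : ℕ} {S : K} (hS : S ∈ sections k Ψ 𝒪 r)
    {a : K} {N N' : ℕ} (hNN : N ≤ N') (h : a * S ^ N ∈ sections k Ψ 𝒪 (s + N * r)) :
    a * S ^ N' ∈ sections k Ψ 𝒪 (s + N' * r) := by
  obtain ⟨d, rfl⟩ := Nat.exists_eq_add_of_le hNN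
  have h1 := sections_mul h𝒪 h (sections_pow h𝒪 hS d)
  have h2 : s + (N + d) * r = s + N * r + d * r := by ring
  rw [h2, pow_add, ← mul_assoc]
  exact h1

/-- the algebra of functions with poles only along the divisor of `S` -/
def bdd (h𝒪 : IsSmoothModel k n 𝒪) {r : ℕ} {S : K} (hS : S ∈ sections k Ψ 𝒪 r) :
    Subalgebra k K where
  carrier := {a | ∃ N : ℕ, a * S ^ N ∈ sections k Ψ 𝒪 (N * r)}
  mul_mem' := by
    rintro a b ⟨N, hN⟩ ⟨N', hN'⟩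
    refine ⟨N + N', ?_⟩
    have h := sections_mul h𝒪 hN hN'
    have h1 : a * b * S ^ (N + N') = a * S ^ N * (b * S ^ N') := by ring
    rw [h1, add_mul]
    exact h
  add_mem' := by
    rintro a b ⟨N, hN⟩ ⟨N', hN'⟩
    have h1 := mul_pow_mem_mono (s := 0) h𝒪 hS (le_max_left N N') (by simpa using hN)
    have h2 := mul_pow_mem_mono (s := 0) h𝒪 hS (le_max_right N N') (by simpa using hN')
    refine ⟨max N N', ?_⟩
    have h3 := sections_add h𝒪 h1 h2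
    rw [zero_add] at h3
    rwa [add_mul]
  algebraMap_mem' c := ⟨0, by simpa using algebraMap_mem_sections h𝒪 c⟩

theorem mem_bdd (h𝒪 : IsSmoothModel k n 𝒪) {r : ℕ} {S : K} (hS : S ∈ sections k Ψ 𝒪 r) {a : K} :
    a ∈ bdd h𝒪 hS ↔ ∃ N : ℕ, a * S ^ N ∈ sections k Ψ 𝒪 (N * r) := Iff.rfl

theorem adjoin_le_bdd (h𝒪 : IsSmoothModel k n 𝒪) {r : ℕ} {S : K} (hS : S ∈ sections k Ψ 𝒪 r)
    {ν : ℕ} {t : Fin ν → K} (ht : ∀ i, t i * S ∈ sections k Ψ 𝒪 r) :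
    Algebra.adjoin k (Set.range t) ≤ bdd h𝒪 hS := by
  rw [Algebra.adjoin_le_iff]
  rintro _ ⟨i, rfl⟩
  exact ⟨1, by simpa using ht i⟩

/-- a common denominator -/
theorem exists_common (h𝒪 : IsSmoothModel k n 𝒪) {r : ℕ} {S : K} (hS : S ∈ sections k Ψ 𝒪 r)
    (A : Subalgebra k K) (hA : A ≤ bdd h𝒪 hS)
    (h : ∀ a : K, ∃ g ∈ A, g ≠ 0 ∧ g * a ∈ bdd h𝒪 hS) (u : Fin n → K) :
    ∃ g ∈ A, g ≠ 0 ∧ ∀ i, g * u i ∈ bdd h𝒪 hS := by
  choose g hgA hg0 hg using fun i => h (u i)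
  refine ⟨∏ i, g i, prod_mem fun i _ => hgA i, Finset.prod_ne_zero_iff.2 fun i _ => hg0 i, fun i => ?_⟩
  rw [← Finset.mul_prod_erase _ _ (Finset.mem_univ i), mul_comm (g i), mul_assoc]
  exact mul_mem (hA (prod_mem fun j _ => hgA j)) (hg i)

/-- a nonzero form with bounded poles -/
theorem exists_form (hW : WSection.{u}) (h𝒪 : IsSmoothModel k n 𝒪) (hΨ : Ψ ≠ 0) {r : ℕ} {S : K}
    (hS0 : S ≠ 0) (hS : S ∈ sections k Ψ 𝒪 r) (A : Subalgebra k K) (hA : A ≤ bdd h𝒪 hS)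
    (h : ∀ a : K, ∃ g ∈ A, g ≠ 0 ∧ g * a ∈ bdd h𝒪 hS) {u : Fin n → K} (hu : IsDiffBasis k u) :
    ∃ (F : K) (N : ℕ), F ≠ 0 ∧ F * S ^ N ∈ sections k Ψ 𝒪 (1 + N * r) := by
  obtain ⟨g, hgA, hg0, hg⟩ := exists_common h𝒪 hS A hA h u
  obtain ⟨N₀, hN₀⟩ := (mem_bdd h𝒪 hS).1 (hA hgA)
  choose N hN using fun i => (mem_bdd h𝒪 hS).1 (hg i)
  let M := N₀ + ∑ i, N i
  have hM : ∀ i, N i ≤ M := fun i => by
    have := Finset.single_le_sum (f := N) (fun j _ => Nat.zero_le _) (Finset.mem_univ i)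
    omega
  have hy₀ : g * S ^ M ∈ sections k Ψ 𝒪 (M * r) := by
    have := mul_pow_mem_mono (s := 0) h𝒪 hS (show N₀ ≤ M by omega) (by simpa using hN₀)
    simpa using this
  have hy : ∀ i, g * u i * S ^ M ∈ sections k Ψ 𝒪 (M * r) := fun i => by
    have := mul_pow_mem_mono (s := 0) h𝒪 hS (hM i) (by simpa using hN i)
    simpa using this
  have hy₀0 : g * S ^ M ≠ 0 := mul_ne_zero hg0 (pow_ne_zero _ hS0)
  have hw := hW k K n Ψ 𝒪 hΨ h𝒪 (M * r) (g * S ^ M) (fun i => g * u i * S ^ M) hy₀0 hy₀ hy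
  have hquot : (fun i => D k K (g * u i * S ^ M / (g * S ^ M))) = fun i => D k K (u i) := by
    ext i
    congr 1
    have := pow_ne_zero M hS0
    field_simp
  rw [hquot] at hw
  have hSM : S ^ ((n + 1) * M) ≠ 0 := pow_ne_zero _ hS0
  refine ⟨(g * S ^ M) ^ (n + 1) * (Ψ fun i => D k K (u i)) / S ^ ((n + 1) * M), (n + 1) * M, ?_, ?_⟩
  · exact div_ne_zero (mul_ne_zero (pow_ne_zero _ hy₀0) (psi_ne_zero Ψ hu hΨ)) hSM
  · rw [div_mul_cancel₀ _ hSM, mul_assoc (n + 1) M r]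
    exact hw

/-- all forms are combinations over `k(t)` of forms with bounded poles -/
theorem mem_span_bounded (hW : WSection.{u}) (h𝒪 : IsSmoothModel k n 𝒪) (hΨ : Ψ ≠ 0) {r : ℕ} {S : K}
    (hS0 : S ≠ 0) (hS : S ∈ sections k Ψ 𝒪 r) {ν : ℕ} {t : Fin ν → K}
    (ht : ∀ i, t i * S ∈ sections k Ψ 𝒪 r)
    (h : ∀ a : K, ∃ g ∈ Algebra.adjoin k (Set.range t), g ≠ 0 ∧ ∃ N : ℕ,
      g * a * S ^ N ∈ sections k Ψ 𝒪 (N * r)) {u : Fin n → K} (hu : IsDiffBasis k u) (a : K) :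
    ∃ N, a ∈ Submodule.span (IntermediateField.adjoin k (Set.range t))
      {F : K | F * S ^ N ∈ sections k Ψ 𝒪 (1 + N * r)} := by
  obtain ⟨F, N, hF0, hF⟩ := exists_form hW h𝒪 hΨ hS0 hS (Algebra.adjoin k (Set.range t))
    (adjoin_le_bdd h𝒪 hS ht) h hu
  obtain ⟨g, hgA, hg0, N', hg⟩ := h (a / F)
  refine ⟨N + N', ?_⟩
  have hgE : g ∈ IntermediateField.adjoin k (Set.range t) :=
    IntermediateField.algebra_adjoin_le_adjoin k _ hgA
  have h1 : a = (⟨g, hgE⟩ : IntermediateField.adjoin k (Set.range t))⁻¹ • (g * a) := by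
    rw [IntermediateField.smul_def]
    simp only [IntermediateField.coe_inv, smul_eq_mul]
    field_simp
  rw [h1]
  refine Submodule.smul_mem _ _ (Submodule.subset_span ?_)
  have h2 := sections_mul h𝒪 hF hg
  have h3 : g * a * S ^ (N + N') = F * S ^ N * (g * (a / F) * S ^ N') := by
    rw [pow_add]
    field_simp
  have h4 : 1 + (N + N') * r = 1 + N * r + N' * r := by ring
  change g * a * S ^ (N + N') ∈ sections k Ψ 𝒪 (1 + (N + N') * r)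
  rw [h3, h4]
  exact h2

end

end Pool.Agent.Lib.MP_8bcb2e_ag
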