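import Pool.Agent.Lib.MP_8bcb2e_ag.Spec

/-!
# Local coordinates at the points of a smooth variety
-/

set_option autoImplicit false

universe u

namespace Pool.Agent.Lib.MP_8bcb2e_ag

open KaehlerDifferential AlgebraicGeometry CategoryTheory

namespace SchemeCoordAux

/-- A standard smooth algebra of relative dimension `n` has a basis of differentials. -/
theorem exists_basis (k B : Type u) [CommRing k] [CommRing B] [Algebra k B] (n : ℕ)
    [Algebra.IsStandardSmoothOfRelativeDimension n k B] :
    ∃ (y : Fin n → B) (b : Module.Basis (Fin n) B Ω[B⁄k]), ∀ i, b i = D k B (y i) := by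
  obtain ⟨ι, σ, hσ, hι, P, hP⟩ :=
    ‹Algebra.IsStandardSmoothOfRelativeDimension n k B›
  have hcard : Nat.card ((Set.range P.map)ᶜ : Set ι) = n := by
    have h1 : Nat.card ((Set.range P.map)ᶜ : Set ι) + Nat.card (Set.range P.map) = Nat.card ι := by
      rw [add_comm]
      exact Set.ncard_add_ncard_compl (Set.range P.map)
    have h2 : Nat.card (Set.range P.map) = Nat.card σ := Nat.card_range_of_injective P.map_inj
    have h3 : Nat.card ι - Nat.card σ = n := hP
    omega
  let e : ((Set.range P.map)ᶜ : Set ι) ≃ Fin n := Finite.equivFinOfCardEq hcard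
  refine ⟨fun i => P.val (e.symm i), P.basisKaehler.reindex e, fun i => ?_⟩
  rw [Module.Basis.reindex_apply, P.basisKaehler_apply]

/-- Coordinates along a localization of an algebra with a basis of differentials. -/
theorem isCoord_of_basis {k B K : Type u} [Field k] [CommRing B] [Field K] [Algebra k B]
    [Algebra B K] [Algebra k K] [IsScalarTower k B K] [IsDomain B] [IsFractionRing B K] {n : ℕ}
    (y : Fin n → B) (b : Module.Basis (Fin n) B Ω[B⁄k]) (hb : ∀ i, b i = D k B (y i))
    (O : Subring K) (hB : ∀ β : B, algebraMap B K β ∈ O)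
    (hO : ∀ a ∈ O, ∃ β s : B, s ≠ 0 ∧ (algebraMap B K s)⁻¹ ∈ O ∧
      a = algebraMap B K β * (algebraMap B K s)⁻¹) :
    IsCoord k O (fun i => algebraMap B K (y i)) := by
  let M := nonZeroDivisors B
  let bK : Module.Basis (Fin n) K Ω[K⁄k] :=
    b.ofIsLocalizedModule K M (KaehlerDifferential.map k k B K)
  have hbK : ∀ i, bK i = D k K (algebraMap B K (y i)) := by
    intro i
    rw [Module.Basis.ofIsLocalizedModule_apply, hb, map_D]
  have hD : ∀ β : B, D k K (algebraMap B K β) =
      ∑ i, algebraMap B K (b.repr (D k B β) i) • D k K (algebraMap B K (y i)) := by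
    intro β
    have h1 : D k K (algebraMap B K β) = KaehlerDifferential.map k k B K (D k B β) := by
      rw [map_D]
    rw [h1]
    conv_lhs => rw [← b.sum_repr (D k B β)]
    rw [map_sum]
    refine Finset.sum_congr rfl fun i _ => ?_
    rw [map_smul, hb, map_D, algebraMap_smul]
  refine ⟨fun i => hB _, ⟨bK, hbK⟩, fun a ha => ?_⟩
  obtain ⟨β, s, hs, hsO, rfl⟩ := hO a ha
  have hs' : algebraMap B K s ≠ 0 := by
    intro h
    exact hs (IsFractionRing.injective B K (by rw [h, map_zero]))
  refine ⟨fun i => (algebraMap B K s)⁻¹ * algebraMap B K (b.repr (D k B β) i) -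
    algebraMap B K β * ((algebraMap B K s)⁻¹ ^ 2 * algebraMap B K (b.repr (D k B s) i)),
    fun i => sub_mem (mul_mem hsO (hB _)) (mul_mem (hB _) (mul_mem (pow_mem hsO 2) (hB _))), ?_⟩
  rw [Derivation.leibniz, Derivation.leibniz_inv, hD β, hD s]
  simp only [Finset.smul_sum, smul_smul, sub_smul, Finset.sum_sub_distrib]
  rw [add_comm, sub_eq_add_neg, ← Finset.sum_neg_distrib]
  congr 1
  refine Finset.sum_congr rfl fun i _ => ?_
  rw [← neg_smul]
  congr 1
  ring

end SchemeCoordAux

open SchemeCoordAux

theorem schemeCoord_of : SchemeCoord.{u} := by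
  intro k _ X _ n f _ x
  obtain ⟨U, hU, V, hV, hx, e, hf⟩ :=
    SmoothOfRelativeDimension.exists_isStandardSmoothOfRelativeDimension (n := n) (f := f) x
  -- `U` is everything
  obtain rfl : U = ⊤ := by
    apply TopologicalSpace.Opens.ext
    have hfx : f x ∈ U := e hx
    ext z
    have : Subsingleton (Spec (.of k)) := inferInstanceAs (Subsingleton (PrimeSpectrum k))
    simp [Subsingleton.elim z (f x), hfx]
  have hne : Nonempty V := ⟨⟨x, hx⟩⟩
  let g : k →+* Γ(X, V) := ((Scheme.ΓSpecIso (.of k)).inv ≫ f.appLE ⊤ V e).hom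
  have hg : g.IsStandardSmoothOfRelativeDimension n := by
    have h := RingHom.isStandardSmoothOfRelativeDimension_respectsIso (n := n) |>.2
      (f.appLE ⊤ V e).hom (Scheme.ΓSpecIso (.of k)).symm.commRingCatIsoToRingEquiv hf
    exact h
  let algKB : Algebra k Γ(X, V) := g.toAlgebra
  let algKK : Algebra k X.functionField := functionFieldAlgebra f
  have tower : IsScalarTower k Γ(X, V) X.functionField := by
    apply IsScalarTower.of_algebraMap_eq'
    have h1 : f.appLE ⊤ V e ≫ X.germToFunctionField V =
        f.appTop ≫ X.presheaf.germ ⊤ (genericPoint X) trivial := by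
      rw [Scheme.Hom.appLE, Category.assoc, X.presheaf.germ_res]
      rfl
    have h2 : ((Scheme.ΓSpecIso (.of k)).inv ≫ f.appLE ⊤ V e) ≫ X.germToFunctionField V =
        (Scheme.ΓSpecIso (.of k)).inv ≫ f.appTop ≫
          X.presheaf.germ ⊤ (genericPoint X) trivial := by
      rw [Category.assoc, h1]
    exact (congrArg CommRingCat.Hom.hom h2).symm
  have hfrac : IsFractionRing Γ(X, V) X.functionField :=
    functionField_isFractionRing_of_isAffineOpen X V hV
  have : Algebra.IsStandardSmoothOfRelativeDimension n k Γ(X, V) := hg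
  obtain ⟨y, b, hb⟩ := exists_basis k Γ(X, V) n
  refine ⟨fun i => algebraMap _ _ (y i), isCoord_of_basis y b hb (localRing X x) ?_ ?_⟩
  · intro β
    exact ⟨X.presheaf.germ V x hx β, Scheme.algebraMap_germ_eq_germToFunctionField X hx β⟩
  · rintro _ ⟨z, rfl⟩
    let algS := TopCat.Presheaf.algebra_section_stalk X.presheaf (⟨x, hx⟩ : V)
    have hloc := hV.isLocalization_stalk ⟨x, hx⟩
    obtain ⟨β, s, rfl⟩ := IsLocalization.exists_mk'_eq
      (hV.primeIdealOf ⟨x, hx⟩).asIdeal.primeCompl z
    have hgerm : ∀ β : Γ(X, V), algebraMap Γ(X, V) (X.presheaf.stalk x) β =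
        X.presheaf.germ V x hx β := fun _ => rfl
    have hK : ∀ β : Γ(X, V), algebraMap (X.presheaf.stalk x) X.functionField
        (algebraMap Γ(X, V) (X.presheaf.stalk x) β) = algebraMap Γ(X, V) X.functionField β :=
      fun β => Scheme.algebraMap_germ_eq_germToFunctionField X hx β
    obtain ⟨w, hw⟩ := (IsLocalization.map_units (X.presheaf.stalk x) s).exists_right_inv
    have hw' : algebraMap Γ(X, V) X.functionField s *
        algebraMap (X.presheaf.stalk x) X.functionField w = 1 := by
      rw [← hK, ← map_mul, hw, map_one]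
    have hs0 : algebraMap Γ(X, V) X.functionField s ≠ 0 := left_ne_zero_of_mul_eq_one hw'
    have hinv : (algebraMap Γ(X, V) X.functionField s)⁻¹ =
        algebraMap (X.presheaf.stalk x) X.functionField w :=
      (eq_inv_of_mul_eq_one_right hw').symm
    refine ⟨β, s, fun h => hs0 (by rw [h, map_zero]), ⟨w, hinv.symm⟩, ?_⟩
    rw [eq_mul_inv_iff_mul_eq₀ hs0, ← hK, ← hK, ← map_mul, IsLocalization.mk'_spec]

end Pool.Agent.Lib.MP_8bcb2e_ag
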