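import Pool.Agent.Lib.MP_8bcb2e_ag.Spec

/-!
# Integral elements give sections of multiples
-/

set_option autoImplicit false

universe u

namespace Pool.Agent.Lib.MP_8bcb2e_ag

open KaehlerDifferential Polynomial

open scoped IntermediateField.algebraAdjoinAdjoin

namespace IntegralSectionsAux

/-- If the coefficients of a monic polynomial with root `z` become elements of `O` after
multiplication by `s ∈ O`, then `s z` is integral over `O`. -/
theorem isIntegral_of_coeff {K : Type u} [Field K] (O : Subring K) (Q : K[X]) (hQ : Q.Monic) (z s : K)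
    (hz : Q.eval z = 0) (hs : s ∈ O) (h : ∀ i, Q.coeff i * s ∈ O) : IsIntegral O (s * z) := by
  have hc : ∀ i, (Q.scaleRoots s).coeff i ∈ O := by
    intro i
    rw [coeff_scaleRoots]
    rcases lt_trichotomy i Q.natDegree with hi | hi | hi
    · obtain ⟨m, hm⟩ : ∃ m, Q.natDegree - i = m + 1 := ⟨Q.natDegree - i - 1, by omega⟩
      rw [hm, pow_succ', ← mul_assoc]
      exact mul_mem (h i) (pow_mem hs m)
    · subst hi
      rw [hQ.coeff_natDegree]
      simp
    · rw [coeff_eq_zero_of_natDegree_lt hi, zero_mul]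
      exact zero_mem O
  have hsub : (↑(Q.scaleRoots s).coeffs : Set K) ⊆ O := by
    intro y hy
    rw [Finset.mem_coe, mem_coeffs_iff] at hy
    obtain ⟨i, -, rfl⟩ := hy
    exact hc i
  refine ⟨(Q.scaleRoots s).toSubring O hsub, ?_, ?_⟩
  · rw [monic_toSubring]
    exact (monic_scaleRoots_iff s).2 hQ
  · have e1 : eval₂ (algebraMap O K) (s * z) ((Q.scaleRoots s).toSubring O hsub) =
        eval (s * z) (Q.scaleRoots s) := by
      conv_rhs => rw [← map_toSubring (Q.scaleRoots s) O hsub]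
      rw [eval_map]
      rfl
    rw [e1]
    have := scaleRoots_eval₂_eq_zero (RingHom.id K) (r := z) (s := s) (p := Q)
      (by rw [eval₂_id]; exact hz)
    rwa [eval₂_id, RingHom.id_apply] at this

end IntegralSectionsAux

open IntegralSectionsAux

theorem integralSections_of : IntegralSections.{u} := by
  intro k K _ _ _ n Ψ 𝒪 hΨ h𝒪 r ν t S hS hSr ht halg a
  have hA : Algebra.IsAlgebraic (Algebra.adjoin k (Set.range t)) K :=
    (IsFractionRing.comap_isAlgebraic_iff
      (K := IntermediateField.adjoin k (Set.range t))).mpr halg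
  obtain ⟨g, hg0, P, hPm, hP⟩ := (hA.isAlgebraic a).exists_integral_multiple
  -- elements of `k[t]`
  have hbound : ∀ c ∈ Algebra.adjoin k (Set.range t), ∃ N₀ : ℕ, ∀ N ≥ N₀,
      c * S ^ N ∈ sections k Ψ 𝒪 (N * r) := by
    intro c hc
    induction hc using Algebra.adjoin_induction with
    | mem y hy =>
      obtain ⟨i, rfl⟩ := hy
      refine ⟨1, fun N hN => ?_⟩
      obtain ⟨N, rfl⟩ := Nat.exists_eq_add_of_le hN
      have h := sections_mul h𝒪 (ht i) (sections_pow h𝒪 hSr N)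
      have e1 : t i * S ^ (1 + N) = t i * S * S ^ N := by rw [pow_add, pow_one]; ring
      have e2 : (1 + N) * r = r + N * r := by ring
      rw [e1, e2]
      exact h
    | algebraMap c => exact ⟨0, fun N _ => sections_smul h𝒪 c (sections_pow h𝒪 hSr N)⟩
    | add y z _ _ hy hz =>
      obtain ⟨N₁, h₁⟩ := hy
      obtain ⟨N₂, h₂⟩ := hz
      refine ⟨max N₁ N₂, fun N hN => ?_⟩
      rw [add_mul]
      exact sections_add h𝒪 (h₁ N ((le_max_left _ _).trans hN)) (h₂ N ((le_max_right _ _).trans hN))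
    | mul y z _ _ hy hz =>
      obtain ⟨N₁, h₁⟩ := hy
      obtain ⟨N₂, h₂⟩ := hz
      refine ⟨N₁ + N₂, fun N hN => ?_⟩
      obtain ⟨N, rfl⟩ := Nat.exists_eq_add_of_le hN
      have h := sections_mul h𝒪 (h₁ N₁ le_rfl) (h₂ (N₂ + N) (by omega))
      have e1 : y * z * S ^ (N₁ + N₂ + N) = y * S ^ N₁ * (z * S ^ (N₂ + N)) := by
        rw [add_assoc, pow_add]; ring
      have e2 : (N₁ + N₂ + N) * r = N₁ * r + (N₂ + N) * r := by ring
      rw [e1, e2]
      exact h
  choose! N₀ hN₀ using hbound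
  obtain ⟨N, hN⟩ : ∃ N : ℕ, ∀ i, ((P.coeff i : Algebra.adjoin k (Set.range t)) : K) * S ^ N ∈
      sections k Ψ 𝒪 (N * r) := by
    refine ⟨∑ i ∈ Finset.range (P.natDegree + 1), N₀ (P.coeff i : K), fun i => ?_⟩
    by_cases hi : i ≤ P.natDegree
    · refine hN₀ _ (P.coeff i).2 _ ?_
      exact Finset.single_le_sum (f := fun i => N₀ (P.coeff i : K)) (fun _ _ => Nat.zero_le _)
        (Finset.mem_range.2 (by omega))
    · rw [coeff_eq_zero_of_natDegree_lt (by omega)]
      simpa using sections_zero h𝒪 _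
  refine ⟨g, g.2, fun h => hg0 (Subtype.ext h), N, fun O hO => ?_⟩
  obtain ⟨x, hx⟩ := h𝒪.coord O hO
  have hJ : Ψ (fun i => D k K (x i)) ≠ 0 := psi_ne_zero Ψ hx.basis hΨ
  set J := Ψ (fun i => D k K (x i)) with hJdef
  obtain ⟨σ, hσ, hSσ⟩ := (regularAt_iff Ψ hx r S).1 (hSr O hO)
  rw [regularAt_iff Ψ hx]
  have hJN : J ^ (N * r) ≠ 0 := pow_ne_zero _ hJ
  have hSN : S ^ N = σ ^ N * J ^ (N * r) := by
    rw [hSσ, mul_pow, ← pow_mul, mul_comm r N]
  refine ⟨σ ^ N * (g * a), ?_, by rw [hSN]; ring⟩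
  refine h𝒪.normal O hO _ (isIntegral_of_coeff O (P.map (algebraMap _ K)) (hPm.map _) _ _ ?_
    (pow_mem hσ N) fun i => ?_)
  · rw [eval_map, ← hP]
    congr 1
  · rw [coeff_map]
    obtain ⟨G, hG, h⟩ := (regularAt_iff Ψ hx _ _).1 (hN i O hO)
    rw [hSN, ← mul_assoc] at h
    have h2 := mul_right_cancel₀ hJN h
    change (P.coeff i : K) * σ ^ N ∈ O
    rw [h2]
    exact hG

end Pool.Agent.Lib.MP_8bcb2e_ag
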