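import Pool.Agent.Lib.MP_8bcb2e_ag.Spec

/-!
# Completeness of a proper variety from the valuative criterion
-/

set_option autoImplicit false

universe u

namespace Pool.Agent.Lib.MP_8bcb2e_ag

open AlgebraicGeometry CategoryTheory

/-- the structure morphism restricted to the generic point -/
theorem sc_generic {k : Type u} [Field k] {X : Scheme.{u}} [IsIntegral X]
    (f : X ⟶ Spec (.of k)) :
    X.fromSpecStalk (genericPoint X) ≫ f = Spec.map (CommRingCat.ofHom (toFunctionField f)) := by
  rw [← cancel_mono (Spec (.of k)).toSpecΓ, Category.assoc, Scheme.toSpecΓ_naturality,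
    Scheme.fromSpecStalk_toSpecΓ_assoc, ← Spec.map_comp, ← SpecMap_ΓSpecIso_hom, ← Spec.map_comp]
  congr 1
  unfold toFunctionField
  rw [CommRingCat.ofHom_hom, Iso.hom_inv_id_assoc]

theorem schemeComplete_of : SchemeComplete.{u} := by
  intro k _ X _ f _ V hV
  have hex : ValuativeCriterion.Existence f := by
    have h : ValuativeCriterion f := by
      have := (inferInstance : IsProper f)
      rw [IsProper.eq_valuativeCriterion] at this
      exact this.1.1.1
    exact h.existence
  let φ : k →+* V := (toFunctionField f).codRestrict V.toSubring hV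
  let S : ValuativeCommSq f :=
    { R := V
      K := X.functionField
      i₁ := X.fromSpecStalk (genericPoint X)
      i₂ := Spec.map (CommRingCat.ofHom φ)
      commSq := ⟨by
        rw [sc_generic, ← Spec.map_comp]
        rfl⟩ }
  obtain ⟨⟨l, hl, _⟩⟩ := (hex S).exists_lift
  change Spec (.of V) ⟶ X at l
  refine ⟨l (IsLocalRing.closedPoint V), ?_⟩
  have h1 := Scheme.Spec_stalkClosedPointTo_fromSpecStalk l
  have h2 : Spec.map (CommRingCat.ofHom (algebraMap V X.functionField)) ≫ l =
      X.fromSpecStalk (genericPoint X) := hl
  have hs : genericPoint X ⤳ l (IsLocalRing.closedPoint V) :=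
    (genericPoint_spec X).specializes trivial
  have h3 : Scheme.stalkClosedPointTo l ≫ CommRingCat.ofHom (algebraMap V X.functionField) =
      X.presheaf.stalkSpecializes hs := by
    apply Spec.map_injective
    rw [← cancel_mono (X.fromSpecStalk _), Scheme.SpecMap_stalkSpecializes_fromSpecStalk,
      Spec.map_comp, Category.assoc, h1, h2]
  rintro _ ⟨s, rfl⟩
  have h4 : algebraMap (X.presheaf.stalk (l (IsLocalRing.closedPoint V))) X.functionField s =
      (algebraMap V X.functionField) ((Scheme.stalkClosedPointTo l).hom s) := by
    have := congrArg (fun g => g.hom s) h3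
    exact this.symm
  rw [h4]
  exact ((Scheme.stalkClosedPointTo l).hom s).2

end Pool.Agent.Lib.MP_8bcb2e_ag
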