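import Pool.Agent.Lib.MP_8bcb2e_ag.Spec
import Pool.Agent.Lib.RegularUFD.Scheme

/-!
# The function field is essentially of finite type and the local rings are normal
-/

set_option autoImplicit false

universe u

open AlgebraicGeometry CategoryTheory TopologicalSpace

namespace Pool.Agent.Lib.MP_8bcb2e_ag

private lemma schemeFin_field {k : Type u} [Field k] {X : Scheme.{u}} [IsIntegral X]
    (f : X ⟶ Spec (.of k)) [LocallyOfFiniteType f] :
    letI := functionFieldAlgebra f
    Algebra.EssFiniteType k X.functionField := by
  let := functionFieldAlgebra f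
  obtain ⟨_, ⟨V, hV, rfl⟩, hxV, -⟩ :=
    X.isBasis_affineOpens.exists_subset_of_mem_open (Set.mem_univ (genericPoint X)) isOpen_univ
  have : Nonempty V := ⟨⟨_, hxV⟩⟩
  have hft : (f.appLE ⊤ V le_top).hom.FiniteType :=
    f.finiteType_appLE (isAffineOpen_top _) hV le_top
  let φ : k →+* Γ(X, V) := ((Scheme.ΓSpecIso (.of k)).inv ≫ f.appLE ⊤ V le_top).hom
  have hφ : φ.FiniteType := by
    have h1 : ((Scheme.ΓSpecIso (CommRingCat.of k)).inv).hom.FiniteType :=
      RingHom.FiniteType.of_surjective _
        (Scheme.ΓSpecIso (.of k)).symm.commRingCatIsoToRingEquiv.surjective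
    exact hft.comp h1
  algebraize [φ]
  have : Algebra.FiniteType k Γ(X, V) := hφ
  have htow : IsScalarTower k Γ(X, V) X.functionField := by
    refine IsScalarTower.of_algebraMap_eq' ?_
    change toFunctionField f = (X.germToFunctionField V).hom.comp φ
    rw [← CommRingCat.hom_comp]
    unfold toFunctionField
    have h5 : f.appLE ⊤ V le_top ≫ X.germToFunctionField V =
        f.appTop ≫ X.presheaf.germ ⊤ (genericPoint X) trivial := by
      change (f.app ⊤ ≫ X.presheaf.map _) ≫ X.germToFunctionField V = _
      rw [Category.assoc]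
      congr 1
      exact X.presheaf.germ_res (homOfLE le_top) (genericPoint X) hxV
    rw [Category.assoc, h5]
  have hfrac := functionField_isFractionRing_of_isAffineOpen X V hV
  have h2 : Algebra.EssFiniteType Γ(X, V) X.functionField :=
    Algebra.EssFiniteType.of_isLocalization _ (nonZeroDivisors Γ(X, V))
  exact Algebra.EssFiniteType.comp k Γ(X, V) X.functionField

private lemma schemeFin_base {k : Type u} [Field k] {X : Scheme.{u}} [IsIntegral X]
    (f : X ⟶ Spec (.of k)) (x : X) (c : k) : toFunctionField f c ∈ localRing X x := by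
  refine ⟨((Scheme.ΓSpecIso (.of k)).inv ≫ f.appTop ≫ X.presheaf.germ ⊤ x trivial).hom c, ?_⟩
  have h := X.presheaf.germ_stalkSpecializes (U := ⊤) (x := genericPoint X) (y := x) trivial
    ((genericPoint_spec X).specializes trivial)
  change ((Scheme.ΓSpecIso (.of k)).inv ≫ f.appTop ≫ X.presheaf.germ ⊤ x trivial ≫
    X.presheaf.stalkSpecializes ((genericPoint_spec X).specializes trivial)).hom c = _
  unfold toFunctionField
  rw [h]

private lemma schemeFin_normal {k : Type u} [Field k] {X : Scheme.{u}} [IsIntegral X]
    (f : X ⟶ Spec (.of k)) [Smooth f] (x : X) (a : X.functionField)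
    (ha : _root_.IsIntegral (localRing X x) a) : a ∈ localRing X x := by
  have := Pool.Agent.Lib.RegularUFD.ufd_stalk X f x
  let φ : X.presheaf.stalk x →+* localRing X x :=
    (algebraMap (X.presheaf.stalk x) X.functionField).rangeRestrict
  have hφ : Function.Surjective φ := RingHom.rangeRestrict_surjective _
  let : Algebra (X.presheaf.stalk x) (localRing X x) := φ.toAlgebra
  have : IsScalarTower (X.presheaf.stalk x) (localRing X x) X.functionField :=
    IsScalarTower.of_algebraMap_eq' rfl
  have hint : Algebra.IsIntegral (X.presheaf.stalk x) (localRing X x) :=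
    ⟨fun y => by
      obtain ⟨z, rfl⟩ := hφ y
      exact isIntegral_algebraMap (R := X.presheaf.stalk x) (A := localRing X x) (x := z)⟩
  have h3 : _root_.IsIntegral (X.presheaf.stalk x) a := isIntegral_trans a ha
  obtain ⟨y, hy⟩ := IsIntegrallyClosed.isIntegral_iff.mp h3
  exact ⟨y, hy⟩

/-- The function field of a smooth proper variety is essentially of finite type over the base field,
its local rings are normal and contain the base field. -/
theorem schemeFin_of : SchemeFin.{u} := by
  intro k _ X _ f _ _
  exact ⟨schemeFin_field f, fun x => ⟨fun c => schemeFin_base f x c,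
    fun a ha => schemeFin_normal f x a ha⟩⟩

end Pool.Agent.Lib.MP_8bcb2e_ag
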