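import Mathlib

/-!
# Pluricanonical forms, the Frobenius trace and the linear systems `S⁰(mK_X)`

`K` is the function field of a variety `X` over `k`. A point of `X` is given by its local ring, a
subring of `K`. A nonzero alternating form `Ψ` on the `n`-dimensional space of differentials of `K`
(`n = dim X`) identifies rational top forms with elements of `K`: let `η` be the rational top form with
`θ₁ ∧ ⋯ ∧ θ_n = Ψ (θ₁,…,θ_n) η`. The element `F` of `K` stands for the rational `m`-canonical form
`F η ^ m`.
-/

set_option autoImplicit false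

universe u

namespace Pool.Agent.Lib.MP_8bcb2e_ag

open KaehlerDifferential

section forms

variable (k : Type u) {K : Type u} [Field k] [Field K] [Algebra k K]

/-- The differentials of `K` that are regular along the subring `O`: sums of differentials `a db` with
`a` and `b` in `O`. -/
noncomputable def regDiff (O : Subring K) : AddSubgroup Ω[K⁄k] :=
  AddSubgroup.closure {θ | ∃ a ∈ O, ∃ b ∈ O, θ = a • D k K b}

variable {n : ℕ} (Ψ : Ω[K⁄k] [⋀^Fin n]→ₗ[K] K)

/-- The rational `m`-canonical form `F η ^ m` is regular at the point with local ring `O`: it is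
`G (θ₁ ∧ ⋯ ∧ θ_n) ^ m` with `G` in `O` and differentials `θᵢ` regular along `O`. -/
def RegularAt (m : ℕ) (O : Subring K) (F : K) : Prop :=
  ∃ (θ : Fin n → Ω[K⁄k]) (G : K), (∀ i, θ i ∈ regDiff k O) ∧ G ∈ O ∧ F = G * Ψ θ ^ m

/-- The space `H⁰(X, mK_X)` of the variety `X` whose points have the local rings `O ∈ 𝒪`: all `F` such
that `F η ^ m` is regular at every point. -/
def sections (𝒪 : Set (Subring K)) (m : ℕ) : Set K := {F | ∀ O ∈ 𝒪, RegularAt k Ψ m O F}

/-- `T` is the trace of the Frobenius (the Cartier operator) on the rational top forms: writing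
`C (F η) = (T F) η`, the map `C` is additive, `C (a ^ p ω) = a C ω`, `C` vanishes on exact forms and
`C ((f₁ ⋯ f_n) ^ (p - 1) df₁ ∧ ⋯ ∧ df_n) = df₁ ∧ ⋯ ∧ df_n`. -/
structure IsFrobTrace (p : ℕ) (T : K → K) : Prop where
  map_add : ∀ a b, T (a + b) = T a + T b
  map_pow_mul : ∀ a b, T (a ^ p * b) = a * T b
  map_exact : ∀ f : Fin n → K, T (Ψ fun i => D k K (f i)) = 0
  map_log : ∀ f : Fin n → K,
    T ((∏ i, f i) ^ (p - 1) * Ψ fun i => D k K (f i)) = Ψ fun i => D k K (f i)

/-- The space `S⁰(mK_X) ⊆ H⁰(X, mK_X)`: the intersection over `e ≥ 1` of the images of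
`H⁰(X, K_X + p^e (m - 1) K_X)` under the `e`-th iterate of the trace of the Frobenius. -/
def S0 (p : ℕ) (T : K → K) (𝒪 : Set (Subring K)) (m : ℕ) : Set K :=
  {F | ∀ e, 1 ≤ e → ∃ G ∈ sections k Ψ 𝒪 (1 + p ^ e * (m - 1)), T^[e] G = F}

/-- The subfield of `K` generated over `k` by the quotients of elements of `V`: the function field of
the closure of the image of the rational map defined by `V`. -/
def ratioField (V : Set K) : IntermediateField k K :=
  IntermediateField.adjoin k {c | ∃ a ∈ V, ∃ b ∈ V, c = a / b}

/-- The rational map defined by `V` is generically finite onto its image. -/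
def GenericallyFinite (V : Set K) : Prop := Algebra.IsAlgebraic (ratioField k V) K

/-- The rational map defined by `V` is birational onto its image. -/
def Birational (V : Set K) : Prop := ratioField k V = ⊤

/-- The differentials of the `x i` form a basis of the space of differentials of `K`. -/
def IsDiffBasis (x : Fin n → K) : Prop :=
  ∃ b : Module.Basis (Fin n) K Ω[K⁄k], ∀ i, b i = D k K (x i)

/-- `x` is a system of local coordinates along `O`: the `x i` are in `O`, their differentials form a
basis of the differentials of `K`, and the differentials of the elements of `O` are combinations of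
the `d(x i)` with coefficients in `O`. -/
structure IsCoord (O : Subring K) (x : Fin n → K) : Prop where
  mem : ∀ i, x i ∈ O
  basis : IsDiffBasis k x
  gen : ∀ a ∈ O, ∃ c : Fin n → K, (∀ i, c i ∈ O) ∧ D k K a = ∑ i, c i • D k K (x i)

variable (n) in
/-- The local rings `O ∈ 𝒪` are the local rings of a complete nonsingular variety of dimension `n`
over `k`, in the sense of Zariski. -/
structure IsSmoothModel (𝒪 : Set (Subring K)) : Prop where
  base : ∀ O ∈ 𝒪, ∀ c : k, algebraMap k K c ∈ O
  normal : ∀ O ∈ 𝒪, ∀ a : K, IsIntegral O a → a ∈ O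
  coord : ∀ O ∈ 𝒪, ∃ x : Fin n → K, IsCoord k O x
  complete : ∀ V : ValuationSubring K, (∀ c : k, algebraMap k K c ∈ V) → ∃ O ∈ 𝒪, O ≤ V.toSubring

end forms

end Pool.Agent.Lib.MP_8bcb2e_ag
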