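import Pool.Agent.Lib.MP_8bcb2e_ag.Basic

/-!
# The statements of the pieces

Every `def … : Prop` below is one task; the proof is sketched in its docstring. All tasks are
independent of each other.
-/

set_option autoImplicit false

universe u

namespace Pool.Agent.Lib.MP_8bcb2e_ag

open KaehlerDifferential AlgebraicGeometry CategoryTheory

/-- (A) Every element of `K` is a combination of the monomials `x^α`, `0 ≤ α_i < p`, with coefficients
in `K^p`.

Proof. Let `E = K^p(x)` (a subfield of `K` containing `k = k^p`). `Ω[K⁄E] = 0` because it is generated by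
`da`, `a : K`, the `dx_i` generate `Ω[K⁄k]` and vanish in `Ω[K⁄E]`. `K/E` is essentially of finite type
(since `K/k` is), so it is formally unramified, hence separable
(`Algebra.FormallyUnramified.isSeparable`), and it is purely inseparable as `a^p ∈ E`. So `K = E`.
Finally the set of all `∑ c_α^p x^α` is a subring containing `K^p` and the `x_i`, and it is a field:
`K^p[x]` is a domain all of whose elements have their `p`-th power in the field `K^p`. -/
def PBasis : Prop := ∀ (k K : Type u) [Field k] [Field K] [Algebra k K] [PerfectField k] (p : ℕ)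
  [Fact p.Prime] [CharP k p] [Algebra.EssFiniteType k K] (n : ℕ) (x : Fin n → K),
  IsDiffBasis k x → ∀ a : K, ∃ c : (Fin n → Fin p) → K, a = ∑ α, c α ^ p * ∏ i, x i ^ (α i : ℕ)

/-- (B1) The trace of the Frobenius on monomial forms.

Proof. If all `α_i = p - 1` this is `map_log`. If `α_j + 1 < p`, take `f_i = x_i` for `i ≠ j` and
`f_j = (α_j + 1)⁻¹ x_j x^α` (the constant is in the prime field, `p ∤ α_j + 1`); then
`Ψ (D f) = x^α Ψ (D x)`, since the other partial derivatives give repeated entries. Use `map_exact`. -/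
def TraceMonomial : Prop := ∀ (k K : Type u) [Field k] [Field K] [Algebra k K] (p : ℕ)
  [Fact p.Prime] [CharP k p] (n : ℕ) (Ψ : Ω[K⁄k] [⋀^Fin n]→ₗ[K] K) (T : K → K),
  IsFrobTrace k Ψ p T → ∀ (x : Fin n → K) (α : Fin n → Fin p),
    ((∀ i, (α i : ℕ) + 1 = p) → T ((∏ i, x i ^ (α i : ℕ)) * Ψ fun i => D k K (x i)) =
      Ψ fun i => D k K (x i)) ∧
    ((∃ i, (α i : ℕ) + 1 ≠ p) → T ((∏ i, x i ^ (α i : ℕ)) * Ψ fun i => D k K (x i)) = 0)

/-- (B2) The top coefficient of an element of `O` is in `O`.

Proof. Let `b` be the basis of `Ω[K⁄k]` with `b i = D (x i)` and `∂_i a = b.coord i (D a)`, derivations of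
`K` with `∂_i x_j = δ_ij` and `∂_i (c^p) = 0`; they map `O` to `O` by `gen`. Apply
`∂_1^{p-1} ⋯ ∂_n^{p-1}` to `a = ∑ c_α^p x^α`: only the top monomial survives and gives
`((p-1)!)^n c_top^p`. So `c_top^p ∈ O` (`(p-1)!` is a nonzero element of the prime field, whose inverse is
an integer), hence `c_top` is integral over `O`, so in `O`. -/
def TopMem : Prop := ∀ (k K : Type u) [Field k] [Field K] [Algebra k K] (p : ℕ)
  [Fact p.Prime] [CharP k p] (n : ℕ) (O : Subring K) (x : Fin n → K), IsCoord k O x →
  (∀ a : K, IsIntegral O a → a ∈ O) → ∀ c : (Fin n → Fin p) → K,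
    ∑ α, c α ^ p * ∏ i, x i ^ (α i : ℕ) ∈ O → ∀ α : Fin n → Fin p, (∀ i, (α i : ℕ) + 1 = p) → c α ∈ O

/-- A separating transcendence basis of `K` over `k` (with `K` finite over `k(t)`) whose differentials
form a basis. -/
structure SepBasis (k : Type u) {K : Type u} [Field k] [Field K] [Algebra k K] {n : ℕ}
    (t : Fin n → K) : Prop where
  algInd : AlgebraicIndependent k t
  sep : Algebra.IsSeparable (IntermediateField.adjoin k (Set.range t)) K
  fin : FiniteDimensional (IntermediateField.adjoin k (Set.range t)) K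
  diff : IsDiffBasis k t

/-- (C) Existence of a separating transcendence basis with `n` elements.

Proof. `exists_isTranscendenceBasis_and_isSeparable_of_perfectField` gives a finite separating
transcendence basis `s`. For a separable algebraic extension `K/E`, `E = k(s)`, the differentials `ds`,
`s ∈ s`, form a basis of `Ω[K⁄k]` (polynomial ring, localization, formally étale extension; or:
they span because every `a` in `K` is a root of a separable polynomial over `E`, and they are
independent because the derivations `∂/∂s` of `E` extend to `K`). Compare with `IsDiffBasis k x`: the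
number of elements of `s` is `n`. -/
def SepExists : Prop := ∀ (k K : Type u) [Field k] [Field K] [Algebra k K] [PerfectField k]
  [Algebra.EssFiniteType k K] (n : ℕ) (x : Fin n → K), IsDiffBasis k x → ∃ t : Fin n → K, SepBasis k t

/-- The valuation subring `V` of `K` contains `k[t]` and lies over the discrete valuation ring
`k[t]_(π)` for an irreducible polynomial `π`. -/
def HeightOne (k : Type u) {K : Type u} [Field k] [Field K] [Algebra k K] {n : ℕ} (t : Fin n → K)
    (V : ValuationSubring K) : Prop :=
  (∀ c : k, algebraMap k K c ∈ V) ∧ (∀ i, t i ∈ V) ∧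
    ∃ π : MvPolynomial (Fin n) k, Irreducible π ∧
      ∀ q : MvPolynomial (Fin n) k, q ≠ 0 → ((MvPolynomial.aeval t q)⁻¹ ∈ V ↔ ¬ π ∣ q)

/-- (D1) The derivations `∂/∂t_i` have bounded denominators at the valuation rings of height one.

Proof. Put `A = k[t]`, `E = k(t)`. Choose a primitive element `b` of `K/E` integral over `A`, with
minimal polynomial `f` (coefficients in `A`), `Δ = discr ∈ A` of the power basis,
`h = Δ ^ 2 * f'(b)` (or a similar product). Let `V` be of height one over `π`, `A_π ⊆ V` the localization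
of `A` at `(π)` (a discrete valuation ring), `R` the integral closure of `A_π` in `K` (a Dedekind domain,
`integralClosure.isDedekindDomain`, contained in `V`). For `z ∈ R`: `Δ z = q(b)` with `q ∈ A_π[X]`
(`Algebra.discr_mul_isIntegral_mem_adjoin`), and `∂(q(b)) = (∂q)(b) + q'(b) ∂b`,
`f'(b) ∂b = - (∂f)(b)`, so `h ∂z ∈ R`. For `z ∈ V`: `z = w / v` with `w, v ∈ R`, `v⁻¹ ∈ V`: the fractional
ideal `J = R + R z` is invertible with inverse `I = {v ∈ R : v z ∈ R}`; if all `v ∈ I` were in the maximal
ideal of `V`, then `1 ∈ J I` would be in it. Then `∂z = (v ∂w - w ∂v) / v ^ 2`. -/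
def DerivBound : Prop := ∀ (k K : Type u) [Field k] [Field K] [Algebra k K] (n : ℕ) (t : Fin n → K),
  SepBasis k t → ∃ h : K, h ≠ 0 ∧ ∀ V : ValuationSubring K, HeightOne k t V → ∀ a ∈ V,
    ∀ c : Fin n → K, D k K a = ∑ i, c i • D k K (t i) → ∀ i, h * c i ∈ V

/-- (D2) An element that is in all valuation rings of height one is integral over `k[t]`.

Proof. Let `f` be the minimal polynomial of `F` over `k(t)`. For each irreducible `π`, `F` is in every
valuation subring `V` of `K` that contains `A_π = k[t]_(π)`: `V ∩ k(t)` contains the discrete valuation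
ring `A_π`, so it is `A_π` (then `V` is of height one) or `k(t)` (then `V = K`, since `V` is integrally
closed and `K/k(t)` is algebraic). By `iInf_valuationSubring_superset`, `F` is integral over `A_π`, so
`f` has coefficients in `A_π` (`minpoly.isIntegrallyClosed_eq_field_fractions`). An element of `k(t)`
that is in `A_π` for all `π` is in `k[t]` (unique factorization). -/
def IntegralOfHeightOne : Prop := ∀ (k K : Type u) [Field k] [Field K] [Algebra k K] (n : ℕ)
  (t : Fin n → K), SepBasis k t → ∀ F : K, (∀ V : ValuationSubring K, HeightOne k t V → F ∈ V) →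
    IsIntegral (Algebra.adjoin k (Set.range t)) F

/-- The coordinates of the chart at infinity: `1/t_0, t_1/t_0, …, t_n/t_0`. -/
noncomputable def inftyChart {K : Type u} [Field K] {n : ℕ} (t : Fin (n + 1) → K) :
    Fin (n + 1) → K := Fin.cons (t 0)⁻¹ fun i => t i.succ / t 0

/-- (D3) The chart at infinity is again a separating transcendence basis (same subfield; the
differentials: `d(1/t_0) = -t_0^{-2} dt_0`, `d(t_i/t_0) = t_0^{-1} dt_i - t_i t_0^{-2} dt_0`). -/
def InftyChart : Prop := ∀ (k K : Type u) [Field k] [Field K] [Algebra k K] (n : ℕ)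
  (t : Fin (n + 1) → K), SepBasis k t → SepBasis k (inftyChart t)

/-- (D4) Functions with bounded poles in both charts form a finite dimensional space.

Proof. `E = k(t)`, `A = k[t]`, `A' = k[inftyChart t]`. Choose a basis `w_j` of `K/E` of elements integral
over `A`. If `c F` is integral over `A`, then `Tr(c F w_j) ∈ A` (`Algebra.isIntegral_trace`, `A` is
integrally closed). There is a nonzero `g ∈ A'` such that all `g c c'⁻¹ w_j` are integral over `A'`; so
`g Tr(c F w_j) = Tr (g c c'⁻¹ w_j (c' F))` is in `A'`. Elements of `A'` are quotients `a / t_0^N` with `a`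
of total degree at most `N`; so `Tr(c F w_j)` is a polynomial in `t` of total degree bounded in terms of
`g`. These form a finite dimensional space, and `F ↦ (Tr(c F w_j))_j` is injective and `k`-linear
(the trace form of a separable extension is nondegenerate). -/
def TwoCharts : Prop := ∀ (k K : Type u) [Field k] [Field K] [Algebra k K] (n : ℕ)
  (t : Fin (n + 1) → K), SepBasis k t → ∀ c c' : K, c ≠ 0 → c' ≠ 0 →
    ∃ W : Submodule k K, FiniteDimensional k W ∧ ∀ F : K,
      IsIntegral (Algebra.adjoin k (Set.range t)) (c * F) →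
      IsIntegral (Algebra.adjoin k (Set.range (inftyChart t))) (c' * F) → F ∈ W

/-- (E) Every element of `K` is, up to a factor in `k[t]`, a section of a multiple of `rK_X` divided by a
power of `S`.

Proof. `K` is algebraic over `k(t)`, so some nonzero `g ∈ k[t]` makes `a' = g a` integral over `k[t]`:
`a'^d + c_1 a'^{d-1} + ⋯ + c_d = 0`, the `c_i` polynomials in `t` of degree at most `N`. At `O` with
coordinates `x` write `S = σ J`, `t_i S = σ_i J` with `J = Ψ (D x) ^ r` (nonzero, if `Ψ ≠ 0`; if `Ψ = 0`
the hypothesis `S ≠ 0` excludes `0 < r`, and for `r = 0` the powers are `1`: use `regularAt_iff`), so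
`t_i σ = σ_i ∈ O`, hence `c_i σ^N ∈ O`, and `a' σ^N` is integral over `O`:
`(a'σ^N)^d + c_1 σ^N (a'σ^N)^{d-1} + ⋯ = 0`. So `a' σ^N ∈ O` and `a' S^N ∈ O J^N`. -/
def IntegralSections : Prop := ∀ (k K : Type u) [Field k] [Field K] [Algebra k K] (n : ℕ)
  (Ψ : Ω[K⁄k] [⋀^Fin n]→ₗ[K] K) (𝒪 : Set (Subring K)), Ψ ≠ 0 → IsSmoothModel k n 𝒪 →
  ∀ (r ν : ℕ) (t : Fin ν → K) (S : K), S ≠ 0 → S ∈ sections k Ψ 𝒪 r →
    (∀ i, t i * S ∈ sections k Ψ 𝒪 r) →
    Algebra.IsAlgebraic (IntermediateField.adjoin k (Set.range t)) K →
    ∀ a : K, ∃ g ∈ Algebra.adjoin k (Set.range t), g ≠ 0 ∧ ∃ N : ℕ,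
      g * a * S ^ N ∈ sections k Ψ 𝒪 (N * r)

/-- (F) The Wronskian type section `y_0^{n+1} d(y_1/y_0) ∧ ⋯ ∧ d(y_n/y_0)`.

Proof. At `O` with coordinates `x` (basis `b`, derivations `∂_j = b.coord j ∘ D`, which preserve `O`) write
`y_0 = g_0 J^s`, `y_i = g_i J^s`, `g ∈ O`. Then `y_i / y_0 = g_i / g_0` and
`g_0^{n+1} det(∂_j (g_i/g_0))` is the determinant of the `(n+1) × (n+1)` matrix with rows
`(g_0, ∂_1 g_0, …, ∂_n g_0)` and `(g_i, ∂_1 g_i, …, ∂_n g_i)` (subtract `g_i / g_0` times the first row),
so it is in `O`; use `psi_eq_det` and `regularAt_iff`. -/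
def WSection : Prop := ∀ (k K : Type u) [Field k] [Field K] [Algebra k K] (n : ℕ)
  (Ψ : Ω[K⁄k] [⋀^Fin n]→ₗ[K] K) (𝒪 : Set (Subring K)), Ψ ≠ 0 → IsSmoothModel k n 𝒪 →
  ∀ (s : ℕ) (y₀ : K) (y : Fin n → K), y₀ ≠ 0 → y₀ ∈ sections k Ψ 𝒪 s →
    (∀ i, y i ∈ sections k Ψ 𝒪 s) →
    y₀ ^ (n + 1) * (Ψ fun i => D k K (y i / y₀)) ∈ sections k Ψ 𝒪 (1 + (n + 1) * s)

/-- (G) The spreading argument.

Proof. As `K` is finite over `E = k(t)` and `M` is increasing, some `M a` spans `K` over `E`. Let
`p^e + n ≥ a`. Every `ε ∈ E` is a finite sum `∑ c_α ^ (p^e) t^α` with `c_α ∈ E` and `0 ≤ α_i < p^e`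
(`f/g = f g^{p^e-1} / g^{p^e}`, and `k` is perfect). For `θ ∈ M a`,
`T^[e] (ε θ) = ∑ c_α T^[e] (t^α θ)`, and `t^α θ ∈ M (a + n (p^e - 1)) ⊆ M (p^e (n + 1))`. So the `E`-span
of `T^[e] '' M (p^e (n+1))` contains `T^[e] y` for all `y ∈ K`, and `T^[e]` is surjective
(`T (a ^ p * b) = a * T b` with `T b ≠ 0`). -/
def Spread : Prop := ∀ (k K : Type u) [Field k] [Field K] [Algebra k K] [PerfectField k] (p : ℕ)
  [Fact p.Prime] [CharP k p] (n : ℕ) (t : Fin n → K),
  FiniteDimensional (IntermediateField.adjoin k (Set.range t)) K → ∀ (M : ℕ → Set K) (T : K → K),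
  (∀ a b, T (a + b) = T a + T b) → (∀ a b, T (a ^ p * b) = a * T b) → (∃ a, T a ≠ 0) →
  (∀ N, M N ⊆ M (N + 1)) → (∀ N i, ∀ a ∈ M N, t i * a ∈ M (N + 1)) →
  (∀ a : K, ∃ N, a ∈ Submodule.span (IntermediateField.adjoin k (Set.range t)) (M N)) →
  ∃ e₀ : ℕ, ∀ e ≥ e₀, Submodule.span (IntermediateField.adjoin k (Set.range t))
    (T^[e] '' M (p ^ e * (n + 1))) = ⊤

/-- (I) Existence and uniqueness of the trace of the Frobenius.

Proof. The monomials `x^α`, `0 ≤ α_i < p`, form a basis of `K` over `K^p`: they span by `PBasis` (a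
hypothesis here) and they are independent (apply the derivations `∂_i` dual to `D (x i)`). Let
`T F = c_top Ψ(D x)` for `F = (∑ c_α^p x^α) Ψ(D x)`. Additivity and `T (a^p b) = a T b` are clear.
Exactness: expand `f_i = ∑_α c_{i,α}^p x^α`; by multilinearity it is enough that the top coefficient of
`det (α_{ij}) x^{∑_i α_i - 1}` vanishes: it is nonzero only if `∑_i α_{ij} ≡ 0 mod p` for all `j`, and then
the rows of the integer matrix `(α_ij)` sum to zero modulo `p`, so `det ≡ 0`.
`map_log`: (1) for monomials `f_i = x^{α_i}` directly (`det (α_ij)` is in the prime field);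
(2) with the other `f`'s fixed, the set of `f_j` for which it holds is closed under multiplication by
`p`-th powers and under addition, because
`(f+g)^{p-1} (df+dg) - f^{p-1} df - g^{p-1} dg = d Φ(f,g)`, `Φ = ((f+g)^p - f^p - g^p)/p`, and
`(f_2 ⋯ f_n)^{p-1} dΦ ∧ df_2 ∧ ⋯ = d(Φ (f_2⋯f_n)^{p-1}) ∧ df_2 ∧ ⋯` is exact; (3) replace the monomials by
arbitrary elements one index at a time. Uniqueness: `PBasis` and `TraceMonomial` (hypotheses). -/
def TraceExists : Prop := PBasis.{u} → TraceMonomial.{u} →
  ∀ (k K : Type u) [Field k] [Field K] [Algebra k K] [PerfectField k] (p : ℕ) [Fact p.Prime]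
  [CharP k p] [Algebra.EssFiniteType k K] (n : ℕ) (x : Fin n → K), 1 ≤ n → IsDiffBasis k x →
  ∀ Ψ : Ω[K⁄k] [⋀^Fin n]→ₗ[K] K, Ψ ≠ 0 → ∃! T : K → K, IsFrobTrace k Ψ p T

section scheme

/-- The homomorphism from `k` to the function field of the variety `X` over `k`. -/
noncomputable def toFunctionField {k : Type u} [Field k] {X : Scheme.{u}} [IsIntegral X]
    (f : X ⟶ Spec (.of k)) : k →+* X.functionField :=
  ((Scheme.ΓSpecIso (.of k)).inv ≫ f.appTop ≫ X.presheaf.germ ⊤ (genericPoint X) trivial).hom

/-- The function field of `X` as an algebra over `k`. -/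
noncomputable abbrev functionFieldAlgebra {k : Type u} [Field k] {X : Scheme.{u}} [IsIntegral X]
    (f : X ⟶ Spec (.of k)) : Algebra k X.functionField := (toFunctionField f).toAlgebra

/-- The local ring of `X` at `x`, as a subring of the function field. -/
noncomputable def localRing (X : Scheme.{u}) [IsIntegral X] (x : X) : Subring X.functionField :=
  (algebraMap (X.presheaf.stalk x) X.functionField).range

/-- The local rings of the points of `X`. -/
def localRings (X : Scheme.{u}) [IsIntegral X] : Set (Subring X.functionField) :=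
  Set.range (localRing X)

/-- (J1) Local coordinates at the points of a smooth variety: at every point there is an affine open
neighbourhood `V` with `k → Γ(X, V)` standard smooth of relative dimension `n`; the differentials of
suitable elements form a basis of `Ω[Γ(X,V)⁄k]` (`Mathlib.RingTheory.Smooth.StandardSmoothCotangent`);
`stalk x` and the function field are localizations of `Γ(X, V)`. -/
def SchemeCoord : Prop := ∀ (k : Type u) [Field k] (X : Scheme.{u}) [IsIntegral X] (n : ℕ)
  (f : X ⟶ Spec (.of k)) [SmoothOfRelativeDimension n f] (x : X),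
  letI := functionFieldAlgebra f
  ∃ y : Fin n → X.functionField, IsCoord k (localRing X x) y

/-- (J2) Completeness of a proper variety: the valuative criterion
(`AlgebraicGeometry.UniversallyClosed.eq_valuativeCriterion` / `IsProper.eq_valuativeCriterion`) for
`Spec K → X` (`K` the function field) and `Spec V → Spec k`; the image of the closed point of `Spec V`
under the lift `Spec V → X` is the required point. -/
def SchemeComplete : Prop := ∀ (k : Type u) [Field k] (X : Scheme.{u}) [IsIntegral X]
  (f : X ⟶ Spec (.of k)) [IsProper f] (V : ValuationSubring X.functionField),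
  (∀ c : k, toFunctionField f c ∈ V) → ∃ x : X, localRing X x ≤ V.toSubring

/-- (J3) The function field of a variety is essentially of finite type over `k` (fraction field of
`Γ(X, V)`, `V` affine open, of finite type over `k`), and the local rings are normal (they are unique
factorization domains: `Pool.Agent.Lib.RegularUFD.ufd_stalk`) and contain `k`. -/
def SchemeFin : Prop := ∀ (k : Type u) [Field k] (X : Scheme.{u}) [IsIntegral X]
  (f : X ⟶ Spec (.of k)) [IsProper f] [Smooth f],
  letI := functionFieldAlgebra f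
  Algebra.EssFiniteType k X.functionField ∧
    (∀ x : X, (∀ c : k, toFunctionField f c ∈ localRing X x) ∧
      ∀ a : X.functionField, IsIntegral (localRing X x) a → a ∈ localRing X x)

end scheme

end Pool.Agent.Lib.MP_8bcb2e_ag
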